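import Mathlib

/-!
# Polynomials `Q (z ^ n * A z) + c`: basic estimates
-/

set_option autoImplicit false

open Polynomial Filter Topology

namespace Pool.Agent.H113R3.DH

/-- `A` has degree `k`, coefficients at most `M` and leading coefficient at least `1 / M`. -/
structure Cls (k : ℕ) (M : ℝ) (A : ℂ[X]) : Prop where
  deg : A.natDegree = k
  coeff : ∀ i, ‖A.coeff i‖ ≤ M
  lead : 1 / M ≤ ‖A.leadingCoeff‖

/-- `Q (z ^ n * A z) + c` -/
noncomputable def F (n : ℕ) (A Q : ℂ[X]) (c : ℂ) : ℂ[X] := Q.comp (X ^ n * A) + C c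

lemma F_eval (n : ℕ) (A Q : ℂ[X]) (c z : ℂ) :
    (F n A Q c).eval z = Q.eval (z ^ n * A.eval z) + c := by
  simp [F, eval_comp]

variable {k : ℕ} {M : ℝ} {A : ℂ[X]}

lemma Cls.ne_zero (hM : 1 ≤ M) (h : Cls k M A) : A ≠ 0 := by
  intro h0
  have := h.lead
  rw [h0, leadingCoeff_zero, norm_zero] at this
  have h2 : 0 < 1 / M := by positivity
  linarith

lemma Cls.root_lt (hM : 1 ≤ M) (h : Cls k M A) {a : ℂ} (ha : a ∈ A.roots) : ‖a‖ ≤ M ^ 2 + 1 := by
  have hne := h.ne_zero hM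
  have hr : A.IsRoot a := isRoot_of_mem_roots ha
  have h1 := Polynomial.IsRoot.norm_lt_cauchyBound hne hr
  have hlead : 0 < ‖A.leadingCoeff‖ := by
    have := h.lead
    have h2 : 0 < 1 / M := by positivity
    linarith
  have h2 : ((cauchyBound A : NNReal) : ℝ) ≤ M ^ 2 + 1 := by
    unfold cauchyBound
    push_cast
    have h3 : ((Finset.sup (Finset.range A.natDegree) (fun i => ‖A.coeff i‖₊) : NNReal) : ℝ) ≤ M := by
      have h4 : (Finset.sup (Finset.range A.natDegree) (fun i => ‖A.coeff i‖₊) : NNReal) ≤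
          ⟨M, by linarith⟩ := by
        refine Finset.sup_le fun i _ => ?_
        have := h.coeff i
        exact this
      exact h4
    have h5 : ((Finset.sup (Finset.range A.natDegree) (fun i => ‖A.coeff i‖₊) : NNReal) : ℝ) /
        ‖A.leadingCoeff‖ ≤ M ^ 2 := by
      rw [div_le_iff₀ hlead]
      have h6 : 1 ≤ M * ‖A.leadingCoeff‖ := by
        have := mul_le_mul_of_nonneg_left h.lead (by linarith : (0:ℝ) ≤ M)
        rw [mul_one_div_cancel (by linarith)] at this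
        exact this
      nlinarith
    simpa using h5
  have h3 : ‖a‖ < ((cauchyBound A : NNReal) : ℝ) := by exact_mod_cast h1
  linarith

lemma prod_lower (z : ℂ) {r : ℝ} (hr : 0 ≤ r) (s : Multiset ℂ) (hs : ∀ a ∈ s, r ≤ ‖z - a‖) :
    r ^ Multiset.card s ≤ ‖(s.map (fun a => z - a)).prod‖ := by
  induction s using Multiset.induction_on with
  | empty => simp
  | cons a s ih =>
    rw [Multiset.map_cons, Multiset.prod_cons, norm_mul, Multiset.card_cons, pow_succ, mul_comm]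
    exact mul_le_mul (hs a (Multiset.mem_cons_self a s))
      (ih fun b hb => hs b (Multiset.mem_cons_of_mem hb)) (pow_nonneg hr _) (norm_nonneg _)

lemma Cls.lower (_hM : 1 ≤ M) (h : Cls k M A) {z : ℂ} {r : ℝ} (hr : 0 ≤ r)
    (hz : ∀ a ∈ A.roots, r ≤ ‖z - a‖) : r ^ k / M ≤ ‖A.eval z‖ := by
  have hs : A.Splits := IsAlgClosed.splits A
  have h1 : A.eval z = A.leadingCoeff * (A.roots.map (fun a => z - a)).prod := by
    conv_lhs => rw [hs.eq_prod_roots]
    rw [eval_mul, eval_C, eval_multiset_prod, Multiset.map_map]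
    simp
  have hcard : Multiset.card A.roots = k := by
    rw [← h.deg]; exact hs.natDegree_eq_card_roots.symm
  rw [h1, norm_mul]
  have h2 := prod_lower z hr A.roots hz
  rw [hcard] at h2
  calc r ^ k / M = 1 / M * r ^ k := by ring
    _ ≤ ‖A.leadingCoeff‖ * ‖(A.roots.map (fun a => z - a)).prod‖ :=
      mul_le_mul h.lead h2 (pow_nonneg hr _) (norm_nonneg _)

lemma Cls.upper (_hM : 1 ≤ M) (h : Cls k M A) {z : ℂ} (hz : ‖z‖ ≤ 1) :
    ‖A.eval z‖ ≤ (k + 1) * M := by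
  rw [eval_eq_sum_range, h.deg]
  refine (norm_sum_le _ _).trans ?_
  have : ∀ i ∈ Finset.range (k + 1), ‖A.coeff i * z ^ i‖ ≤ M := by
    intro i _
    rw [norm_mul, norm_pow]
    have h1 : ‖z‖ ^ i ≤ 1 := pow_le_one₀ (norm_nonneg _) hz
    have h2 := h.coeff i
    nlinarith [norm_nonneg (A.coeff i), pow_nonneg (norm_nonneg z) i]
  refine (Finset.sum_le_card_nsmul _ _ _ this).trans ?_
  simp

lemma Cls.upper_deriv (_hM : 1 ≤ M) (h : Cls k M A) {z : ℂ} (hz : ‖z‖ ≤ 1) :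
    ‖(derivative A).eval z‖ ≤ (k + 1) * (k * M) := by
  have hd : (derivative A).natDegree ≤ k := by
    rw [← h.deg]; exact (natDegree_derivative_le A).trans (Nat.sub_le _ _)
  have hc : ∀ i, i ≤ k → ‖(derivative A).coeff i‖ ≤ k * M := by
    intro i hi
    rw [coeff_derivative, norm_mul]
    rcases lt_or_eq_of_le hi with h1 | h1
    · have h2 : ‖((i : ℂ) + 1)‖ ≤ k := by
        have : ‖((i : ℂ) + 1)‖ = (i : ℝ) + 1 := by
          rw [← Nat.cast_succ, Complex.norm_natCast]; push_cast; ring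
        rw [this]
        exact_mod_cast h1
      have h3 := h.coeff (i + 1)
      calc _ ≤ M * k := mul_le_mul h3 h2 (norm_nonneg _) (by linarith)
        _ = k * M := mul_comm _ _
    · have h2 : A.coeff (i + 1) = 0 := coeff_eq_zero_of_natDegree_lt (by rw [h.deg]; omega)
      rw [h2, norm_zero, zero_mul]; positivity
  rw [eval_eq_sum_range' (Nat.lt_succ_of_le hd)]
  refine (norm_sum_le _ _).trans ?_
  have : ∀ i ∈ Finset.range (k + 1), ‖(derivative A).coeff i * z ^ i‖ ≤ k * M := by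
    intro i hi
    rw [norm_mul, norm_pow]
    have h1 : ‖z‖ ^ i ≤ 1 := pow_le_one₀ (norm_nonneg _) hz
    have h2 := hc i (Nat.lt_succ_iff.1 (Finset.mem_range.1 hi))
    nlinarith [norm_nonneg ((derivative A).coeff i), pow_nonneg (norm_nonneg z) i]
  refine (Finset.sum_le_card_nsmul _ _ _ this).trans ?_
  simp

lemma Cls.growth (hM : 1 ≤ M) {m : ℕ} {Q : ℂ[X]} (h : Cls m M Q) (hm : 1 ≤ m) {w : ℂ}
    (hw : 2 * (M ^ 2 + 1) ≤ ‖w‖) : ‖w‖ / (2 * M) ≤ ‖Q.eval w‖ := by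
  have h1 : ∀ a ∈ Q.roots, ‖w‖ / 2 ≤ ‖w - a‖ := by
    intro a ha
    have := h.root_lt hM ha
    have h3 := norm_sub_norm_le w a
    linarith
  have h2 := h.lower hM (by positivity) h1
  refine le_trans ?_ h2
  have h3 : 1 ≤ ‖w‖ / 2 := by nlinarith
  have h4 : ‖w‖ / 2 ≤ (‖w‖ / 2) ^ m := by
    calc ‖w‖ / 2 = (‖w‖ / 2) ^ 1 := (pow_one _).symm
      _ ≤ _ := pow_le_pow_right₀ h3 hm
  calc ‖w‖ / (2 * M) = ‖w‖ / 2 / M := by rw [div_div]
    _ ≤ _ := by gcongr

lemma Cls.upper_zero (hM : 1 ≤ M) {m : ℕ} {Q : ℂ[X]} (h : Cls m M Q) (h0 : Q.coeff 0 = 0) {w : ℂ}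
    (hw : ‖w‖ ≤ 1) : ‖Q.eval w‖ ≤ (m + 1) * M * ‖w‖ := by
  rw [eval_eq_sum_range, h.deg]
  refine (norm_sum_le _ _).trans ?_
  have : ∀ i ∈ Finset.range (m + 1), ‖Q.coeff i * w ^ i‖ ≤ M * ‖w‖ := by
    intro i _
    rcases i with _ | i
    · rw [h0]; simp; positivity
    · rw [norm_mul, norm_pow, pow_succ]
      have h1 : ‖w‖ ^ i ≤ 1 := pow_le_one₀ (norm_nonneg _) hw
      have h2 := h.coeff (i + 1)
      calc ‖Q.coeff (i + 1)‖ * (‖w‖ ^ i * ‖w‖) ≤ M * (1 * ‖w‖) := by gcongr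
        _ = M * ‖w‖ := by ring
  refine (Finset.sum_le_card_nsmul _ _ _ this).trans ?_
  simp [mul_assoc]

end Pool.Agent.H113R3.DH
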