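import Mathlib
import Pool.Agent.H113R3.DH.Core

/-!
# Polynomials `Q (z ^ n * A z) + c`: escape and attraction
-/

set_option autoImplicit false

open Polynomial Filter Topology

namespace Pool.Agent.H113R3.DH

/-- the orbit of `z` escapes -/
def Esc (T : ℂ[X]) (z : ℂ) : Prop :=
  Tendsto (fun k : ℕ => ‖(fun w : ℂ => T.eval w)^[k] z‖) atTop atTop

/-- the orbit of `z` converges to an attracting fixed point -/
def Att (T : ℂ[X]) (z : ℂ) : Prop :=
  ∃ x : ℂ, T.eval x = x ∧ ‖deriv (fun w : ℂ => T.eval w) x‖ < 1 ∧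
    Tendsto (fun k : ℕ => (fun w : ℂ => T.eval w)^[k] z) atTop (𝓝 x)

lemma Esc.shift {T : ℂ[X]} {z : ℂ} (h : Esc T (T.eval z)) : Esc T z := by
  unfold Esc at *
  rw [← tendsto_add_atTop_iff_nat 1]
  exact h

lemma Att.shift {T : ℂ[X]} {z : ℂ} (h : Att T (T.eval z)) : Att T z := by
  obtain ⟨x, h1, h2, h3⟩ := h
  refine ⟨x, h1, h2, ?_⟩
  rw [← tendsto_add_atTop_iff_nat 1]
  exact h3

variable {k m : ℕ} {M : ℝ} {A Q : ℂ[X]}

/-- the escape radius -/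
noncomputable def R (M : ℝ) : ℝ := 8 * M ^ 2 + 2

lemma step (hM : 1 ≤ M) (h : Cls k M A) (hQ : Cls m M Q) (hm : 1 ≤ m) {n : ℕ} (hn : 2 ≤ n)
    {c z : ℂ} (hz : R M ≤ ‖z‖) (hc : ‖c‖ ≤ M) : 2 * ‖z‖ ≤ ‖(F n A Q c).eval z‖ := by
  unfold R at hz
  have hM0 : 0 < M := by linarith
  have h1 : 1 ≤ ‖z‖ := by nlinarith
  have h2 : ∀ a ∈ A.roots, (1 : ℝ) ≤ ‖z - a‖ := by
    intro a ha
    have := h.root_lt hM ha
    have h3 := norm_sub_norm_le z a
    nlinarith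
  have h3 := h.lower hM zero_le_one h2
  rw [one_pow] at h3
  have h4 : ‖z‖ ^ 2 ≤ ‖z‖ ^ n := pow_le_pow_right₀ h1 hn
  have h5 : ‖z‖ ^ 2 / M ≤ ‖z ^ n * A.eval z‖ := by
    rw [norm_mul, norm_pow, div_eq_mul_one_div]
    exact mul_le_mul h4 h3 (by positivity) (by positivity)
  have h6 : 8 * M * ‖z‖ ≤ ‖z‖ ^ 2 / M := by
    rw [le_div_iff₀ hM0]
    nlinarith
  have h8 : 2 * (M ^ 2 + 1) ≤ ‖z ^ n * A.eval z‖ := by nlinarith
  have h9 := hQ.growth hM hm h8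
  have h10 : 4 * ‖z‖ ≤ ‖Q.eval (z ^ n * A.eval z)‖ := by
    refine le_trans ?_ h9
    rw [le_div_iff₀ (by positivity)]
    nlinarith
  rw [F_eval]
  have h7 := norm_sub_norm_le (Q.eval (z ^ n * A.eval z)) (-c)
  rw [sub_neg_eq_add, norm_neg] at h7
  nlinarith

lemma esc_of_large (hM : 1 ≤ M) (h : Cls k M A) (hQ : Cls m M Q) (hm : 1 ≤ m) {n : ℕ} (hn : 2 ≤ n)
    {c z : ℂ} (hz : R M ≤ ‖z‖) (hc : ‖c‖ ≤ M) : Esc (F n A Q c) z := by
  have h0 : 0 < R M := by unfold R; positivity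
  have h1 : ∀ j : ℕ, R M * 2 ^ j ≤ ‖(fun w : ℂ => (F n A Q c).eval w)^[j] z‖ := by
    intro j
    induction j with
    | zero => simpa using hz
    | succ j ih =>
      rw [Function.iterate_succ_apply']
      have h2 : R M ≤ ‖(fun w : ℂ => (F n A Q c).eval w)^[j] z‖ :=
        (le_mul_of_one_le_right h0.le (one_le_pow₀ (by norm_num))).trans ih
      have h3 := step hM h hQ hm hn h2 hc
      calc R M * 2 ^ (j + 1) = 2 * (R M * 2 ^ j) := by ring
        _ ≤ 2 * ‖(fun w : ℂ => (F n A Q c).eval w)^[j] z‖ := by linarith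
        _ ≤ _ := h3
  exact tendsto_atTop_mono h1
    (Tendsto.const_mul_atTop h0 (tendsto_pow_atTop_atTop_of_one_lt (by norm_num)))

/-- the size of `z ^ n * A z` from which on the orbit escapes -/
noncomputable def R2 (M : ℝ) : ℝ := 2 * M * (R M + M)

lemma esc_of_far (hM : 1 ≤ M) (h : Cls k M A) (hQ : Cls m M Q) (hm : 1 ≤ m) {n : ℕ} (hn : 2 ≤ n)
    {c u : ℂ} {r : ℝ} (hr : 0 ≤ r)
    (hc : ‖c‖ ≤ M) (hu : ∀ a ∈ A.roots, r ≤ ‖u - a‖)
    (hb : R2 M ≤ ‖u‖ ^ n * (r ^ k / M)) : Esc (F n A Q c) u := by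
  have hM0 : 0 < M := by linarith
  apply Esc.shift
  apply esc_of_large hM h hQ hm hn _ hc
  rw [F_eval]
  have h3 := h.lower hM hr hu
  have h8 : ‖u‖ ^ n * (r ^ k / M) ≤ ‖u ^ n * A.eval u‖ := by
    rw [norm_mul, norm_pow]
    exact mul_le_mul_of_nonneg_left h3 (by positivity)
  have h9 : R2 M ≤ ‖u ^ n * A.eval u‖ := hb.trans h8
  have h10 : 2 * (M ^ 2 + 1) ≤ ‖u ^ n * A.eval u‖ := by
    refine le_trans ?_ h9
    unfold R2 R
    nlinarith [mul_pos hM0 hM0, mul_nonneg hM0.le (sub_nonneg.2 hM)]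
  have h11 := hQ.growth hM hm h10
  have h12 : R M + M ≤ ‖Q.eval (u ^ n * A.eval u)‖ := by
    refine le_trans ?_ h11
    rw [le_div_iff₀ (by positivity)]
    unfold R2 at h9
    linarith
  have h7 := norm_sub_norm_le (Q.eval (u ^ n * A.eval u)) (-c)
  rw [sub_neg_eq_add, norm_neg] at h7
  linarith

lemma deriv_F (n : ℕ) (c x : ℂ) : deriv (fun w : ℂ => (F n A Q c).eval w) x =
    (n * x ^ (n - 1) * A.eval x + x ^ n * (derivative A).eval x) *
      (derivative Q).eval (x ^ n * A.eval x) := by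
  rw [Polynomial.deriv]
  unfold F
  rw [derivative_add, derivative_C, add_zero, derivative_comp, derivative_mul, derivative_X_pow]
  simp [eval_comp]

lemma att_of_inner {n : ℕ} {c : ℂ} {ρ b : ℝ}
    (hb : ∀ z : ℂ, ‖z‖ ≤ ρ → ‖Q.eval (z ^ n * A.eval z)‖ ≤ b) (hcb : ‖c‖ + b ≤ ρ)
    (hd : ∀ z : ℂ, ‖z‖ ≤ ρ → ‖(n * z ^ (n - 1) * A.eval z + z ^ n * (derivative A).eval z) *
      (derivative Q).eval (z ^ n * A.eval z)‖ ≤ 1 / 2)
    {z : ℂ} (hz : ‖z‖ ≤ ρ) : Att (F n A Q c) z := by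
  set f : ℂ → ℂ := fun w : ℂ => (F n A Q c).eval w with hf
  set s : Set ℂ := Metric.closedBall 0 ρ with hs
  have hmaps : Set.MapsTo f s s := by
    intro w hw
    rw [hs, mem_closedBall_zero_iff] at hw ⊢
    rw [hf]
    simp only [F_eval]
    calc ‖Q.eval (w ^ n * A.eval w) + c‖ ≤ ‖Q.eval (w ^ n * A.eval w)‖ + ‖c‖ := norm_add_le _ _
      _ ≤ ρ := by have := hb w hw; linarith
  have hder : ∀ x ∈ s, ‖deriv f x‖ ≤ 1 / 2 := by
    intro x hx
    rw [hs, mem_closedBall_zero_iff] at hx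
    rw [hf, deriv_F]
    exact hd x hx
  have hdiff : ∀ x ∈ s, DifferentiableAt ℂ f x := fun x _ => (F n A Q c).differentiableAt
  have hlip : LipschitzOnWith (1 / 2) f s := by
    refine Convex.lipschitzOnWith_of_nnnorm_deriv_le (𝕜 := ℂ) hdiff ?_ (convex_closedBall 0 ρ)
    intro x hx
    have := hder x hx
    rw [← NNReal.coe_le_coe]
    simpa using this
  have hcon : ContractingWith (1 / 2) (hmaps.restrict f s s) := by
    refine ⟨by rw [← NNReal.coe_lt_coe]; norm_num, ?_⟩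
    exact hlip.mapsToRestrict hmaps
  have hzs : z ∈ s := by rw [hs, mem_closedBall_zero_iff]; exact hz
  obtain ⟨y, hys, hy, hlim, -⟩ := hcon.exists_fixedPoint' Metric.isClosed_closedBall.isComplete hmaps
    hzs (edist_ne_top _ _)
  exact ⟨y, hy, lt_of_le_of_lt (hder y hys) (by norm_num), hlim⟩

end Pool.Agent.H113R3.DH
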