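import Mathlib
import Pool.Agent.H113R3.DH.Dyn

/-!
# Polynomials `Q (z ^ n * A z) + c`: the bad set and the critical points
-/

set_option autoImplicit false

open Polynomial Filter Topology

namespace Pool.Agent.H113R3.DH

variable {k m : ℕ} {M : ℝ} {A Q : ℂ[X]}

/-- the width of the bad annulus -/
noncomputable def eps (k n : ℕ) : ℝ := 8 * (k + 2) * Real.log n / n

/-- the bad set -/
def Bad (k n : ℕ) (A : ℂ[X]) : Set ℂ :=
  {z | 1 - eps k n < ‖z‖ ∧ ‖z‖ < 1 + eps k n} ∪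
    ⋃ a ∈ A.roots.toFinset, Metric.ball a (1 / n)

/-- `n` is large -/
structure Large (k m : ℕ) (M : ℝ) (n : ℕ) : Prop where
  three : 3 ≤ n
  eps_le : eps k n ≤ 1 / 2
  esc : M * R2 M ≤ n
  coef : (k + 1) * M ≤ n
  coefQ : (m + 1) * M ≤ n

lemma log_ge {n : ℕ} (hn : 3 ≤ n) : 1 ≤ Real.log n := by
  rw [Real.le_log_iff_exp_le (by positivity)]
  have h1 := Real.exp_one_lt_d9
  have h2 : (3 : ℝ) ≤ n := by exact_mod_cast hn
  linarith

lemma eps_ge {n : ℕ} (hn : 3 ≤ n) : 16 / (n : ℝ) ≤ eps k n := by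
  unfold eps
  have h1 := log_ge hn
  have h2 : (0 : ℝ) < n := by positivity
  gcongr
  have h3 : (0 : ℝ) ≤ k := Nat.cast_nonneg k
  nlinarith

lemma pow_big {n : ℕ} (hn : 3 ≤ n) (he : eps k n ≤ 1 / 2) :
    (n : ℝ) ^ (2 * (k + 2)) ≤ (1 + eps k n / 2) ^ n := by
  have h0 : (0 : ℝ) < n := by positivity
  have he0 : 0 ≤ eps k n := le_trans (by positivity) (eps_ge (k := k) hn)
  have h1 : Real.exp (eps k n / 4) ≤ 1 + eps k n / 2 := by
    have h2 := Real.one_sub_le_exp_neg (eps k n / 4)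
    rw [Real.exp_neg] at h2
    have h3 : 0 < 1 - eps k n / 4 := by linarith
    have h4 := Real.exp_pos (eps k n / 4)
    have h5 : (1 - eps k n / 4) * Real.exp (eps k n / 4) ≤ 1 := by
      calc _ ≤ (Real.exp (eps k n / 4))⁻¹ * Real.exp (eps k n / 4) :=
          mul_le_mul_of_nonneg_right h2 h4.le
        _ = 1 := inv_mul_cancel₀ h4.ne'
    have h6 : 1 ≤ (1 - eps k n / 4) * (1 + eps k n / 2) := by nlinarith
    by_contra hcon
    push Not at hcon
    nlinarith [mul_lt_mul_of_pos_left hcon h3]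
  calc (n : ℝ) ^ (2 * (k + 2)) = Real.exp (Real.log n) ^ (2 * (k + 2)) := by
        rw [Real.exp_log h0]
    _ = Real.exp (eps k n / 4) ^ n := by
        rw [← Real.exp_nat_mul, ← Real.exp_nat_mul]
        congr 1
        unfold eps
        field_simp
        push_cast
        ring
    _ ≤ _ := pow_le_pow_left₀ (Real.exp_pos _).le h1 n

lemma pow_small {n : ℕ} (hn : 3 ≤ n) (he : eps k n ≤ 1 / 2) :
    (1 - eps k n / 2) ^ n ≤ ((n : ℝ) ^ 8)⁻¹ := by
  have h0 : (0 : ℝ) < n := by positivity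
  have h1 : 1 - eps k n / 2 ≤ Real.exp (-(eps k n / 2)) := Real.one_sub_le_exp_neg _
  have h2 : 0 ≤ 1 - eps k n / 2 := by linarith
  have h3 : (1 - eps k n / 2) ^ n ≤ ((n : ℝ) ^ (4 * (k + 2)))⁻¹ := by
    calc (1 - eps k n / 2) ^ n ≤ Real.exp (-(eps k n / 2)) ^ n := pow_le_pow_left₀ h2 h1 n
      _ = (Real.exp (Real.log n) ^ (4 * (k + 2)))⁻¹ := by
          rw [← Real.exp_nat_mul, ← Real.exp_nat_mul, ← Real.exp_neg]
          congr 1
          unfold eps
          field_simp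
          push_cast
          ring
      _ = _ := by rw [Real.exp_log h0]
  refine h3.trans ?_
  apply inv_anti₀ (by positivity)
  apply pow_le_pow_right₀
  · have : (3 : ℝ) ≤ n := by exact_mod_cast hn
    linarith
  · omega

lemma inner_small (hM : 1 ≤ M) (h : Cls k M A) (hQ : Cls m M Q) (hQ0 : Q.coeff 0 = 0) {n : ℕ}
    (hL : Large k m M n) {z : ℂ} (hz : ‖z‖ ≤ 1 - eps k n / 2) :
    ‖Q.eval (z ^ n * A.eval z)‖ ≤ 1 / (2 * n) ∧
      ‖(n * z ^ (n - 1) * A.eval z + z ^ n * (derivative A).eval z) *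
        (derivative Q).eval (z ^ n * A.eval z)‖ ≤ 1 / 2 := by
  have hn := hL.three
  have he := hL.eps_le
  have h0 : (0 : ℝ) < n := by positivity
  have h3 : (3 : ℝ) ≤ n := by exact_mod_cast hn
  have he0 : 0 ≤ eps k n := le_trans (by positivity) (eps_ge (k := k) hn)
  set ρ := 1 - eps k n / 2 with hρ
  have hρ0 : 1 / 2 ≤ ρ := by rw [hρ]; linarith
  have hz1 : ‖z‖ ≤ 1 := by rw [hρ] at hz; linarith
  have hs := pow_small (k := k) hn he
  rw [← hρ] at hs
  have hA := h.upper hM hz1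
  have hA' := h.upper_deriv hM hz1
  have hk0 : (0 : ℝ) ≤ k := Nat.cast_nonneg k
  have hm0 : (0 : ℝ) ≤ m := Nat.cast_nonneg m
  have hc := hL.coef
  have hcQ := hL.coefQ
  have hA2 : ‖A.eval z‖ ≤ n := hA.trans hc
  have hkn : (k : ℝ) ≤ n := by nlinarith
  have hmn : (m : ℝ) ≤ n := by nlinarith
  have hA3 : ‖(derivative A).eval z‖ ≤ n * n := by
    refine hA'.trans ?_
    calc ((k : ℝ) + 1) * (k * M) = k * ((k + 1) * M) := by ring
      _ ≤ n * n := mul_le_mul hkn hc (by positivity) h0.le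
  have hzn : ‖z‖ ^ n ≤ ((n : ℝ) ^ 8)⁻¹ := (pow_le_pow_left₀ (norm_nonneg _) hz n).trans hs
  have hzn1 : ‖z‖ ^ (n - 1) ≤ 2 * ((n : ℝ) ^ 8)⁻¹ := by
    have h4 : ‖z‖ ^ (n - 1) ≤ ρ ^ (n - 1) := pow_le_pow_left₀ (norm_nonneg _) hz _
    have h5 : ρ ^ n = ρ * ρ ^ (n - 1) := by
      rw [← pow_succ']; congr 1; omega
    have h6 : 0 ≤ ρ ^ (n - 1) := by positivity
    nlinarith
  have hi : 0 < ((n : ℝ) ^ 8)⁻¹ := by positivity
  have hU : ‖z ^ n * A.eval z‖ ≤ ((n : ℝ) ^ 8)⁻¹ * n := by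
    rw [norm_mul, norm_pow]
    exact mul_le_mul hzn hA2 (norm_nonneg _) hi.le
  have hU' : ‖(n : ℂ) * z ^ (n - 1) * A.eval z + z ^ n * (derivative A).eval z‖ ≤
      3 * (((n : ℝ) ^ 8)⁻¹ * (n * n)) := by
    have h1 : ‖(n : ℂ) * z ^ (n - 1) * A.eval z‖ ≤ n * (2 * ((n : ℝ) ^ 8)⁻¹) * n := by
      rw [norm_mul, norm_mul, norm_pow, Complex.norm_natCast]
      gcongr
    have h2 : ‖z ^ n * (derivative A).eval z‖ ≤ ((n : ℝ) ^ 8)⁻¹ * (n * n) := by
      rw [norm_mul, norm_pow]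
      gcongr
    refine (norm_add_le _ _).trans ?_
    linarith
  have hn8 : ((n : ℝ) ^ 8)⁻¹ * (n * n * (n * n)) ≤ 1 / 81 := by
    have : ((n : ℝ) ^ 8)⁻¹ * (n * n * (n * n)) = 1 / n ^ 4 := by field_simp
    rw [this]
    apply one_div_le_one_div_of_le (by norm_num)
    calc (81 : ℝ) = 3 ^ 4 := by norm_num
      _ ≤ n ^ 4 := pow_le_pow_left₀ (by norm_num) h3 4
  have hU1 : ‖z ^ n * A.eval z‖ ≤ 1 := by
    refine hU.trans ?_
    have : ((n : ℝ) ^ 8)⁻¹ * n ≤ ((n : ℝ) ^ 8)⁻¹ * (n * n * (n * n)) := by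
      apply mul_le_mul_of_nonneg_left _ hi.le
      have h4 : (1 : ℝ) ≤ n * n * n := by nlinarith [mul_pos h0 h0, mul_pos (mul_pos h0 h0) h0]
      nlinarith
    linarith
  have hQ1 := hQ.upper_zero hM hQ0 hU1
  have hQ2 := hQ.upper_deriv hM hU1
  constructor
  · calc ‖Q.eval (z ^ n * A.eval z)‖ ≤ (m + 1) * M * ‖z ^ n * A.eval z‖ := hQ1
      _ ≤ n * (((n : ℝ) ^ 8)⁻¹ * n) := mul_le_mul hcQ hU (norm_nonneg _) h0.le
      _ ≤ 1 / (2 * n) := by
          rw [le_div_iff₀ (by positivity)]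
          have h5 : n * (((n : ℝ) ^ 8)⁻¹ * n) * (2 * n) ≤
              ((n : ℝ) ^ 8)⁻¹ * (n * n * (n * n)) := by
            have : n * (((n : ℝ) ^ 8)⁻¹ * n) * (2 * n) = ((n : ℝ) ^ 8)⁻¹ * (n * n * (n * 2)) := by
              ring
            rw [this]
            apply mul_le_mul_of_nonneg_left _ hi.le
            have h6 : (0 : ℝ) < n * n := mul_pos h0 h0
            have h7 : (n : ℝ) * 2 ≤ n * n := by nlinarith
            nlinarith
          linarith
  · rw [norm_mul]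
    calc _ ≤ (3 * (((n : ℝ) ^ 8)⁻¹ * (n * n))) * ((m + 1) * (m * M)) :=
          mul_le_mul hU' hQ2 (norm_nonneg _) (by positivity)
      _ ≤ (3 * (((n : ℝ) ^ 8)⁻¹ * (n * n))) * (n * n) := by
          apply mul_le_mul_of_nonneg_left _ (by positivity)
          calc ((m : ℝ) + 1) * (m * M) = m * ((m + 1) * M) := by ring
            _ ≤ n * n := mul_le_mul hmn hcQ (by positivity) h0.le
      _ = 3 * (((n : ℝ) ^ 8)⁻¹ * (n * n * (n * n))) := by ring
      _ ≤ 1 / 2 := by linarith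

lemma not_bad {n : ℕ} {z : ℂ} (hz : z ∉ Bad k n A) :
    (‖z‖ ≤ 1 - eps k n ∨ 1 + eps k n ≤ ‖z‖) ∧ ∀ a ∈ A.roots, 1 / (n : ℝ) ≤ ‖z - a‖ := by
  unfold Bad at hz
  simp only [Set.mem_union, Set.mem_ofPred_eq, Set.mem_iUnion, not_or, not_and, not_lt,
    not_exists, Metric.mem_ball, dist_eq_norm, Multiset.mem_toFinset] at hz
  refine ⟨?_, fun a ha => hz.2 a ha⟩
  by_cases h1 : ‖z‖ ≤ 1 - eps k n
  · exact Or.inl h1
  · exact Or.inr (hz.1 (not_le.1 h1))

lemma esc_outer (hM : 1 ≤ M) (h : Cls k M A) (hQ : Cls m M Q) (hm : 1 ≤ m) {n : ℕ}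
    (hL : Large k m M n) {c u : ℂ}
    (hc : ‖c‖ ≤ M) (hu : 1 + eps k n / 2 ≤ ‖u‖) (ha : ∀ a ∈ A.roots, 1 / (2 * n : ℝ) ≤ ‖u - a‖) :
    Esc (F n A Q c) u := by
  have hn := hL.three
  have h0 : (0 : ℝ) < n := by positivity
  have h3 : (3 : ℝ) ≤ n := by exact_mod_cast hn
  have he0 : 0 ≤ eps k n := le_trans (by positivity) (eps_ge (k := k) hn)
  refine esc_of_far hM h hQ hm (by omega) (by positivity) hc ha ?_
  have h1 := pow_big (k := k) hn hL.eps_le
  have h2 : (1 + eps k n / 2) ^ n ≤ ‖u‖ ^ n := pow_le_pow_left₀ (by linarith) hu n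
  have h4 : (n : ℝ) ^ (2 * (k + 2)) * ((1 / (2 * n : ℝ)) ^ k / M) ≤
      ‖u‖ ^ n * ((1 / (2 * n : ℝ)) ^ k / M) :=
    mul_le_mul_of_nonneg_right (h1.trans h2) (by positivity)
  refine le_trans ?_ h4
  have h5 : (n : ℝ) ^ (2 * (k + 2)) * ((1 / (2 * n : ℝ)) ^ k / M) =
      (n / 2) ^ k * (n ^ 4 / M) := by
    rw [div_pow, div_pow, mul_pow, one_pow]
    field_simp
    ring
  rw [h5]
  have h6 : (1 : ℝ) ≤ (n / 2 : ℝ) ^ k := one_le_pow₀ (by linarith)
  have h7 : R2 M ≤ n ^ 4 / M := by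
    rw [le_div_iff₀ (by linarith)]
    have h8 := hL.esc
    have h9 : (n : ℝ) ≤ n ^ 4 := by
      calc (n : ℝ) = n ^ 1 := (pow_one _).symm
        _ ≤ n ^ 4 := pow_le_pow_right₀ (by linarith) (by norm_num)
    nlinarith
  have h10 : 0 ≤ (n : ℝ) ^ 4 / M := by positivity
  nlinarith

theorem good (hM : 1 ≤ M) (h : Cls k M A) (hQ : Cls m M Q) (hm : 1 ≤ m) (hQ0 : Q.coeff 0 = 0)
    {n : ℕ} (hL : Large k m M n) {c z : ℂ}
    (hc : ‖c‖ ≤ M) (hcB : c ∉ Bad k n A) (hzB : z ∉ Bad k n A) :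
    Esc (F n A Q c) z ∨ Att (F n A Q c) z := by
  have hn := hL.three
  have h0 : (0 : ℝ) < n := by positivity
  have h3 : (3 : ℝ) ≤ n := by exact_mod_cast hn
  have he0 : 0 ≤ eps k n := le_trans (by positivity) (eps_ge (k := k) hn)
  have he := hL.eps_le
  have heg := eps_ge (k := k) hn
  have h16 : (0 : ℝ) < 1 / n := by positivity
  have h17 : 16 / (n : ℝ) = 16 * (1 / n) := by ring
  have h18 : 1 / (2 * (n : ℝ)) = (1 / 2) * (1 / n) := by field_simp
  obtain ⟨hz1, hz2⟩ := not_bad hzB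
  obtain ⟨hc1, hc2⟩ := not_bad hcB
  rcases hz1 with hz1 | hz1
  · have hz3 : ‖z‖ ≤ 1 - eps k n / 2 := by linarith
    rcases hc1 with hc1 | hc1
    · right
      refine att_of_inner (ρ := 1 - eps k n / 2) (b := 1 / (2 * n))
        (fun w hw => (inner_small hM h hQ hQ0 hL hw).1) ?_
        (fun w hw => (inner_small hM h hQ hQ0 hL hw).2) hz3
      rw [h18]
      linarith
    · left
      apply Esc.shift
      have h5 := (inner_small hM h hQ hQ0 hL hz3).1
      rw [h18] at h5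
      have h6 : ‖(F n A Q c).eval z - c‖ ≤ 1 / 2 * (1 / n) := by
        rw [F_eval, add_sub_cancel_right]; exact h5
      refine esc_outer hM h hQ hm hL hc ?_ ?_
      · have h7 := norm_sub_norm_le c (c - (F n A Q c).eval z)
        rw [sub_sub_cancel] at h7
        rw [norm_sub_rev] at h6
        linarith
      · intro a ha
        have h8 := hc2 a ha
        have h9 := norm_sub_norm_le (c - a) (c - (F n A Q c).eval z)
        have h10 : (c - a) - (c - (F n A Q c).eval z) = (F n A Q c).eval z - a := by ring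
        rw [h10] at h9
        rw [norm_sub_rev] at h6
        rw [h18]
        linarith
  · left
    refine esc_outer hM h hQ hm hL hc (by linarith) ?_
    intro a ha
    have h8 := hz2 a ha
    rw [h18]
    linarith

/-- the critical points of `z ^ n * A z` different from `0` are the zeros of this polynomial -/
noncomputable def G (n : ℕ) (A : ℂ[X]) : ℂ[X] := C (n : ℂ) * A + X * derivative A

/-- the critical values minus `c` -/
noncomputable def W (n : ℕ) (A Q : ℂ[X]) : Finset ℂ :=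
  (insert 0 ((G n A).roots.toFinset.image fun y => y ^ n * A.eval y)).image (fun u => Q.eval u) ∪
    (derivative Q).roots.toFinset.image fun u => Q.eval u

lemma G_coeff (n : ℕ) (A : ℂ[X]) (i : ℕ) : (G n A).coeff i = ((n : ℂ) + i) * A.coeff i := by
  unfold G
  rw [coeff_add, coeff_C_mul]
  rcases i with _ | i
  · simp
  · rw [coeff_X_mul, coeff_derivative]; push_cast; ring

lemma G_ne_zero (hM : 1 ≤ M) (h : Cls k M A) {n : ℕ} (hn : 1 ≤ n) : G n A ≠ 0 := by
  intro h0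
  have h1 := G_coeff n A A.natDegree
  rw [h0, coeff_zero, ← leadingCoeff] at h1
  have h2 : A.leadingCoeff ≠ 0 := leadingCoeff_ne_zero.2 (h.ne_zero hM)
  have h3 : ((n : ℂ) + (A.natDegree : ℂ)) ≠ 0 := by
    rw [← Nat.cast_add, Nat.cast_ne_zero]; omega
  exact mul_ne_zero h3 h2 h1.symm

lemma G_natDegree (h : Cls k M A) {n : ℕ} : (G n A).natDegree ≤ k := by
  rw [natDegree_le_iff_coeff_eq_zero]
  intro i hi
  rw [G_coeff, coeff_eq_zero_of_natDegree_lt (by rw [h.deg]; exact hi), mul_zero]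

lemma card_W (h : Cls k M A) (hQ : Cls m M Q) (hm : 1 ≤ m) (n : ℕ) : (W n A Q).card ≤ k + m := by
  unfold W
  have h1 : ((insert 0 ((G n A).roots.toFinset.image fun y => y ^ n * A.eval y)).image
      (fun u => Q.eval u)).card ≤ k + 1 := by
    refine Finset.card_image_le.trans ((Finset.card_insert_le _ _).trans ?_)
    refine Nat.succ_le_succ (Finset.card_image_le.trans ?_)
    refine (Multiset.toFinset_card_le _).trans ?_
    exact (card_roots' _).trans (G_natDegree h)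
  have h2 : ((derivative Q).roots.toFinset.image fun u => Q.eval u).card ≤ m - 1 := by
    refine Finset.card_image_le.trans ((Multiset.toFinset_card_le _).trans ?_)
    refine (card_roots' _).trans ((natDegree_derivative_le Q).trans ?_)
    rw [hQ.deg]
  have h3 := Finset.card_union_le ((insert 0 ((G n A).roots.toFinset.image
    fun y => y ^ n * A.eval y)).image (fun u => Q.eval u))
    ((derivative Q).roots.toFinset.image fun u => Q.eval u)
  omega

lemma zero_mem_W (hQ0 : Q.coeff 0 = 0) (n : ℕ) : (0 : ℂ) ∈ W n A Q := by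
  unfold W
  apply Finset.mem_union_left
  rw [Finset.mem_image]
  refine ⟨0, Finset.mem_insert_self _ _, ?_⟩
  rw [← coeff_zero_eq_eval_zero, hQ0]

lemma crit_value (hM : 1 ≤ M) (h : Cls k M A) (hQ : Cls m M Q) (hm : 1 ≤ m) {n : ℕ} (hn : 2 ≤ n)
    {c y : ℂ} (hy : (derivative (F n A Q c)).eval y = 0) :
    ∃ w ∈ W n A Q, (F n A Q c).eval y = c + w := by
  have h1 : (derivative (F n A Q c)).eval y =
      (y ^ (n - 1) * (G n A).eval y) * (derivative Q).eval (y ^ n * A.eval y) := by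
    unfold F G
    rw [derivative_add, derivative_C, add_zero, derivative_comp, derivative_mul, derivative_X_pow]
    simp only [eval_add, eval_mul, eval_C, eval_pow, eval_X, eval_comp]
    have : y ^ n = y ^ (n - 1) * y := by rw [← pow_succ]; congr 1; omega
    congr 1
    rw [this]; ring
  rw [h1, mul_eq_zero, mul_eq_zero] at hy
  rw [F_eval]
  rcases hy with (hy | hy) | hy
  · have hy0 : y = 0 := by simpa [show n - 1 ≠ 0 by omega] using hy
    refine ⟨Q.eval 0, ?_, ?_⟩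
    · unfold W
      apply Finset.mem_union_left
      exact Finset.mem_image_of_mem _ (Finset.mem_insert_self _ _)
    · rw [hy0, zero_pow (by omega), zero_mul]; ring
  · refine ⟨Q.eval (y ^ n * A.eval y), ?_, by ring⟩
    unfold W
    apply Finset.mem_union_left
    apply Finset.mem_image_of_mem
    refine Finset.mem_insert_of_mem (Finset.mem_image.2 ⟨y, ?_, rfl⟩)
    rw [Multiset.mem_toFinset, mem_roots (G_ne_zero hM h (by omega))]
    exact hy
  · refine ⟨Q.eval (y ^ n * A.eval y), ?_, by ring⟩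
    unfold W
    apply Finset.mem_union_right
    apply Finset.mem_image_of_mem
    rw [Multiset.mem_toFinset, mem_roots]
    · exact hy
    · intro h0
      have := derivative_eq_zero.1 h0
      rw [hQ.deg] at this
      omega

/-- every critical point escapes or is attracted -/
def Hyp (T : ℂ[X]) : Prop := ∀ y : ℂ, (derivative T).eval y = 0 → Esc T y ∨ Att T y

theorem hyp_of_good (hM : 1 ≤ M) (h : Cls k M A) (hQ : Cls m M Q) (hm : 1 ≤ m)
    (hQ0 : Q.coeff 0 = 0) {n : ℕ} (hL : Large k m M n) {c : ℂ}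
    (hc : ‖c‖ ≤ M) (hW : ∀ w ∈ W n A Q, c + w ∉ Bad k n A) : Hyp (F n A Q c) := by
  intro y hy
  have hn := hL.three
  obtain ⟨w, hw, hw'⟩ := crit_value hM h hQ hm (by omega) hy
  have hc0 : c ∉ Bad k n A := by
    have := hW 0 (zero_mem_W hQ0 n)
    rwa [add_zero] at this
  rcases good hM h hQ hm hQ0 hL hc hc0 (hW w hw) with h1 | h1
  · left; apply Esc.shift; rw [hw']; exact h1
  · right; apply Att.shift; rw [hw']; exact h1

end Pool.Agent.H113R3.DH
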