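import Mathlib
import Pool.Agent.H113R3.DH.Crit

/-!
# Polynomials `Q (z ^ n * A z) + c`: area of the non-hyperbolic parameters and coarse density
-/

set_option autoImplicit false

open Polynomial Filter Topology MeasureTheory

namespace Pool.Agent.H113R3.DH

variable {k m : ℕ} {M : ℝ} {A Q : ℂ[X]}

lemma vol_annulus {e : ℝ} (he0 : 0 < e) (he : e ≤ 1 / 2) :
    volume {z : ℂ | 1 - e < ‖z‖ ∧ ‖z‖ < 1 + e} ≤ ENNReal.ofReal (4 * Real.pi * e) := by
  have hsub : {z : ℂ | 1 - e < ‖z‖ ∧ ‖z‖ < 1 + e} ⊆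
      Metric.ball (0 : ℂ) (1 + e) \ Metric.closedBall 0 (1 - e) := by
    rintro z ⟨h1, h2⟩
    refine ⟨mem_ball_zero_iff.2 h2, ?_⟩
    rw [mem_closedBall_zero_iff, not_le]; exact h1
  refine (measure_mono hsub).trans ?_
  rw [measure_sdiff (Metric.closedBall_subset_ball (by linarith))
    Metric.isClosed_closedBall.measurableSet.nullMeasurableSet
    (isCompact_closedBall _ _).measure_lt_top.ne]
  rw [Complex.volume_ball, Complex.volume_closedBall]
  have hpi : (NNReal.pi : ENNReal) = ENNReal.ofReal Real.pi := by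
    rw [← NNReal.coe_real_pi, ENNReal.ofReal_coe_nnreal]
  rw [hpi, ← ENNReal.ofReal_pow (by linarith), ← ENNReal.ofReal_pow (by linarith),
    ← ENNReal.ofReal_mul (by positivity), ← ENNReal.ofReal_mul (by positivity),
    ← ENNReal.ofReal_sub _ (by positivity)]
  apply ENNReal.ofReal_le_ofReal
  nlinarith [Real.pi_pos]

lemma vol_Bad {n : ℕ} (h : Cls k M A) (hn : 3 ≤ n) (he : eps k n ≤ 1 / 2) :
    volume (Bad k n A) ≤ ENNReal.ofReal (4 * Real.pi * eps k n + k * (Real.pi / n ^ 2)) := by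
  have he0 : 0 < eps k n := lt_of_lt_of_le (by positivity) (eps_ge (k := k) hn)
  unfold Bad
  refine (measure_union_le _ _).trans ?_
  rw [ENNReal.ofReal_add (by positivity) (by positivity)]
  refine add_le_add (vol_annulus he0 he) ?_
  refine (measure_biUnion_finset_le _ _).trans ?_
  have hb : ∀ a ∈ A.roots.toFinset, volume (Metric.ball a (1 / (n : ℝ))) ≤
      ENNReal.ofReal (Real.pi / n ^ 2) := by
    intro a _
    rw [Complex.volume_ball]
    have hpi : (NNReal.pi : ENNReal) = ENNReal.ofReal Real.pi := by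
      rw [← NNReal.coe_real_pi, ENNReal.ofReal_coe_nnreal]
    rw [hpi, ← ENNReal.ofReal_pow (by positivity), ← ENNReal.ofReal_mul (by positivity)]
    apply ENNReal.ofReal_le_ofReal
    apply le_of_eq
    field_simp
  refine (Finset.sum_le_card_nsmul _ _ _ hb).trans ?_
  have hcard : A.roots.toFinset.card ≤ k :=
    (Multiset.toFinset_card_le _).trans ((card_roots' _).trans h.deg.le)
  rw [nsmul_eq_mul, ENNReal.ofReal_mul (by positivity), ENNReal.ofReal_natCast]
  gcongr

theorem vol_not_hyp (hM : 1 ≤ M) (h : Cls k M A) (hQ : Cls m M Q) (hm : 1 ≤ m)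
    (hQ0 : Q.coeff 0 = 0) {n : ℕ} (hL : Large k m M n) :
    volume {c : ℂ | ‖c‖ ≤ M ∧ ¬ Hyp (F n A Q c)} ≤
      ENNReal.ofReal ((k + m) * (4 * Real.pi * eps k n + k * (Real.pi / n ^ 2))) := by
  have hn := hL.three
  have he0 : 0 ≤ eps k n := le_trans (by positivity) (eps_ge (k := k) hn)
  have hsub : {c : ℂ | ‖c‖ ≤ M ∧ ¬ Hyp (F n A Q c)} ⊆
      ⋃ w ∈ W n A Q, (fun c => c + w) ⁻¹' Bad k n A := by
    rintro c ⟨hc, hc'⟩
    by_contra hcon
    apply hc'
    refine hyp_of_good hM h hQ hm hQ0 hL hc fun w hw hw' => hcon ?_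
    simp only [Set.mem_iUnion]
    exact ⟨w, hw, hw'⟩
  refine (measure_mono hsub).trans ((measure_biUnion_finset_le _ _).trans ?_)
  have hb : ∀ w ∈ W n A Q, volume ((fun c : ℂ => c + w) ⁻¹' Bad k n A) ≤
      ENNReal.ofReal (4 * Real.pi * eps k n + k * (Real.pi / n ^ 2)) := by
    intro w _
    rw [measure_preimage_add_right]
    exact vol_Bad h hn hL.eps_le
  refine (Finset.sum_le_card_nsmul _ _ _ hb).trans ?_
  rw [nsmul_eq_mul, ENNReal.ofReal_mul (by positivity)]
  have : ENNReal.ofReal ((k : ℝ) + m) = ((k + m : ℕ) : ENNReal) := by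
    rw [← Nat.cast_add, ENNReal.ofReal_natCast]
  rw [this]
  gcongr
  exact card_W h hQ hm n

/-- the grid points -/
noncomputable def gp (c : ℂ) (d : ℝ) (p : ℕ × ℕ) : ℂ := c + ⟨d * p.1, d * p.2⟩

lemma grid_annulus {q : ℂ} {e d : ℝ} {N : ℕ} (he0 : 0 < e) (hd : d = 20 * e)
    (hN : 2 * N * d ≤ 1 / 16) (he : e ≤ 1 / 16) :
    (((Finset.range N ×ˢ Finset.range N).filter
      fun p => 1 - e < ‖gp q d p‖ ∧ ‖gp q d p‖ < 1 + e)).card ≤ N := by
  have hd0 : 0 < d := by rw [hd]; linarith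
  set B := (Finset.range N ×ˢ Finset.range N).filter
      fun p => 1 - e < ‖gp q d p‖ ∧ ‖gp q d p‖ < 1 + e with hB
  rcases B.eq_empty_or_nonempty with h0 | ⟨p0, hp0⟩
  · rw [h0]; simp
  have hbd : ∀ p ∈ B, d * p.1 ≤ 1 / 32 ∧ d * p.2 ≤ 1 / 32 ∧ (0 : ℝ) ≤ d * p.1 ∧ (0 : ℝ) ≤ d * p.2 := by
    intro p hp
    rw [hB, Finset.mem_filter, Finset.mem_product, Finset.mem_range, Finset.mem_range] at hp
    have h1 : (p.1 : ℝ) ≤ N := by exact_mod_cast hp.1.1.le
    have h2 : (p.2 : ℝ) ≤ N := by exact_mod_cast hp.1.2.le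
    refine ⟨by nlinarith, by nlinarith, by positivity, by positivity⟩
  have hsq : ∀ p ∈ B, (1 - e) ^ 2 < (q.re + d * p.1) ^ 2 + (q.im + d * p.2) ^ 2 ∧
      (q.re + d * p.1) ^ 2 + (q.im + d * p.2) ^ 2 < (1 + e) ^ 2 := by
    intro p hp
    rw [hB, Finset.mem_filter] at hp
    have h1 : ‖gp q d p‖ ^ 2 = (q.re + d * p.1) ^ 2 + (q.im + d * p.2) ^ 2 := by
      rw [Complex.sq_norm, Complex.normSq_apply]
      simp [gp]; ring
    rw [← h1]
    constructor
    · exact pow_lt_pow_left₀ hp.2.1 (by linarith) two_ne_zero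
    · exact pow_lt_pow_left₀ hp.2.2 (norm_nonneg _) two_ne_zero
  have hq : 3 / 8 ≤ |q.re| ∨ 3 / 8 ≤ |q.im| := by
    by_contra hcon
    push Not at hcon
    obtain ⟨h1, h2⟩ := hcon
    obtain ⟨h3, h4, h5, h6⟩ := hbd p0 hp0
    have h7 := (hsq p0 hp0).1
    rw [abs_lt] at h1 h2
    nlinarith
  rcases hq with hq | hq
  · have hinj : Set.InjOn (fun p : ℕ × ℕ => p.2) (B : Set (ℕ × ℕ)) := by
      intro p hp p' hp' hpp
      simp only at hpp
      by_contra hne
      have hne1 : p.1 ≠ p'.1 := fun h => hne (Prod.ext h hpp)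
      have h1 := hsq p hp
      have h2 := hsq p' hp'
      rw [hpp] at h1
      obtain ⟨h3, -, h5, -⟩ := hbd p hp
      obtain ⟨h3', -, h5', -⟩ := hbd p' hp'
      have h6 : |(q.re + d * p.1) ^ 2 - (q.re + d * p'.1) ^ 2| < 4 * e := by
        rw [abs_lt]; constructor <;> nlinarith
      have h7 : (q.re + d * p.1) ^ 2 - (q.re + d * p'.1) ^ 2 =
          (d * ((p.1 : ℝ) - p'.1)) * (2 * q.re + d * p.1 + d * p'.1) := by ring
      rw [h7, abs_mul, abs_mul, abs_of_pos hd0] at h6
      have h8 : (1 : ℝ) ≤ |(p.1 : ℝ) - p'.1| := by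
        have : (1 : ℤ) ≤ |(p.1 : ℤ) - p'.1| := Int.one_le_abs (by omega)
        exact_mod_cast this
      have h9 : 1 / 2 ≤ |2 * q.re + d * p.1 + d * p'.1| := by
        rcases le_abs'.1 hq with h10 | h10
        · rw [abs_of_nonpos (by linarith)]; linarith
        · rw [abs_of_nonneg (by linarith)]; linarith
      have h10 : d * 1 * (1 / 2) ≤ d * |(p.1 : ℝ) - p'.1| * |2 * q.re + d * p.1 + d * p'.1| := by
        gcongr
      linarith
    have := Finset.card_le_card_of_injOn (t := Finset.range N) (fun p : ℕ × ℕ => p.2) (by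
      intro p hp
      have hp' : p ∈ B := hp
      rw [hB, Finset.mem_filter, Finset.mem_product] at hp'
      exact hp'.1.2) hinj
    rwa [Finset.card_range] at this
  · have hinj : Set.InjOn (fun p : ℕ × ℕ => p.1) (B : Set (ℕ × ℕ)) := by
      intro p hp p' hp' hpp
      simp only at hpp
      by_contra hne
      have hne1 : p.2 ≠ p'.2 := fun h => hne (Prod.ext hpp h)
      have h1 := hsq p hp
      have h2 := hsq p' hp'
      rw [hpp] at h1
      obtain ⟨-, h3, -, h5⟩ := hbd p hp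
      obtain ⟨-, h3', -, h5'⟩ := hbd p' hp'
      have h6 : |(q.im + d * p.2) ^ 2 - (q.im + d * p'.2) ^ 2| < 4 * e := by
        rw [abs_lt]; constructor <;> nlinarith
      have h7 : (q.im + d * p.2) ^ 2 - (q.im + d * p'.2) ^ 2 =
          (d * ((p.2 : ℝ) - p'.2)) * (2 * q.im + d * p.2 + d * p'.2) := by ring
      rw [h7, abs_mul, abs_mul, abs_of_pos hd0] at h6
      have h8 : (1 : ℝ) ≤ |(p.2 : ℝ) - p'.2| := by
        have : (1 : ℤ) ≤ |(p.2 : ℤ) - p'.2| := Int.one_le_abs (by omega)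
        exact_mod_cast this
      have h9 : 1 / 2 ≤ |2 * q.im + d * p.2 + d * p'.2| := by
        rcases le_abs'.1 hq with h10 | h10
        · rw [abs_of_nonpos (by linarith)]; linarith
        · rw [abs_of_nonneg (by linarith)]; linarith
      have h10 : d * 1 * (1 / 2) ≤ d * |(p.2 : ℝ) - p'.2| * |2 * q.im + d * p.2 + d * p'.2| := by
        gcongr
      linarith
    have := Finset.card_le_card_of_injOn (t := Finset.range N) (fun p : ℕ × ℕ => p.1) (by
      intro p hp
      have hp' : p ∈ B := hp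
      rw [hB, Finset.mem_filter, Finset.mem_product] at hp'
      exact hp'.1.1) hinj
    rwa [Finset.card_range] at this

lemma grid_ball {q a : ℂ} {r d : ℝ} {S : Finset (ℕ × ℕ)} (hd0 : 0 < d) (hr : 2 * r ≤ d) :
    (S.filter fun p => ‖gp q d p - a‖ < r).card ≤ 1 := by
  rw [Finset.card_le_one]
  intro p hp p' hp'
  rw [Finset.mem_filter] at hp hp'
  by_contra hne
  have h1 : ‖gp q d p - gp q d p'‖ < d := by
    have h2 : gp q d p - gp q d p' = (gp q d p - a) - (gp q d p' - a) := by ring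
    rw [h2]
    have := norm_sub_le (gp q d p - a) (gp q d p' - a)
    linarith [hp.2, hp'.2]
  have h3 : (gp q d p - gp q d p').re = d * ((p.1 : ℝ) - p'.1) := by simp [gp]; ring
  have h4 : (gp q d p - gp q d p').im = d * ((p.2 : ℝ) - p'.2) := by simp [gp]; ring
  by_cases h5 : p.1 = p'.1
  · have h6 : p.2 ≠ p'.2 := fun h => hne (Prod.ext h5 h)
    have h7 := Complex.abs_im_le_norm (gp q d p - gp q d p')
    rw [h4, abs_mul, abs_of_pos hd0] at h7
    have h8 : (1 : ℝ) ≤ |(p.2 : ℝ) - p'.2| := by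
      have : (1 : ℤ) ≤ |(p.2 : ℤ) - p'.2| := Int.one_le_abs (by omega)
      exact_mod_cast this
    nlinarith
  · have h7 := Complex.abs_re_le_norm (gp q d p - gp q d p')
    rw [h3, abs_mul, abs_of_pos hd0] at h7
    have h8 : (1 : ℝ) ≤ |(p.1 : ℝ) - p'.1| := by
      have : (1 : ℤ) ≤ |(p.1 : ℤ) - p'.1| := Int.one_le_abs (by omega)
      exact_mod_cast this
    nlinarith

theorem exists_good {n : ℕ} (h : Cls k M A) (hQ : Cls m M Q) (hm : 1 ≤ m) (hn : 3 ≤ n)
    (he : 2 * (2 * (k + m)) * (20 * eps k n) ≤ 1 / 16) (c : ℂ) :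
    ∃ c' : ℂ, ‖c' - c‖ ≤ 80 * (k + m) * eps k n ∧ ∀ w ∈ W n A Q, c' + w ∉ Bad k n A := by
  classical
  have he0 : 0 < eps k n := lt_of_lt_of_le (by positivity) (eps_ge (k := k) hn)
  have heg := eps_ge (k := k) hn
  have hk0 : (0 : ℝ) ≤ k := Nat.cast_nonneg k
  have hm1 : (1 : ℝ) ≤ m := by exact_mod_cast hm
  set e := eps k n with hee
  set d := 20 * e with hd
  set N := 2 * (k + m) with hN
  have hd0 : 0 < d := by rw [hd]; linarith
  have hNd : 2 * (N : ℝ) * d ≤ 1 / 16 := by rw [hN]; push_cast; exact he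
  have he1 : e ≤ 1 / 16 := by
    have : e ≤ 2 * (2 * (k + m)) * (20 * e) := by nlinarith [mul_nonneg hk0 he0.le]
    linarith
  set S := Finset.range N ×ˢ Finset.range N with hS
  set BA : ℂ → Finset (ℕ × ℕ) := fun w => S.filter
      fun p => 1 - e < ‖gp (c + w) d p‖ ∧ ‖gp (c + w) d p‖ < 1 + e with hBA
  set BB : ℂ → Finset (ℕ × ℕ) := fun w => A.roots.toFinset.biUnion fun a =>
      S.filter fun p => ‖gp (c + w) d p - a‖ < 1 / n with hBB
  have hA : ∀ w, (BA w).card ≤ N := fun w => grid_annulus he0 hd hNd he1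
  have hB : ∀ w, (BB w).card ≤ k := by
    intro w
    refine (Finset.card_biUnion_le_card_mul _ _ 1 fun a _ => grid_ball hd0 ?_).trans ?_
    · have h17 : 16 / (n : ℝ) = 16 * (1 / n) := by ring
      have : (0 : ℝ) < 1 / n := by positivity
      rw [hd]; linarith
    · rw [mul_one]
      exact (Multiset.toFinset_card_le _).trans ((card_roots' _).trans h.deg.le)
  have hU : ((W n A Q).biUnion fun w => BA w ∪ BB w).card ≤ (k + m) * (N + k) := by
    refine (Finset.card_biUnion_le_card_mul _ _ (N + k) fun w _ => ?_).trans ?_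
    · exact (Finset.card_union_le _ _).trans (add_le_add (hA w) (hB w))
    · exact Nat.mul_le_mul_right _ (card_W h hQ hm n)
  have hlt : ((W n A Q).biUnion fun w => BA w ∪ BB w).card < S.card := by
    refine lt_of_le_of_lt hU ?_
    rw [hS, Finset.card_product, Finset.card_range, hN]
    have : 0 < (k + m) * m := by positivity
    nlinarith
  obtain ⟨p, hpS, hp⟩ := Finset.exists_mem_notMem_of_card_lt_card hlt
  refine ⟨gp c d p, ?_, ?_⟩
  · have h1 : gp c d p - c = ⟨d * p.1, d * p.2⟩ := by simp [gp]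
    rw [h1]
    have h2 := Complex.norm_le_abs_re_add_abs_im ⟨d * p.1, d * p.2⟩
    simp only at h2
    rw [hS, Finset.mem_product, Finset.mem_range, Finset.mem_range] at hpS
    have h3 : (p.1 : ℝ) ≤ N := by exact_mod_cast hpS.1.le
    have h4 : (p.2 : ℝ) ≤ N := by exact_mod_cast hpS.2.le
    rw [abs_of_nonneg (by positivity), abs_of_nonneg (by positivity)] at h2
    have h5 : d * p.1 ≤ d * N := by gcongr
    have h6 : d * p.2 ≤ d * N := by gcongr
    calc _ ≤ d * N + d * N := by linarith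
      _ = 80 * (k + m) * e := by rw [hd, hN]; push_cast; ring
  · intro w hw hbad
    apply hp
    rw [Finset.mem_biUnion]
    refine ⟨w, hw, ?_⟩
    have hg : gp c d p + w = gp (c + w) d p := by unfold gp; ring
    rw [hg] at hbad
    unfold Bad at hbad
    rw [Finset.mem_union]
    rcases hbad with hb | hb
    · left
      rw [hBA]
      simp only [Finset.mem_filter]
      exact ⟨hpS, hb⟩
    · right
      simp only [Set.mem_iUnion, Metric.mem_ball, dist_eq_norm] at hb
      obtain ⟨a, ha, hb⟩ := hb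
      rw [hBB]
      simp only [Finset.mem_biUnion, Finset.mem_filter]
      exact ⟨a, ha, hpS, hb⟩

end Pool.Agent.H113R3.DH
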