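import Mathlib
import Pool.Agent.H113R3.DH.Vol

/-!
# Polynomials `P (z ^ n * A z) + t`: the uniform theorem
-/

set_option autoImplicit false

open Polynomial Filter Topology MeasureTheory

namespace Pool.Agent.H113R3.DH

variable {k m : ℕ} {M : ℝ} {A P : ℂ[X]}

lemma tendsto_eps (k : ℕ) : Tendsto (fun n : ℕ => eps k n) atTop (𝓝 0) := by
  have h1 : Tendsto (fun x : ℝ => Real.log x / x) atTop (𝓝 0) :=
    Real.isLittleO_log_id_atTop.tendsto_div_nhds_zero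
  have h2 := (h1.comp tendsto_natCast_atTop_atTop).const_mul (8 * ((k : ℝ) + 2))
  rw [mul_zero] at h2
  refine h2.congr fun n => ?_
  simp only [Function.comp, eps]
  ring

lemma eventually_large (k m : ℕ) (M : ℝ) : ∀ᶠ n : ℕ in atTop,
    Large k m M n ∧ 2 * (2 * (k + m)) * (20 * eps k n) ≤ 1 / 16 := by
  have h1 : ∀ᶠ n : ℕ in atTop, eps k n < 1 / 2 :=
    (tendsto_eps k).eventually_lt_const (by norm_num)
  have h2 : ∀ᶠ n : ℕ in atTop, 2 * (2 * ((k : ℝ) + m)) * (20 * eps k n) < 1 / 16 := by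
    have h3 : Tendsto (fun n : ℕ => 2 * (2 * ((k : ℝ) + m)) * (20 * eps k n)) atTop (𝓝 0) := by
      have := ((tendsto_eps k).const_mul 20).const_mul (2 * (2 * ((k : ℝ) + m)))
      simpa using this
    exact h3.eventually_lt_const (by norm_num)
  have h3 : ∀ B : ℝ, ∀ᶠ n : ℕ in atTop, B ≤ n := fun B =>
    tendsto_natCast_atTop_atTop.eventually_ge_atTop B
  filter_upwards [h1, h2, eventually_ge_atTop 3, h3 (M * R2 M), h3 ((k + 1) * M),
    h3 ((m + 1) * M)] with n g1 g2 g3 g4 g5 g6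
  exact ⟨⟨g3, g1.le, g4, g5, g6⟩, g2.le⟩

lemma Cls.mono {M' : ℝ} (hM : 1 ≤ M) (hMM : M ≤ M') (h : Cls k M A) : Cls k M' A :=
  ⟨h.deg, fun i => (h.coeff i).trans hMM,
    (one_div_le_one_div_of_le (by linarith) hMM).trans h.lead⟩

lemma Cls.sub_const (hM : 1 ≤ M) (hm : 1 ≤ m) (h : Cls m M P) :
    Cls m M (P - C (P.coeff 0)) ∧ (P - C (P.coeff 0)).coeff 0 = 0 := by
  have h1 : ∀ i, i ≠ 0 → (P - C (P.coeff 0)).coeff i = P.coeff i := by
    intro i hi
    rw [coeff_sub, coeff_C_of_ne_zero hi, sub_zero]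
  have h0 : (P - C (P.coeff 0)).coeff 0 = 0 := by rw [coeff_sub, coeff_C_zero, sub_self]
  have hd : (P - C (P.coeff 0)).natDegree = m := by
    rw [natDegree_sub_C, h.deg]
  refine ⟨⟨hd, fun i => ?_, ?_⟩, h0⟩
  · rcases eq_or_ne i 0 with rfl | hi
    · rw [h0, norm_zero]; linarith
    · rw [h1 i hi]; exact h.coeff i
  · rw [leadingCoeff, hd, h1 m (by omega), ← h.deg]
    exact h.lead

lemma comp_eq (n : ℕ) (A P : ℂ[X]) (t : ℂ) :
    P.comp (X ^ n * A) + C t = F n A (P - C (P.coeff 0)) (P.coeff 0 + t) := by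
  unfold F
  rw [sub_comp, C_comp, C_add]
  ring

lemma bound_eps {n : ℕ} (hn : 3 ≤ n) :
    (k + m) * (4 * Real.pi * eps k n + k * (Real.pi / n ^ 2)) ≤
      640 * (k + m) * (k + 2) * (Real.log n / n) := by
  have h0 : (0 : ℝ) < n := by positivity
  have h1 := log_ge hn
  have hk : (0 : ℝ) ≤ k := Nat.cast_nonneg k
  have hm : (0 : ℝ) ≤ m := Nat.cast_nonneg m
  have hn1 : (1 : ℝ) ≤ n := by exact_mod_cast (by omega : 1 ≤ n)
  have h2 : 1 / (n : ℝ) ^ 2 ≤ Real.log n / n := by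
    rw [div_le_div_iff₀ (by positivity) h0]
    nlinarith
  have hpi := Real.pi_lt_d2
  have hpi0 := Real.pi_pos
  set L := Real.log n / n with hL
  have hL0 : 0 ≤ L := by rw [hL]; positivity
  have h3 : eps k n = 8 * (k + 2) * L := by unfold eps; rw [hL]; ring
  have h4 : Real.pi / (n : ℝ) ^ 2 ≤ Real.pi * L := by
    calc Real.pi / (n : ℝ) ^ 2 = Real.pi * (1 / n ^ 2) := by ring
      _ ≤ Real.pi * L := by gcongr
  rw [h3]
  calc ((k : ℝ) + m) * (4 * Real.pi * (8 * (k + 2) * L) + k * (Real.pi / n ^ 2))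
      ≤ (k + m) * (4 * Real.pi * (8 * (k + 2) * L) + k * (Real.pi * L)) := by gcongr
    _ = (k + m) * L * (Real.pi * (33 * k + 64)) := by ring
    _ ≤ (k + m) * L * (640 * (k + 2)) := by
        apply mul_le_mul_of_nonneg_left _ (by positivity)
        nlinarith
    _ = _ := by ring

theorem main (k m : ℕ) (hm : 1 ≤ m) (M : ℝ) (hM : 1 ≤ M) : ∃ n₀ : ℕ, ∀ n : ℕ, n₀ ≤ n →
    ∀ A P : ℂ[X], Cls k M A → Cls m M P →
      volume {t : ℂ | ‖t‖ ≤ M ∧ ¬ Hyp (P.comp (X ^ n * A) + C t)} ≤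
        ENNReal.ofReal (640 * (k + m) * (k + 2) * (Real.log n / n)) ∧
      ∃ t : ℂ, ‖t‖ ≤ 640 * (k + m) * (k + 2) * (Real.log n / n) ∧
        Hyp (P.comp (X ^ n * A) + C t) := by
  obtain ⟨n₀, hn₀⟩ := eventually_atTop.1 (eventually_large k m (2 * M))
  refine ⟨n₀, fun n hn A P hA hP => ?_⟩
  obtain ⟨hL, he⟩ := hn₀ n hn
  have hM2 : 1 ≤ 2 * M := by linarith
  have hA2 : Cls k (2 * M) A := hA.mono hM (by linarith)
  obtain ⟨hQ, hQ0⟩ := hP.sub_const hM hm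
  have hQ2 : Cls m (2 * M) (P - C (P.coeff 0)) := hQ.mono hM (by linarith)
  have hn3 := hL.three
  constructor
  · have h1 := vol_not_hyp hM2 hA2 hQ2 hm hQ0 hL
    refine le_trans ?_ (h1.trans (ENNReal.ofReal_le_ofReal (bound_eps hn3)))
    have hsub : {t : ℂ | ‖t‖ ≤ M ∧ ¬ Hyp (P.comp (X ^ n * A) + C t)} ⊆
        (fun t : ℂ => P.coeff 0 + t) ⁻¹'
          {c : ℂ | ‖c‖ ≤ 2 * M ∧ ¬ Hyp (F n A (P - C (P.coeff 0)) c)} := by
      rintro t ⟨ht, ht'⟩
      refine ⟨?_, ?_⟩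
      · have := norm_add_le (P.coeff 0) t
        have := hP.coeff 0
        linarith
      · rw [← comp_eq]; exact ht'
    refine (measure_mono hsub).trans ?_
    rw [measure_preimage_add]
  · obtain ⟨c', h1, h2⟩ := exists_good hA2 hQ2 hm hn3 he (P.coeff 0)
    have h3 : 80 * ((k : ℝ) + m) * eps k n = 640 * (k + m) * (k + 2) * (Real.log n / n) := by
      unfold eps; ring
    have hc' : ‖c'‖ ≤ 2 * M := by
      have h4 := norm_le_norm_add_norm_sub' c' (P.coeff 0)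
      have h5 := hP.coeff 0
      have h6 : 80 * ((k : ℝ) + m) * eps k n ≤ 1 / 16 := by
        calc _ = 2 * (2 * ((k : ℝ) + m)) * (20 * eps k n) := by ring
          _ ≤ 1 / 16 := he
      linarith
    refine ⟨c' - P.coeff 0, by rw [← h3]; exact h1, ?_⟩
    rw [comp_eq, add_sub_cancel]
    exact hyp_of_good hM2 hA2 hQ2 hm hQ0 hL hc' h2

end Pool.Agent.H113R3.DH
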