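import Mathlib
import Pool.Agent.H113R3.DH.Crit

/-!
# The critical values of `z ^ n * A z` for a fixed polynomial `A` tend to `0` or to infinity
-/

set_option autoImplicit false

open Polynomial Filter Topology

namespace Pool.Agent.H113R3.DH.Pt

open Pool.Agent.H113R3.DH

lemma msum_le (s : Multiset ℂ) (f : ℂ → ℂ) {c : ℝ} (h : ∀ a ∈ s, ‖f a‖ ≤ c) :
    ‖(s.map f).sum‖ ≤ Multiset.card s * c := by
  induction s using Multiset.induction_on with
  | empty => simp
  | cons a s ih =>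
    rw [Multiset.map_cons, Multiset.sum_cons, Multiset.card_cons]
    have h1 := h a (Multiset.mem_cons_self a s)
    have h2 := ih fun b hb => h b (Multiset.mem_cons_of_mem hb)
    refine (norm_add_le _ _).trans ?_
    push_cast
    linarith

lemma exists_pos_le (T : Finset ℝ) (h : ∀ x ∈ T, 0 < x) : ∃ σ : ℝ, 0 < σ ∧ ∀ x ∈ T, σ ≤ x := by
  rcases T.eq_empty_or_nonempty with h0 | h0
  · exact ⟨1, one_pos, by simp [h0]⟩
  · exact ⟨T.min' h0, h _ (T.min'_mem h0), fun x hx => T.min'_le x hx⟩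

lemma exists_cls {A : ℂ[X]} (hA : A ≠ 0) : ∃ M : ℝ, 1 ≤ M ∧ Cls A.natDegree M A := by
  have hl : 0 < ‖A.leadingCoeff‖ := norm_pos_iff.2 (leadingCoeff_ne_zero.2 hA)
  set S : ℝ := ∑ i ∈ Finset.range (A.natDegree + 1), ‖A.coeff i‖ with hS
  have hS0 : 0 ≤ S := Finset.sum_nonneg fun i _ => norm_nonneg _
  refine ⟨1 + S + 1 / ‖A.leadingCoeff‖, ?_, rfl, fun i => ?_, ?_⟩
  · have : 0 < 1 / ‖A.leadingCoeff‖ := by positivity
    linarith
  · have h2 : 0 < 1 / ‖A.leadingCoeff‖ := by positivity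
    have h1 : ‖A.coeff i‖ ≤ S := by
      by_cases hi : i ≤ A.natDegree
      · exact Finset.single_le_sum (f := fun i => ‖A.coeff i‖) (fun i _ => norm_nonneg _)
          (Finset.mem_range.2 (Nat.lt_succ_of_le hi))
      · rw [coeff_eq_zero_of_natDegree_lt (not_le.1 hi), norm_zero]; exact hS0
    linarith
  · rw [div_le_iff₀ (by positivity)]
    have h3 : ‖A.leadingCoeff‖ * (1 / ‖A.leadingCoeff‖) = 1 := by
      rw [mul_one_div, div_self hl.ne']
    nlinarith

/-- the basic facts about a root `y` of `n A + X A'` which is not a root of `A` -/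
lemma near_root {A : ℂ[X]} {n : ℕ} (hn : 1 ≤ n) {y : ℂ} (hG : (G n A).eval y = 0)
    (hy : A.eval y ≠ 0) {σ : ℝ} (hσ : 0 < σ)
    (hsep : ∀ a ∈ A.roots, ∀ b ∈ A.roots, a ≠ b → σ ≤ ‖a - b‖) :
    ∃ a ∈ A.roots, (∀ b ∈ A.roots, ‖y - a‖ ≤ ‖y - b‖) ∧ 0 < ‖y - a‖ ∧
      n * ‖y - a‖ ≤ A.natDegree * ‖y‖ ∧
      ‖y‖ ≤ ‖y - a‖ * (n + ‖y‖ * (A.natDegree * (2 / σ))) := by
  classical
  have hs : A.Splits := IsAlgClosed.splits A
  have hcard : Multiset.card A.roots = A.natDegree := hs.natDegree_eq_card_roots.symm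
  have hn0 : (0 : ℝ) < n := by exact_mod_cast hn
  have hsum := hs.eval_derivative_eq_eval_mul_sum hy
  have hG' : (n : ℂ) * A.eval y + y * (derivative A).eval y = 0 := by
    have := hG
    unfold G at this
    simpa using this
  set Sg : ℂ := (A.roots.map fun z => 1 / (y - z)).sum with hSg
  have h1 : (n : ℂ) + y * Sg = 0 := by
    rw [hsum] at hG'
    have h2 : A.eval y * ((n : ℂ) + y * Sg) = 0 := by
      calc _ = (n : ℂ) * A.eval y + y * (A.eval y * Sg) := by ring
        _ = 0 := hG'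
    exact (mul_eq_zero.1 h2).resolve_left hy
  have hne : A.roots.toFinset.Nonempty := by
    rw [Finset.nonempty_iff_ne_empty]
    intro h0
    rw [Multiset.toFinset_eq_empty] at h0
    rw [hSg, h0] at h1
    simp at h1
    omega
  obtain ⟨a, ha, hmin⟩ := Finset.exists_min_image A.roots.toFinset (fun b => ‖y - b‖) hne
  rw [Multiset.mem_toFinset] at ha
  have hmin' : ∀ b ∈ A.roots, ‖y - a‖ ≤ ‖y - b‖ := fun b hb => hmin b (Multiset.mem_toFinset.2 hb)
  have hya : y - a ≠ 0 := by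
    intro h0
    have : y = a := sub_eq_zero.1 h0
    rw [this] at hy
    exact hy (isRoot_of_mem_roots ha)
  have hpos : 0 < ‖y - a‖ := norm_pos_iff.2 hya
  have hnS : (n : ℝ) = ‖y‖ * ‖Sg‖ := by
    have h2 : (n : ℂ) = -(y * Sg) := by linear_combination h1
    have h3 := congrArg norm h2
    rwa [Complex.norm_natCast, norm_neg, norm_mul] at h3
  refine ⟨a, ha, hmin', hpos, ?_, ?_⟩
  · have h2 : ‖Sg‖ ≤ A.natDegree * (1 / ‖y - a‖) := by
      rw [← hcard]
      refine msum_le _ _ fun b hb => ?_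
      rw [norm_div, norm_one]
      exact one_div_le_one_div_of_le hpos (hmin' b hb)
    calc n * ‖y - a‖ = ‖y‖ * ‖Sg‖ * ‖y - a‖ := by rw [← hnS]
      _ ≤ ‖y‖ * (A.natDegree * (1 / ‖y - a‖)) * ‖y - a‖ := by gcongr
      _ = A.natDegree * ‖y‖ := by field_simp
  · -- separate the root `a`
    have hsplit := Multiset.filter_add_not (fun b => b = a) A.roots
    have h3 : Sg = (Multiset.count a A.roots : ℂ) * (1 / (y - a)) +
        ((A.roots.filter fun b => ¬ b = a).map fun z => 1 / (y - z)).sum := by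
      rw [hSg]
      conv_lhs => rw [← hsplit]
      rw [Multiset.map_add, Multiset.sum_add, Multiset.filter_eq', Multiset.map_replicate,
        Multiset.sum_replicate, nsmul_eq_mul]
    set T : ℂ := ((A.roots.filter fun b => ¬ b = a).map fun z => 1 / (y - z)).sum with hT
    have h4 : ‖T‖ ≤ A.natDegree * (2 / σ) := by
      have h5 : ‖T‖ ≤ Multiset.card (A.roots.filter fun b => ¬ b = a) * (2 / σ) := by
        refine msum_le _ _ fun b hb => ?_
        rw [Multiset.mem_filter] at hb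
        rw [norm_div, norm_one]
        have h6 := hsep a ha b hb.1 (fun h => hb.2 h.symm)
        have h7 : ‖a - b‖ ≤ ‖y - a‖ + ‖y - b‖ := by
          have : a - b = (y - b) - (y - a) := by ring
          rw [this]
          have := norm_sub_le (y - b) (y - a)
          linarith
        have h8 := hmin' b hb.1
        have h9 : σ / 2 ≤ ‖y - b‖ := by linarith
        calc 1 / ‖y - b‖ ≤ 1 / (σ / 2) := one_div_le_one_div_of_le (by positivity) h9
          _ = 2 / σ := by field_simp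
      refine h5.trans ?_
      rw [← hcard]
      gcongr
      exact Multiset.filter_le _ _
    have hcnt : (1 : ℝ) ≤ Multiset.count a A.roots := by
      exact_mod_cast Multiset.one_le_count_iff_mem.2 ha
    have h10 : y * ((Multiset.count a A.roots : ℂ) * (1 / (y - a))) = -(n + y * T) := by
      rw [h3] at h1
      linear_combination h1
    have h11 := congrArg norm h10
    rw [norm_neg, norm_mul, norm_mul, Complex.norm_natCast, norm_div, norm_one] at h11
    have h12 : ‖(n : ℂ) + y * T‖ ≤ n + ‖y‖ * (A.natDegree * (2 / σ)) := by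
      refine (norm_add_le _ _).trans ?_
      rw [Complex.norm_natCast, norm_mul]
      gcongr
    have h13 : ‖y‖ * (1 * (1 / ‖y - a‖)) ≤
        ‖y‖ * ((Multiset.count a A.roots : ℝ) * (1 / ‖y - a‖)) := by gcongr
    have h14 : ‖y‖ * (1 * (1 / ‖y - a‖)) ≤ n + ‖y‖ * (A.natDegree * (2 / σ)) :=
      h13.trans (h11.le.trans h12)
    calc ‖y‖ = ‖y - a‖ * (‖y‖ * (1 * (1 / ‖y - a‖))) := by field_simp
      _ ≤ _ := by gcongr

theorem dich {A : ℂ[X]} (hA : A ≠ 0) {δ : ℝ} (hδ : 0 < δ) (Rr : ℝ) :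
    ∀ᶠ n : ℕ in atTop, ∀ y : ℂ, (G n A).eval y = 0 →
      ‖y ^ n * A.eval y‖ ≤ δ ∨ Rr ≤ ‖y ^ n * A.eval y‖ := by
  classical
  obtain ⟨M, hM, hC⟩ := exists_cls hA
  set k := A.natDegree with hk
  have hM0 : 0 < M := by linarith
  set ρ : ℝ := M ^ 2 + 1 with hρ
  have hρ1 : 1 ≤ ρ := by rw [hρ]; nlinarith
  have hroot : ∀ a ∈ A.roots, ‖a‖ ≤ ρ := fun a ha => hC.root_lt hM ha
  -- separation of the roots
  obtain ⟨σ, hσ, hσ'⟩ := exists_pos_le (((A.roots.toFinset ×ˢ A.roots.toFinset).filter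
    fun p => p.1 ≠ p.2).image fun p => ‖p.1 - p.2‖) (by
      intro x hx
      obtain ⟨p, hp, rfl⟩ := Finset.mem_image.1 hx
      rw [Finset.mem_filter] at hp
      exact norm_pos_iff.2 (sub_ne_zero.2 hp.2))
  have hsep : ∀ a ∈ A.roots, ∀ b ∈ A.roots, a ≠ b → σ ≤ ‖a - b‖ := by
    intro a ha b hb hab
    apply hσ'
    refine Finset.mem_image.2 ⟨(a, b), ?_, rfl⟩
    rw [Finset.mem_filter, Finset.mem_product, Multiset.mem_toFinset, Multiset.mem_toFinset]
    exact ⟨⟨ha, hb⟩, hab⟩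
  -- the gap outside the unit circle
  obtain ⟨τ, hτ, hτ'⟩ := exists_pos_le ((A.roots.toFinset.filter
    fun a => 1 < ‖a‖).image fun a => ‖a‖ - 1) (by
      intro x hx
      obtain ⟨a, ha, rfl⟩ := Finset.mem_image.1 hx
      rw [Finset.mem_filter] at ha
      linarith [ha.2])
  have hgap : ∀ a ∈ A.roots, 1 < ‖a‖ → 1 + τ ≤ ‖a‖ := by
    intro a ha h1
    have := hτ' (‖a‖ - 1) (Finset.mem_image.2 ⟨a, Finset.mem_filter.2
      ⟨Multiset.mem_toFinset.2 ha, h1⟩, rfl⟩)
    linarith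
  -- bound for the derivative
  obtain ⟨C1, hC1⟩ := (isCompact_closedBall (0 : ℂ) (2 * ρ)).exists_bound_of_continuousOn
    (f := fun z => (derivative A).eval z) (derivative A).continuous.continuousOn
  have hC10 : 0 ≤ C1 := (norm_nonneg _).trans (hC1 0 (by simp; linarith))
  have hk0 : (0 : ℝ) ≤ k := Nat.cast_nonneg k
  -- large `n`
  have h3 : ∀ B : ℝ, ∀ᶠ n : ℕ in atTop, B ≤ n := fun B =>
    tendsto_natCast_atTop_atTop.eventually_ge_atTop B
  have hβ : 1 < 1 + τ / 2 := by linarith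
  have h4 : ∀ᶠ n : ℕ in atTop, (n : ℝ) ^ k / (1 + τ / 2) ^ n < 1 / (4 ^ k * M * (|Rr| + 1)) := by
    have := tendsto_pow_const_div_const_pow_of_one_lt k hβ
    exact this.eventually_lt_const (by positivity)
  filter_upwards [eventually_ge_atTop 1, h3 (2 * k), h3 (4 * ρ * k / τ),
    h3 (2 * (Real.exp (2 * k) * C1) / δ), h3 (2 * ρ * (k * (2 / σ))), h4] with n g1 g2 g3 g4 g5 g6
  intro y hG
  have hn0 : (0 : ℝ) < n := by exact_mod_cast g1
  by_cases hy : A.eval y = 0
  · left; rw [hy, mul_zero, norm_zero]; exact hδ.le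
  obtain ⟨a, ha, hmin, hpos, hnear, hfar⟩ := near_root g1 hG hy hσ hsep
  rw [← hk] at hnear hfar
  -- `|y| ≤ 2 |a|`
  have hy2 : ‖y‖ ≤ 2 * ‖a‖ := by
    have h5 : ‖y‖ ≤ ‖y - a‖ + ‖a‖ := by
      have := norm_add_le (y - a) a
      rwa [sub_add_cancel] at this
    have h6 : 2 * k * ‖y - a‖ ≤ k * ‖y‖ := (mul_le_mul_of_nonneg_right g2 hpos.le).trans hnear
    rcases eq_or_lt_of_le hk0 with h7 | h7
    · rw [← h7, zero_mul] at hnear
      nlinarith [mul_pos hn0 hpos]
    · have h8 : 2 * ‖y - a‖ ≤ ‖y‖ := by nlinarith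
      linarith
  have haρ := hroot a ha
  have hyρ : ‖y‖ ≤ 2 * ρ := by linarith
  have hnear' : ‖y - a‖ ≤ k * ‖y‖ / n := by
    rw [le_div_iff₀ hn0]; linarith
  by_cases ha1 : ‖a‖ ≤ 1
  · -- near the closed unit disc
    left
    have h5 : ‖y‖ ≤ 1 + 2 * k / n := by
      have h6 : ‖y‖ ≤ ‖y - a‖ + ‖a‖ := by
        have := norm_add_le (y - a) a
        rwa [sub_add_cancel] at this
      have h7 : (k : ℝ) * ‖y‖ / n ≤ 2 * k / n := by
        apply div_le_div_of_nonneg_right _ hn0.le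
        nlinarith
      linarith
    have h6 : ‖y‖ ^ n ≤ Real.exp (2 * k) := by
      calc ‖y‖ ^ n ≤ (1 + 2 * k / n) ^ n := pow_le_pow_left₀ (norm_nonneg _) h5 n
        _ ≤ Real.exp (2 * k / n) ^ n := by
            apply pow_le_pow_left₀ (by positivity)
            have := Real.add_one_le_exp (2 * (k : ℝ) / n)
            linarith
        _ = Real.exp (2 * k) := by
            rw [← Real.exp_nat_mul]; congr 1; field_simp
    have h7 : n * ‖A.eval y‖ ≤ 2 * C1 := by
      have h8 : (n : ℂ) * A.eval y = -(y * (derivative A).eval y) := by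
        have := hG
        unfold G at this
        simp only [eval_add, eval_mul, eval_C, eval_X] at this
        linear_combination this
      have h9 := congrArg norm h8
      rw [norm_neg, norm_mul, norm_mul, Complex.norm_natCast] at h9
      rw [h9]
      have h10 := hC1 y (by rw [mem_closedBall_zero_iff]; exact hyρ)
      have h11 : ‖y‖ ≤ 2 := by linarith
      exact mul_le_mul h11 h10 (norm_nonneg _) (by norm_num)
    rw [norm_mul, norm_pow]
    have h8 : ‖A.eval y‖ ≤ 2 * C1 / n := by rw [le_div_iff₀ hn0]; linarith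
    calc ‖y‖ ^ n * ‖A.eval y‖ ≤ Real.exp (2 * k) * (2 * C1 / n) := by gcongr
      _ = (2 * (Real.exp (2 * k) * C1)) / n := by ring
      _ ≤ δ := by
          rw [div_le_iff₀ hn0]
          rw [div_le_iff₀ hδ] at g4
          linarith
  · -- outside
    right
    push Not at ha1
    have ha2 := hgap a ha ha1
    have h5 : 1 + τ / 2 ≤ ‖y‖ := by
      have h6 : ‖a‖ ≤ ‖y - a‖ + ‖y‖ := by
        have := norm_sub_le y (y - a)
        rw [sub_sub_cancel] at this
        linarith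
      have h7 : (k : ℝ) * ‖y‖ / n ≤ τ / 2 := by
        rw [div_le_iff₀ hn0]
        rw [div_le_iff₀ hτ] at g3
        nlinarith
      linarith
    have hy1 : 1 ≤ ‖y‖ := by linarith
    have h6 : 1 / (2 * n : ℝ) ≤ ‖y - a‖ / 1 := by
      have h7 : ‖y‖ * (k * (2 / σ)) ≤ n := by
        have : ‖y‖ * (k * (2 / σ)) ≤ 2 * ρ * (k * (2 / σ)) :=
          mul_le_mul_of_nonneg_right hyρ (by positivity)
        linarith
      have h8 : 1 ≤ ‖y - a‖ * (2 * n) := by
        calc (1 : ℝ) ≤ ‖y‖ := hy1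
          _ ≤ ‖y - a‖ * (n + ‖y‖ * (k * (2 / σ))) := hfar
          _ ≤ ‖y - a‖ * (2 * n) := by
              apply mul_le_mul_of_nonneg_left _ hpos.le
              linarith
      rw [div_one, div_le_iff₀ (by positivity)]
      exact h8
    rw [div_one] at h6
    have h7 := hC.lower hM (z := y) (r := 1 / (2 * n : ℝ)) (by positivity)
      (fun b hb => h6.trans (hmin b hb))
    rw [norm_mul, norm_pow]
    have h8 : (1 + τ / 2) ^ n ≤ ‖y‖ ^ n := pow_le_pow_left₀ (by linarith) h5 n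
    have h9 : (1 + τ / 2) ^ n * ((1 / (2 * n : ℝ)) ^ k / M) ≤ ‖y‖ ^ n * ‖A.eval y‖ :=
      mul_le_mul h8 h7 (by positivity) (by positivity)
    refine le_trans ?_ h9
    rw [div_lt_div_iff₀ (by positivity) (by positivity)] at g6
    have h10 : (1 + τ / 2) ^ n * ((1 / (2 * n : ℝ)) ^ k / M) =
        (1 + τ / 2) ^ n / (2 ^ k * n ^ k * M) := by
      rw [div_pow, one_pow, mul_pow]; field_simp
    rw [h10, le_div_iff₀ (by positivity)]
    have h11 : Rr ≤ |Rr| + 1 := by linarith [le_abs_self Rr]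
    have h12 : (2 : ℝ) ^ k ≤ 4 ^ k := pow_le_pow_left₀ (by norm_num) (by norm_num) k
    calc Rr * (2 ^ k * n ^ k * M) ≤ (|Rr| + 1) * (4 ^ k * n ^ k * M) := by
          apply mul_le_mul h11 _ (by positivity) (by positivity)
          gcongr
      _ = n ^ k * (4 ^ k * M * (|Rr| + 1)) := by ring
      _ ≤ (1 + τ / 2) ^ n := by linarith

end Pool.Agent.H113R3.DH.Pt
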