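import Mathlib
import Pool.Agent.H113R3.DH.PtA
import Pool.Agent.H113R3.DH.Final

/-!
# `P (z ^ n * A z) + t` is hyperbolic for all large `n`, for fixed `P`, `A`, `t`
-/

set_option autoImplicit false

open Polynomial Filter Topology

namespace Pool.Agent.H113R3.DH.Pt

open Pool.Agent.H113R3.DH

variable {k m : ℕ} {M : ℝ} {A Q P : ℂ[X]}

/-- good points -/
def Gd (k n : ℕ) (A : ℂ[X]) (z : ℂ) : Prop :=
  ‖z‖ ≤ 1 - eps k n ∨ (1 + eps k n ≤ ‖z‖ ∧ ∀ a ∈ A.roots, 1 / (n : ℝ) ≤ ‖z - a‖)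

theorem good' (hM : 1 ≤ M) (h : Cls k M A) (hQ : Cls m M Q) (hm : 1 ≤ m) (hQ0 : Q.coeff 0 = 0)
    {n : ℕ} (hL : Large k m M n) {c z : ℂ}
    (hc : ‖c‖ ≤ M) (hcB : Gd k n A c) (hzB : Gd k n A z) :
    Esc (F n A Q c) z ∨ Att (F n A Q c) z := by
  have hn := hL.three
  have h0 : (0 : ℝ) < n := by positivity
  have h3 : (3 : ℝ) ≤ n := by exact_mod_cast hn
  have he0 : 0 ≤ eps k n := le_trans (by positivity) (eps_ge (k := k) hn)
  have he := hL.eps_le
  have heg := eps_ge (k := k) hn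
  have h16 : (0 : ℝ) < 1 / n := by positivity
  have h17 : 16 / (n : ℝ) = 16 * (1 / n) := by ring
  have h18 : 1 / (2 * (n : ℝ)) = (1 / 2) * (1 / n) := by field_simp
  rcases hzB with hz1 | ⟨hz1, hz2⟩
  · have hz3 : ‖z‖ ≤ 1 - eps k n / 2 := by linarith
    rcases hcB with hc1 | ⟨hc1, hc2⟩
    · right
      refine att_of_inner (ρ := 1 - eps k n / 2) (b := 1 / (2 * n))
        (fun w hw => (inner_small hM h hQ hQ0 hL hw).1) ?_
        (fun w hw => (inner_small hM h hQ hQ0 hL hw).2) hz3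
      rw [h18]
      linarith
    · left
      apply Esc.shift
      have h5 := (inner_small hM h hQ hQ0 hL hz3).1
      rw [h18] at h5
      have h6 : ‖(F n A Q c).eval z - c‖ ≤ 1 / 2 * (1 / n) := by
        rw [F_eval, add_sub_cancel_right]; exact h5
      refine esc_outer hM h hQ hm hL hc ?_ ?_
      · have h7 := norm_sub_norm_le c (c - (F n A Q c).eval z)
        rw [sub_sub_cancel] at h7
        rw [norm_sub_rev] at h6
        linarith
      · intro a ha
        have h8 := hc2 a ha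
        have h9 := norm_sub_norm_le (c - a) (c - (F n A Q c).eval z)
        have h10 : (c - a) - (c - (F n A Q c).eval z) = (F n A Q c).eval z - a := by ring
        rw [h10] at h9
        rw [norm_sub_rev] at h6
        rw [h18]
        linarith
  · left
    refine esc_outer hM h hQ hm hL hc (by linarith) ?_
    intro a ha
    have h8 := hz2 a ha
    rw [h18]
    linarith

theorem hyp_of_good' (hM : 1 ≤ M) (h : Cls k M A) (hQ : Cls m M Q) (hm : 1 ≤ m)
    (hQ0 : Q.coeff 0 = 0) {n : ℕ} (hL : Large k m M n) {c : ℂ}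
    (hc : ‖c‖ ≤ M) (hW : ∀ w ∈ W n A Q, Gd k n A (c + w)) : Hyp (F n A Q c) := by
  intro y hy
  have hn := hL.three
  obtain ⟨w, hw, hw'⟩ := crit_value hM h hQ hm (by omega) hy
  have hc0 : Gd k n A c := by
    have := hW 0 (zero_mem_W hQ0 n)
    rwa [add_zero] at this
  rcases good' hM h hQ hm hQ0 hL hc hc0 (hW w hw) with h1 | h1
  · left; apply Esc.shift; rw [hw']; exact h1
  · right; apply Att.shift; rw [hw']; exact h1

/-- a fixed good point and its neighbourhood -/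
lemma near_good (k : ℕ) {A : ℂ[X]} {s : ℂ} (hs : ‖s‖ < 1 ∨ (1 < ‖s‖ ∧ A.eval s ≠ 0)) :
    ∃ δ : ℝ, 0 < δ ∧ ∀ᶠ n : ℕ in atTop, ∀ z : ℂ, ‖z - s‖ ≤ δ → Gd k n A z := by
  classical
  have he := tendsto_eps k
  rcases hs with hs | ⟨hs, hA⟩
  · refine ⟨(1 - ‖s‖) / 2, by linarith, ?_⟩
    filter_upwards [he.eventually_lt_const (show (0 : ℝ) < (1 - ‖s‖) / 2 by linarith)] with n hn
    intro z hz
    left
    have := norm_sub_norm_le z s
    linarith
  · obtain ⟨σ, hσ, hσ'⟩ := exists_pos_le (A.roots.toFinset.image fun a => ‖s - a‖) (by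
      intro x hx
      obtain ⟨a, ha, rfl⟩ := Finset.mem_image.1 hx
      rw [Multiset.mem_toFinset] at ha
      rw [norm_pos_iff, sub_ne_zero]
      rintro rfl
      exact hA (isRoot_of_mem_roots ha))
    have h1 : Tendsto (fun n : ℕ => 1 / (n : ℝ)) atTop (𝓝 0) := tendsto_one_div_atTop_nhds_zero_nat
    refine ⟨min ((‖s‖ - 1) / 2) (σ / 2), lt_min (by linarith) (by linarith), ?_⟩
    filter_upwards [he.eventually_lt_const (show (0 : ℝ) < (‖s‖ - 1) / 2 by linarith),
      h1.eventually_lt_const (show (0 : ℝ) < σ / 2 by linarith)] with n hn hn'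
    intro z hz
    right
    have hz1 : ‖z - s‖ ≤ (‖s‖ - 1) / 2 := hz.trans (min_le_left _ _)
    have hz2 : ‖z - s‖ ≤ σ / 2 := hz.trans (min_le_right _ _)
    refine ⟨?_, fun a ha => ?_⟩
    · have := norm_sub_norm_le s z
      rw [norm_sub_rev] at this
      linarith
    · have h2 := hσ' _ (Finset.mem_image.2 ⟨a, Multiset.mem_toFinset.2 ha, rfl⟩)
      have h3 := norm_sub_norm_le (s - a) (s - z)
      rw [sub_sub_sub_cancel_left, norm_sub_rev s z] at h3
      linarith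

lemma far_good (k : ℕ) {A : ℂ[X]} (hA : A ≠ 0) :
    ∃ Rr : ℝ, ∀ᶠ n : ℕ in atTop, ∀ z : ℂ, Rr ≤ ‖z‖ → Gd k n A z := by
  obtain ⟨M, hM, hC⟩ := exists_cls hA
  have he := tendsto_eps k
  have h1 : Tendsto (fun n : ℕ => 1 / (n : ℝ)) atTop (𝓝 0) := tendsto_one_div_atTop_nhds_zero_nat
  refine ⟨M ^ 2 + 3, ?_⟩
  filter_upwards [he.eventually_lt_const (show (0 : ℝ) < 1 by norm_num),
    h1.eventually_lt_const (show (0 : ℝ) < 1 by norm_num)] with n hn hn'
  intro z hz
  right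
  refine ⟨by nlinarith, fun a ha => ?_⟩
  have h2 := hC.root_lt hM ha
  have h3 := norm_sub_norm_le z a
  linarith

/-- `t` is admissible: no critical value of `P`, translated by `t`, and not `P 0 + t`, is on the unit
circle or a zero of `A` outside it -/
def Adm (A P : ℂ[X]) (t : ℂ) : Prop :=
  ∀ v : ℂ, (v = P.eval 0 ∨ ∃ ξ : ℂ, (derivative P).eval ξ = 0 ∧ v = P.eval ξ) →
    ‖v + t‖ < 1 ∨ (1 < ‖v + t‖ ∧ A.eval (v + t) ≠ 0)

theorem eventually_hyp (hA : A ≠ 0) (hP : 1 ≤ P.natDegree) {t : ℂ} (ht : Adm A P t) :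
    ∀ᶠ n : ℕ in atTop, Hyp (P.comp (X ^ n * A) + C t) := by
  classical
  have hP0 : P ≠ 0 := by rintro rfl; simp at hP
  obtain ⟨M1, hM1, hC1⟩ := exists_cls hA
  obtain ⟨M2, hM2, hC2⟩ := exists_cls hP0
  set c : ℂ := P.coeff 0 + t with hc
  set M : ℝ := M1 + M2 + ‖c‖ with hMdef
  have hc0 := norm_nonneg c
  have hM : 1 ≤ M := by rw [hMdef]; linarith
  have hAc : Cls A.natDegree M A := hC1.mono hM1 (by linarith)
  have hPc : Cls P.natDegree M P := hC2.mono hM2 (by linarith)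
  obtain ⟨hQ, hQ0⟩ := hPc.sub_const hM hP
  set Q := P - C (P.coeff 0) with hQdef
  set k := A.natDegree with hk
  set m := P.natDegree with hm
  have hQP : ∀ u : ℂ, c + Q.eval u = P.eval u + t := by
    intro u; rw [hQdef, hc]; simp; ring
  have hdQ : derivative Q = derivative P := by rw [hQdef]; simp
  -- the centre
  have hcen : ‖c‖ < 1 ∨ (1 < ‖c‖ ∧ A.eval c ≠ 0) := by
    have := ht (P.eval 0) (Or.inl rfl)
    rw [← coeff_zero_eq_eval_zero] at this
    exact this
  obtain ⟨δ, hδ, hnear⟩ := near_good k hcen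
  obtain ⟨Rr, hfar⟩ := far_good k hA
  -- small and large values of `u`
  obtain ⟨δ', hδ', hsmall⟩ : ∃ δ' : ℝ, 0 < δ' ∧ ∀ u : ℂ, ‖u‖ ≤ δ' → ‖Q.eval u‖ ≤ δ := by
    have h1 : ContinuousAt (fun u : ℂ => Q.eval u) 0 := Q.continuous.continuousAt
    rw [Metric.continuousAt_iff] at h1
    obtain ⟨ε', hε', h2⟩ := h1 δ hδ
    refine ⟨ε' / 2, by positivity, fun u hu => ?_⟩
    have h3 := h2 (x := u) (by rw [dist_zero_right]; linarith)
    rw [← coeff_zero_eq_eval_zero, hQ0, dist_zero_right] at h3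
    exact h3.le
  obtain ⟨R', hlarge⟩ : ∃ R' : ℝ, ∀ u : ℂ, R' ≤ ‖u‖ → Rr ≤ ‖c + Q.eval u‖ := by
    have hdeg : 0 < degree (C c + Q) := by
      rw [← natDegree_pos_iff_degree_pos]
      rw [natDegree_C_add, hQ.deg]; omega
    have h1 := (C c + Q).tendsto_norm_atTop hdeg (tendsto_norm_cocompact_atTop (E := ℂ))
    have h2 := h1.eventually_ge_atTop Rr
    rw [← Metric.cobounded_eq_cocompact, ← comap_norm_atTop, eventually_comap] at h2
    obtain ⟨R', hR'⟩ := eventually_atTop.1 h2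
    refine ⟨R', fun u hu => ?_⟩
    have := hR' ‖u‖ hu u rfl
    simpa using this
  -- the fixed critical values
  have hfix : ∀ᶠ n : ℕ in atTop, ∀ ξ ∈ (derivative Q).roots.toFinset, Gd k n A (P.eval ξ + t) := by
    rw [Finset.eventually_all]
    intro ξ hξ
    rw [Multiset.mem_toFinset] at hξ
    have hroot : (derivative P).eval ξ = 0 := by
      have := isRoot_of_mem_roots hξ
      rw [hdQ] at this
      exact this
    obtain ⟨δ'', hδ'', h1⟩ := near_good k (ht (P.eval ξ) (Or.inr ⟨ξ, hroot, rfl⟩))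
    filter_upwards [h1] with n hn
    exact hn _ (by simpa using hδ''.le)
  filter_upwards [eventually_large k m M, hnear, hfar, dich hA hδ' R', hfix] with
    n hL g1 g2 g3 g4
  rw [comp_eq]
  refine hyp_of_good' hM hAc hQ hP hQ0 hL.1 (by rw [hMdef]; linarith) ?_
  have hcG : Gd k n A c := g1 c (by simpa using hδ.le)
  intro w hw
  unfold W at hw
  rw [Finset.mem_union] at hw
  rcases hw with hw | hw
  · obtain ⟨u, hu, rfl⟩ := Finset.mem_image.1 hw
    rcases Finset.mem_insert.1 hu with rfl | hu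
    · rw [← coeff_zero_eq_eval_zero, hQ0, add_zero]
      exact hcG
    · obtain ⟨y, hy, rfl⟩ := Finset.mem_image.1 hu
      rw [Multiset.mem_toFinset] at hy
      rcases g3 y (isRoot_of_mem_roots hy) with h1 | h1
      · apply g1
        rw [add_sub_cancel_left]
        exact hsmall _ h1
      · exact g2 _ (hlarge _ h1)
  · obtain ⟨ξ, hξ, rfl⟩ := Finset.mem_image.1 hw
    rw [hQP]
    exact g4 ξ hξ

end Pool.Agent.H113R3.DH.Pt
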