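import Mathlib
import Pool.Agent.H113R3.DH.PtB
import Pool.Agent.H462R2.AP4

/-!
# Tools for the density statement
-/

set_option autoImplicit false

open Polynomial Filter Topology Set

namespace Pool.Agent.H113R3.DH.Pt

open Pool.Agent.H113R3.DH

theorem circle_infinite : ({u : ℂ | ‖u‖ = 1} : Set ℂ).Infinite := by
  have h1 : IsPreconnected (Metric.sphere (0 : ℂ) 1) := by
    apply isPreconnected_sphere
    rw [Complex.rank_real_complex]
    exact_mod_cast Nat.one_lt_two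
  have h2 : (Metric.sphere (0 : ℂ) 1).Infinite := by
    apply h1.infinite_of_nontrivial
    refine ⟨1, by simp, -1, by simp, ?_⟩
    norm_num
  refine h2.mono fun u hu => ?_
  simpa using hu

/-- a polynomial of modulus one on the unit circle is a monomial -/
theorem mono_of_circle {q : ℂ[X]} (h : ∀ u : ℂ, ‖u‖ = 1 → ‖q.eval u‖ = 1) :
    ∃ (m : ℕ) (a : ℂ), a ≠ 0 ∧ q = C a * X ^ m := by
  set D := q.natDegree with hD
  set q' : ℂ[X] := ∑ k ∈ Finset.range (D + 1), C ((starRingEnd ℂ) (q.coeff k)) * X ^ (D - k) with hq'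
  have h1 : q * q' = X ^ D := by
    apply Polynomial.eq_of_infinite_eval_eq
    refine circle_infinite.mono fun u hu => ?_
    have hu' : ‖u‖ = 1 := hu
    have h2 := Pool.Agent.H462R2.AP.conj_eval (P := q) (D := D) le_rfl hu'
    show (q * q').eval u = (X ^ D : ℂ[X]).eval u
    rw [eval_mul, hq', h2, eval_pow, eval_X]
    have h3 : q.eval u * (starRingEnd ℂ) (q.eval u) = 1 := by
      rw [Complex.mul_conj, Complex.normSq_eq_norm_sq, h u hu']; simp
    linear_combination u ^ D * h3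
  have h4 : q ∣ X ^ D := ⟨q', h1.symm⟩
  obtain ⟨i, -, hi⟩ := (dvd_prime_pow prime_X D).1 h4
  obtain ⟨v, hv⟩ := hi.symm
  obtain ⟨a, ha, hav⟩ := Polynomial.isUnit_iff.1 v.isUnit
  refine ⟨i, a, ha.ne_zero, ?_⟩
  rw [← hv, ← hav, mul_comm]

theorem circle_generic {P : ℂ[X]} (hP : 1 ≤ P.natDegree) {t a ξ s : ℂ} (ha : a ≠ 0)
    (hξ : (derivative P).eval ξ = 0) (hs : s = P.eval ξ + t) (hs1 : ‖s‖ = 1) :
    ∃ u : ℂ, ‖u‖ = 1 ∧ ‖(P.comp (C a * X) + C t).eval u‖ ≠ 1 := by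
  by_contra hcon
  push Not at hcon
  obtain ⟨m, b, hb, hq⟩ := mono_of_circle hcon
  have hdeg : (P.comp (C a * X) + C t).natDegree = P.natDegree := by
    rw [natDegree_add_C, natDegree_comp, natDegree_C_mul_X a ha, mul_one]
  have hm : m = P.natDegree := by
    rw [← hdeg, hq, natDegree_C_mul_X_pow m b hb]
  have hy : a * (ξ / a) = ξ := by field_simp
  have h1 : (P.comp (C a * X) + C t).eval (ξ / a) = s := by
    simp [eval_comp, hy, hs]
  have h2 : (derivative (P.comp (C a * X) + C t)).eval (ξ / a) = 0 := by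
    rw [derivative_add, derivative_C, add_zero, derivative_comp, eval_mul, eval_comp]
    simp [hy, hξ]
  rw [hq, derivative_C_mul_X_pow] at h2
  rw [hq] at h1
  simp only [eval_mul, eval_C, eval_pow, eval_X] at h1 h2
  have hm0 : (m : ℂ) ≠ 0 := by
    have : m ≠ 0 := by omega
    exact_mod_cast this
  have h3 : (ξ / a) ^ (m - 1) = 0 := by
    rcases mul_eq_zero.1 h2 with h | h
    · exact absurd h (mul_ne_zero hb hm0)
    · exact h
  have h5 : m - 1 ≠ 0 := by
    intro h6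
    rw [h6, pow_zero] at h3
    exact one_ne_zero h3
  have h4 : ξ / a = 0 := (pow_eq_zero_iff h5).1 h3
  rw [h4, zero_pow (by omega), mul_zero] at h1
  rw [← h1, norm_zero] at hs1
  norm_num at hs1

/-- density zero from gaps -/
theorem density_of_gaps {Bad : Set ℕ} {S E : Finset ℂ}
    (hS : ∀ s ∈ S, ‖s‖ = 1 ∧ ∀ k : ℕ, 0 < k → s ^ k ≠ 1)
    (h : ∀ δ : ℝ, 0 < δ → ∃ n₀ : ℕ, ∀ n : ℕ, n₀ ≤ n →
      (∀ s ∈ S, ∀ w ∈ E, δ ≤ ‖s ^ n - w‖) → n ∉ Bad) :
    Tendsto (fun N : ℕ => (((Bad ∩ Iio N).ncard : ℕ) : ℝ) / N) atTop (𝓝 0) := by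
  classical
  set J : Finset (ℂ × ℂ) := S ×ˢ E with hJ
  have key : ∀ L : ℕ, ∃ n₀ : ℕ, ∀ N : ℕ,
      (Bad ∩ Iio N).ncard ≤ n₀ + J.card * (N / (L + 1) + 1) := by
    intro L
    have hδ : ∃ δ : ℝ, 0 < δ ∧ ∀ s ∈ S, ∀ w : ℂ,
        ∀ n ∈ {n : ℕ | ‖s ^ n - w‖ < δ}, ∀ m ∈ {n : ℕ | ‖s ^ n - w‖ < δ},
        n < m → n + L < m := by
      have hgen : ∀ M : Finset ℂ, M ⊆ S →
          ∃ δ : ℝ, 0 < δ ∧ ∀ s ∈ M, ∀ w : ℂ,
          ∀ n ∈ {n : ℕ | ‖s ^ n - w‖ < δ}, ∀ m ∈ {n : ℕ | ‖s ^ n - w‖ < δ},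
          n < m → n + L < m := by
        intro M
        induction M using Finset.induction_on with
        | empty => exact fun _ => ⟨1, one_pos, by simp⟩
        | @insert a M _ ih =>
          intro hsub
          obtain ⟨δ, hδ, h1⟩ := ih fun x hx => hsub (Finset.mem_insert_of_mem hx)
          obtain ⟨h2, h3⟩ := hS a (hsub (Finset.mem_insert_self _ _))
          obtain ⟨δ', hδ', h4⟩ := Pool.Agent.H462R2.AP.gap_of_not_root h2 h3 L
          refine ⟨min δ δ', lt_min hδ hδ', ?_⟩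
          intro x hx w n hn m hm hnm
          rw [Set.mem_ofPred_eq] at hn hm
          rcases Finset.mem_insert.1 hx with rfl | hx
          · exact h4 w n (hn.trans_le (min_le_right _ _)) m (hm.trans_le (min_le_right _ _)) hnm
          · exact h1 x hx w n (hn.trans_le (min_le_left _ _)) m
              (hm.trans_le (min_le_left _ _)) hnm
      exact hgen _ Finset.Subset.rfl
    obtain ⟨δ, hδ0, hδ⟩ := hδ
    obtain ⟨n₀, hn₀⟩ := h δ hδ0
    refine ⟨n₀, fun N => ?_⟩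
    set T : ℂ × ℂ → Set ℕ := fun j => {n | ‖j.1 ^ n - j.2‖ < δ} with hT
    have h1 : Bad ∩ Iio N ⊆ ↑(Finset.range n₀ ∪
        J.biUnion fun j => (Finset.range N).filter (· ∈ T j)) := by
      rintro n ⟨hn1, hn2⟩
      rw [Finset.coe_union]
      rcases lt_or_ge n n₀ with h | h
      · left; simpa using h
      · right
        by_contra hcon
        refine hn₀ n h ?_ hn1
        intro s hs w hw
        by_contra hlt
        push Not at hlt
        apply hcon
        rw [Finset.mem_coe, Finset.mem_biUnion]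
        exact ⟨(s, w), Finset.mem_product.2 ⟨hs, hw⟩,
          Finset.mem_filter.2 ⟨Finset.mem_range.2 hn2, hlt⟩⟩
    have h2 : (Bad ∩ Iio N).ncard ≤ (Finset.range n₀ ∪
        J.biUnion fun j => (Finset.range N).filter (· ∈ T j)).card := by
      rw [← Set.ncard_coe_finset]
      exact Set.ncard_le_ncard h1 (Finset.finite_toSet _)
    refine h2.trans ((Finset.card_union_le _ _).trans ?_)
    rw [Finset.card_range]
    apply Nat.add_le_add_left
    apply Finset.card_biUnion_le_card_mul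
    intro j hj
    apply Pool.Agent.H462R2.AP.card_gap
    intro n hn m hm hnm
    exact hδ j.1 (Finset.mem_product.1 hj).1 j.2 n hn m hm hnm
  rw [Metric.tendsto_atTop]
  intro ε hε
  set c : ℝ := ((J.card : ℕ) : ℝ) with hcdef
  have hc0 : 0 ≤ c := Nat.cast_nonneg _
  obtain ⟨L, hL⟩ := exists_nat_gt (2 * c / ε)
  obtain ⟨n₀, hn₀⟩ := key L
  obtain ⟨N₀, hN₀⟩ := exists_nat_gt ((n₀ + c) / (ε / 2))
  refine ⟨N₀ + 1, fun N hN => ?_⟩
  have hN0 : (0:ℝ) < N := by exact_mod_cast (by omega : 0 < N)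
  rw [Real.dist_eq, sub_zero, abs_of_nonneg (by positivity), div_lt_iff₀ hN0]
  have h1 : ((Bad ∩ Iio N).ncard : ℝ) ≤ n₀ + c * ((N / (L + 1) : ℕ) + 1) := by
    rw [hcdef]
    exact_mod_cast hn₀ N
  have hL1 : (0:ℝ) < (L:ℝ) + 1 := by positivity
  have h2 : ((N / (L + 1) : ℕ) : ℝ) ≤ N / ((L:ℝ) + 1) := by
    have := Nat.cast_div_le (α := ℝ) (m := N) (n := L + 1)
    push_cast at this
    exact this
  have h3 : c * (N / ((L:ℝ) + 1)) ≤ N * (ε / 2) := by
    rw [div_lt_iff₀ hε] at hL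
    rw [mul_div_assoc', div_le_iff₀ hL1]
    nlinarith
  have h4 : (N₀:ℝ) < N := by exact_mod_cast (by omega : N₀ < N)
  have h5 : (n₀ + c : ℝ) < N * (ε / 2) := by
    rw [div_lt_iff₀ (half_pos hε)] at hN₀
    exact hN₀.trans (by gcongr)
  have h6 : c * ((N / (L + 1) : ℕ) : ℝ) ≤ c * (N / ((L:ℝ) + 1)) :=
    mul_le_mul_of_nonneg_left h2 hc0
  nlinarith

end Pool.Agent.H113R3.DH.Pt
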