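import Mathlib
import Pool.Agent.H113R3.DH.PtC

/-!
# `P (z ^ n * A z) + t`: all large `n`, and almost all `n`
-/

set_option autoImplicit false

open Polynomial Filter Topology Set

namespace Pool.Agent.H113R3.DH.Pt

open Pool.Agent.H113R3.DH

variable {k m : ℕ} {M : ℝ} {A Q P : ℂ[X]}

/-- off the unit circle and not a zero of `A` outside it -/
def Clear (A : ℂ[X]) (s : ℂ) : Prop := ‖s‖ < 1 ∨ (1 < ‖s‖ ∧ A.eval s ≠ 0)

theorem compact_good (k : ℕ) {K : Set ℂ} (hK : IsCompact K) (h : ∀ s ∈ K, Clear A s) :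
    ∀ᶠ n : ℕ in atTop, ∀ z ∈ K, Gd k n A z := by
  refine hK.induction_on (p := fun S => ∀ᶠ n : ℕ in atTop, ∀ z ∈ S, Gd k n A z) ?_ ?_ ?_ ?_
  · simp
  · intro s t hst ht
    filter_upwards [ht] with n hn z hz
    exact hn z (hst hz)
  · intro s t hs ht
    filter_upwards [hs, ht] with n h1 h2 z hz
    exact hz.elim (h1 z) (h2 z)
  · intro x hx
    obtain ⟨δ, hδ, h1⟩ := near_good k (h x hx)
    refine ⟨Metric.closedBall x δ, mem_nhdsWithin_of_mem_nhds (Metric.closedBall_mem_nhds x hδ), ?_⟩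
    filter_upwards [h1] with n hn z hz
    exact hn z (by rw [Metric.mem_closedBall, dist_eq_norm] at hz; exact hz)

theorem hyp_of_good'' (hM : 1 ≤ M) (h : Cls k M A) (hQ : Cls m M Q) (hm : 1 ≤ m)
    (hQ0 : Q.coeff 0 = 0) {n : ℕ} (hL : Large k m M n) {c : ℂ}
    (hc : ‖c‖ ≤ M) (hcG : Gd k n A c)
    (hW : ∀ w ∈ W n A Q, Gd k n A (c + w) ∨ Gd k n A ((F n A Q c).eval (c + w))) :
    Hyp (F n A Q c) := by
  intro y hy
  have hn := hL.three
  obtain ⟨w, hw, hw'⟩ := crit_value hM h hQ hm (by omega) hy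
  rcases hW w hw with h1 | h1
  · rcases good' hM h hQ hm hQ0 hL hc hcG h1 with h1 | h1
    · left; apply Esc.shift; rw [hw']; exact h1
    · right; apply Att.shift; rw [hw']; exact h1
  · rcases good' hM h hQ hm hQ0 hL hc hcG h1 with h2 | h2
    · left; apply Esc.shift; rw [hw']; apply Esc.shift; exact h2
    · right; apply Att.shift; rw [hw']; apply Att.shift; exact h2

theorem core (hA : A ≠ 0) (hP : 1 ≤ P.natDegree) {t : ℂ} (hcen : Clear A (P.eval 0 + t)) :
    ∀ᶠ n : ℕ in atTop, Gd A.natDegree n A (P.eval 0 + t) ∧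
      ((∀ ξ : ℂ, (derivative P).eval ξ = 0 → Gd A.natDegree n A (P.eval ξ + t) ∨
        Gd A.natDegree n A ((P.comp (X ^ n * A) + C t).eval (P.eval ξ + t))) →
      Hyp (P.comp (X ^ n * A) + C t)) := by
  classical
  have hP0 : P ≠ 0 := by rintro rfl; simp at hP
  obtain ⟨M1, hM1, hC1⟩ := exists_cls hA
  obtain ⟨M2, hM2, hC2⟩ := exists_cls hP0
  set c : ℂ := P.coeff 0 + t with hc
  have hcc : P.eval 0 + t = c := by rw [hc, coeff_zero_eq_eval_zero]
  rw [hcc] at hcen ⊢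
  set M : ℝ := M1 + M2 + ‖c‖ with hMdef
  have hc0 := norm_nonneg c
  have hM : 1 ≤ M := by rw [hMdef]; linarith
  have hAc : Cls A.natDegree M A := hC1.mono hM1 (by linarith)
  have hPc : Cls P.natDegree M P := hC2.mono hM2 (by linarith)
  obtain ⟨hQ, hQ0⟩ := hPc.sub_const hM hP
  set Q := P - C (P.coeff 0) with hQdef
  set k := A.natDegree with hk
  set m := P.natDegree with hm
  have hQP : ∀ u : ℂ, c + Q.eval u = P.eval u + t := by
    intro u; rw [hQdef, hc]; simp; ring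
  have hdQ : derivative Q = derivative P := by rw [hQdef]; simp
  obtain ⟨δ, hδ, hnear⟩ := near_good k hcen
  obtain ⟨Rr, hfar⟩ := far_good k hA
  obtain ⟨δ', hδ', hsmall⟩ : ∃ δ' : ℝ, 0 < δ' ∧ ∀ u : ℂ, ‖u‖ ≤ δ' → ‖Q.eval u‖ ≤ δ := by
    have h1 : ContinuousAt (fun u : ℂ => Q.eval u) 0 := Q.continuous.continuousAt
    rw [Metric.continuousAt_iff] at h1
    obtain ⟨ε', hε', h2⟩ := h1 δ hδ
    refine ⟨ε' / 2, by positivity, fun u hu => ?_⟩
    have h3 := h2 (x := u) (by rw [dist_zero_right]; linarith)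
    rw [← coeff_zero_eq_eval_zero, hQ0, dist_zero_right] at h3
    exact h3.le
  obtain ⟨R', hlarge⟩ : ∃ R' : ℝ, ∀ u : ℂ, R' ≤ ‖u‖ → Rr ≤ ‖c + Q.eval u‖ := by
    have hdeg : 0 < degree (C c + Q) := by
      rw [← natDegree_pos_iff_degree_pos]
      rw [natDegree_C_add, hQ.deg]; omega
    have h1 := (C c + Q).tendsto_norm_atTop hdeg (tendsto_norm_cocompact_atTop (E := ℂ))
    have h2 := h1.eventually_ge_atTop Rr
    rw [← Metric.cobounded_eq_cocompact, ← comap_norm_atTop, eventually_comap] at h2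
    obtain ⟨R', hR'⟩ := eventually_atTop.1 h2
    refine ⟨R', fun u hu => ?_⟩
    have := hR' ‖u‖ hu u rfl
    simpa using this
  filter_upwards [eventually_large k m M, hnear, hfar, dich hA hδ' R'] with n hL g1 g2 g3
  have hcG : Gd k n A c := g1 c (by simpa using hδ.le)
  refine ⟨hcG, fun g4 => ?_⟩
  rw [comp_eq] at g4 ⊢
  refine hyp_of_good'' hM hAc hQ hP hQ0 hL.1 (by rw [hMdef]; linarith) hcG ?_
  intro w hw
  unfold W at hw
  rw [Finset.mem_union] at hw
  rcases hw with hw | hw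
  · left
    obtain ⟨u, hu, rfl⟩ := Finset.mem_image.1 hw
    rcases Finset.mem_insert.1 hu with rfl | hu
    · rw [← coeff_zero_eq_eval_zero, hQ0, add_zero]
      exact hcG
    · obtain ⟨y, hy, rfl⟩ := Finset.mem_image.1 hu
      rw [Multiset.mem_toFinset] at hy
      rcases g3 y (isRoot_of_mem_roots hy) with h1 | h1
      · apply g1
        rw [add_sub_cancel_left]
        exact hsmall _ h1
      · exact g2 _ (hlarge _ h1)
  · obtain ⟨ξ, hξ, rfl⟩ := Finset.mem_image.1 hw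
    rw [Multiset.mem_toFinset] at hξ
    have hroot : (derivative P).eval ξ = 0 := by
      have := isRoot_of_mem_roots hξ
      rw [hdQ] at this
      exact this
    rw [hQP]
    exact g4 ξ hroot

/-- the fixed critical values off the circle, or at a zero of `A` -/
theorem fixed_values (hP : 1 ≤ P.natDegree) {t : ℂ} :
    ∀ᶠ n : ℕ in atTop, Gd A.natDegree n A (P.eval 0 + t) →
      ∀ ξ : ℂ, (derivative P).eval ξ = 0 → (‖P.eval ξ + t‖ ≠ 1 ∨ A.eval (P.eval ξ + t) = 0) →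
      Gd A.natDegree n A (P.eval ξ + t) ∨
        Gd A.natDegree n A ((P.comp (X ^ n * A) + C t).eval (P.eval ξ + t)) := by
  classical
  have hd : derivative P ≠ 0 := by
    intro h
    have := derivative_eq_zero.1 h
    omega
  have hfix : ∀ᶠ n : ℕ in atTop, ∀ ξ ∈ (derivative P).roots.toFinset,
      Clear A (P.eval ξ + t) → Gd A.natDegree n A (P.eval ξ + t) := by
    rw [Finset.eventually_all]
    intro ξ _
    by_cases h : Clear A (P.eval ξ + t)
    · obtain ⟨δ'', hδ'', h1⟩ := near_good A.natDegree h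
      filter_upwards [h1] with n hn _
      exact hn _ (by simpa using hδ''.le)
    · exact Eventually.of_forall fun n h' => absurd h' h
  filter_upwards [hfix, eventually_ge_atTop 1] with n hn hn1 hcG ξ hξ hs
  by_cases hA0 : A.eval (P.eval ξ + t) = 0
  · right
    have : (P.comp (X ^ n * A) + C t).eval (P.eval ξ + t) = P.eval 0 + t := by
      simp [eval_comp, hA0]
    rw [this]
    exact hcG
  · left
    have h1 := hs.resolve_right hA0
    refine hn ξ (by rw [Multiset.mem_toFinset, mem_roots hd]; exact hξ) ?_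
    rcases lt_or_gt_of_ne h1 with h2 | h2
    · exact Or.inl h2
    · exact Or.inr ⟨h2, hA0⟩

theorem all_large (hA : A ≠ 0) (hP : 1 ≤ P.natDegree) {t : ℂ} (hcen : Clear A (P.eval 0 + t))
    (h : ∀ ξ : ℂ, (derivative P).eval ξ = 0 → ‖P.eval ξ + t‖ ≠ 1 ∨ A.eval (P.eval ξ + t) = 0) :
    ∀ᶠ n : ℕ in atTop, Hyp (P.comp (X ^ n * A) + C t) := by
  filter_upwards [core hA hP hcen, fixed_values (A := A) hP (t := t)] with n h1 h2
  exact h1.2 fun ξ hξ => h2 h1.1 ξ hξ (h ξ hξ)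

theorem almost_all (hA : A ≠ 0) (hP : 1 ≤ P.natDegree) {t : ℂ} (hcen : Clear A (P.eval 0 + t))
    (h : ∀ ξ : ℂ, (derivative P).eval ξ = 0 → A.eval (P.eval ξ + t) = 0 ∨
      ∀ k : ℕ, 0 < k → (P.eval ξ + t) ^ k ≠ 1) :
    Tendsto (fun N : ℕ => ((({n : ℕ | ¬ Hyp (P.comp (X ^ n * A) + C t)} ∩ Iio N).ncard : ℕ) : ℝ)
      / N) atTop (𝓝 0) := by
  classical
  have hd : derivative P ≠ 0 := by
    intro h
    have := derivative_eq_zero.1 h
    omega
  set S : Finset ℂ := ((derivative P).roots.toFinset.image fun ξ => P.eval ξ + t).filter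
    fun s => ‖s‖ = 1 ∧ A.eval s ≠ 0 with hS
  have hS1 : ∀ s ∈ S, (∃ ξ : ℂ, (derivative P).eval ξ = 0 ∧ s = P.eval ξ + t) ∧ ‖s‖ = 1 ∧
      A.eval s ≠ 0 := by
    intro s hs
    rw [hS, Finset.mem_filter, Finset.mem_image] at hs
    obtain ⟨⟨ξ, hξ, rfl⟩, h1, h2⟩ := hs
    rw [Multiset.mem_toFinset] at hξ
    exact ⟨⟨ξ, isRoot_of_mem_roots hξ, rfl⟩, h1, h2⟩
  set q : ℂ → ℂ[X] := fun s => P.comp (C (A.eval s) * X) + C t with hq
  have hqdeg : ∀ s, A.eval s ≠ 0 → (q s).natDegree = P.natDegree := by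
    intro s hs
    rw [hq]
    simp only
    rw [natDegree_add_C, natDegree_comp, natDegree_C_mul_X _ hs, mul_one]
  set Es : ℂ → Set ℂ := fun s =>
    {u | ‖u‖ = 1 ∧ (‖(q s).eval u‖ = 1 ∨ A.eval ((q s).eval u) = 0)} with hEs
  have hEfin : (⋃ s ∈ S, Es s).Finite := by
    apply S.finite_toSet.biUnion
    intro s hs
    obtain ⟨⟨ξ, hξ, hsξ⟩, h1, h2⟩ := hS1 s hs
    have hfin1 : (Pool.Agent.H462R2.AP.eqSet (q s) 1).Finite := by
      apply Pool.Agent.H462R2.AP.eqSet_finite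
      obtain ⟨u, hu, hu'⟩ := circle_generic hP h2 hξ hsξ h1
      exact ⟨u, hu, by rw [eval_one, norm_one]; exact hu'⟩
    have hne : A.comp (q s) ≠ 0 := by
      intro h0
      rw [comp_eq_zero_iff] at h0
      rcases h0 with h0 | ⟨-, h0⟩
      · exact hA h0
      · have := hqdeg s h2
        rw [h0, natDegree_C] at this
        omega
    have hfin2 : {u : ℂ | A.eval ((q s).eval u) = 0}.Finite := by
      refine (A.comp (q s)).roots.toFinset.finite_toSet.subset fun u hu => ?_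
      rw [Finset.mem_coe, Multiset.mem_toFinset, mem_roots hne, IsRoot.def, eval_comp]
      exact hu
    refine (hfin1.union hfin2).subset ?_
    rintro u ⟨hu1, hu2⟩
    rcases hu2 with hu2 | hu2
    · left
      exact ⟨hu1, by rw [eval_one, norm_one]; exact hu2⟩
    · right; exact hu2
  obtain ⟨E, hE⟩ : ∃ E : Finset ℂ, ∀ s ∈ S, ∀ u ∈ Es s, u ∈ E :=
    ⟨hEfin.toFinset, fun s hs u hu => hEfin.mem_toFinset.2 (Set.mem_biUnion hs hu)⟩
  refine density_of_gaps (S := S) (E := E) ?_ ?_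
  · intro s hs
    obtain ⟨⟨ξ, hξ, hsξ⟩, h1, h2⟩ := hS1 s hs
    refine ⟨h1, ?_⟩
    rcases h ξ hξ with h3 | h3
    · rw [← hsξ] at h3; exact absurd h3 h2
    · rw [← hsξ] at h3; exact h3
  intro δ hδ
  set K : Set ℂ := {u | ‖u‖ = 1 ∧ ∀ w ∈ E, δ ≤ ‖u - w‖} with hK
  have hKc : IsCompact K := by
    apply (isCompact_sphere (0 : ℂ) 1).of_isClosed_subset
    · have h1 : K = {u : ℂ | ‖u‖ = 1} ∩ ⋂ w ∈ E, {u : ℂ | δ ≤ ‖u - w‖} := by
        ext u; simp [hK]
      rw [h1]
      apply (isClosed_eq continuous_norm continuous_const).inter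
      apply isClosed_biInter
      intro w _
      exact isClosed_le continuous_const (by fun_prop)
    · intro u hu
      simpa using hu.1
  have hall : ∀ᶠ n : ℕ in atTop, ∀ s ∈ S, ∀ z ∈ (fun u => (q s).eval u) '' K,
      Gd A.natDegree n A z := by
    rw [Finset.eventually_all]
    intro s hs
    apply compact_good
    · exact hKc.image (q s).continuous
    · rintro z ⟨u, ⟨hu1, hu2⟩, rfl⟩
      have h3 : u ∉ Es s := by
        intro h4
        have := hu2 u (hE s hs u h4)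
        rw [sub_self, norm_zero] at this
        linarith
      have h5 : ‖(q s).eval u‖ ≠ 1 := fun h6 => h3 ⟨hu1, Or.inl h6⟩
      have h7 : A.eval ((q s).eval u) ≠ 0 := fun h6 => h3 ⟨hu1, Or.inr h6⟩
      rcases lt_or_gt_of_ne h5 with h8 | h8
      · exact Or.inl h8
      · exact Or.inr ⟨h8, h7⟩
  obtain ⟨n₀, hn₀⟩ := eventually_atTop.1
    ((core hA hP hcen).and ((fixed_values (A := A) hP (t := t)).and hall))
  refine ⟨n₀, fun n hn hdist hbad => hbad ?_⟩
  obtain ⟨h1, h2, h3⟩ := hn₀ n hn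
  refine h1.2 fun ξ hξ => ?_
  by_cases hcase : ‖P.eval ξ + t‖ ≠ 1 ∨ A.eval (P.eval ξ + t) = 0
  · exact h2 h1.1 ξ hξ hcase
  push Not at hcase
  obtain ⟨hc1, hc2⟩ := hcase
  right
  have hval : ∀ s : ℂ, (q s).eval (s ^ n) = (P.comp (X ^ n * A) + C t).eval s := by
    intro s
    simp only [hq, eval_add, eval_comp, eval_mul, eval_C, eval_X, eval_pow]
    rw [mul_comm]
  have hsS : P.eval ξ + t ∈ S := by
    rw [hS, Finset.mem_filter, Finset.mem_image]
    exact ⟨⟨ξ, by rw [Multiset.mem_toFinset, mem_roots hd]; exact hξ, rfl⟩, hc1, hc2⟩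
  apply h3 _ hsS
  exact ⟨(P.eval ξ + t) ^ n, ⟨by rw [norm_pow, hc1, one_pow], fun w hw => hdist _ hsS w hw⟩,
    hval _⟩

end Pool.Agent.H113R3.DH.Pt
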