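import Mathlib
import Pool.Agent.H762R2.RtB
import Pool.Agent.H113R3.DH.Vol

/-!
# Rational maps `Φ (z ^ n * A z / B z) + t`: estimates in the plane
-/

set_option autoImplicit false

open Polynomial Filter Topology

namespace Pool.Agent.H113R3.DH.Rat

open Pool.Agent.H762R2.Rt Pool.Agent.H113R3.DH

/-- Coefficient sequences bounded by `M`, with `b 0` bounded below. -/
structure Co (M : ℝ) (a b : ℕ → ℂ) : Prop where
  ha : ∀ k, ‖a k‖ ≤ M
  hb : ∀ k, ‖b k‖ ≤ M
  low : 1 / M ≤ ‖b 0‖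

variable {m : ℕ} {M : ℝ} {a b : ℕ → ℂ}

/-- bound for the derivative of `pol a m / pol b m` near `0` -/
noncomputable def Lam (m : ℕ) (M : ℝ) : ℝ := 8 * (m + 1) * ((m + 1) * (m + 1)) * M ^ 4

lemma Lam_ge (hM : 1 ≤ M) : 8 ≤ Lam m M := by
  unfold Lam
  have h1 : (1 : ℝ) ≤ M ^ 4 := one_le_pow₀ hM
  have hm : (0 : ℝ) ≤ m := Nat.cast_nonneg m
  have h2 : (1 : ℝ) ≤ (m + 1) * ((m + 1) * (m + 1)) := by nlinarith [mul_nonneg hm hm, mul_nonneg hm (mul_nonneg hm hm)]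
  nlinarith

lemma den_low (hM : 1 ≤ M) (h : Co M a b) {v : ℂ} (hv : Lam m M * ‖v‖ ≤ 1) :
    1 / (2 * M) ≤ ‖pol b m v‖ := by
  have hL := Lam_ge (m := m) hM
  have hv1 : ‖v‖ ≤ 1 := by nlinarith [norm_nonneg v]
  have h1 := pol_lip (D := m) h.hb hv1 (by simp : ‖(0 : ℂ)‖ ≤ 1)
  rw [pol_zero, sub_zero] at h1
  have h2 := norm_sub_norm_le (b 0) (b 0 - pol b m v)
  rw [sub_sub_cancel, norm_sub_rev] at h2
  have hm : (0 : ℝ) ≤ m := Nat.cast_nonneg m
  have h3 : ((m : ℝ) + 1) * m * M * ‖v‖ ≤ 1 / (2 * M) := by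
    rw [le_div_iff₀ (by positivity)]
    refine le_trans ?_ hv
    have h4 : ((m : ℝ) + 1) * m * M * ‖v‖ * (2 * M) = (2 * ((m + 1) * m) * M ^ 2) * ‖v‖ := by ring
    rw [h4]
    apply mul_le_mul_of_nonneg_right _ (norm_nonneg _)
    unfold Lam
    have h5 : M ^ 2 ≤ M ^ 4 := pow_le_pow_right₀ hM (by norm_num)
    have h6 : (2 : ℝ) * ((m + 1) * m) ≤ 8 * (m + 1) * ((m + 1) * (m + 1)) := by
      nlinarith [mul_nonneg hm hm, mul_nonneg hm (mul_nonneg hm hm)]
    exact mul_le_mul h6 h5 (by positivity) (by positivity)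
  have h7 := h.low
  have h8 : 1 / (2 * M) = 1 / M - 1 / (2 * M) := by field_simp; ring
  linarith

lemma phi_lip (hM : 1 ≤ M) (h : Co M a b) {v w : ℂ} (hv : Lam m M * ‖v‖ ≤ 1)
    (hw : Lam m M * ‖w‖ ≤ 1) :
    ‖pol a m v / pol b m v - pol a m w / pol b m w‖ ≤ Lam m M * ‖v - w‖ := by
  have hL := Lam_ge (m := m) hM
  have hM0 : 0 < M := by linarith
  have hm : (0 : ℝ) ≤ m := Nat.cast_nonneg m
  have hv1 : ‖v‖ ≤ 1 := by nlinarith [norm_nonneg v]
  have hw1 : ‖w‖ ≤ 1 := by nlinarith [norm_nonneg w]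
  have dv := den_low hM h hv
  have dw := den_low hM h hw
  have h2M : 0 < 1 / (2 * M) := by positivity
  have nv : pol b m v ≠ 0 := norm_pos_iff.1 (lt_of_lt_of_le h2M dv)
  have nw : pol b m w ≠ 0 := norm_pos_iff.1 (lt_of_lt_of_le h2M dw)
  have e1 : pol a m v / pol b m v - pol a m w / pol b m w =
      ((pol a m v - pol a m w) * pol b m w + pol a m w * (pol b m w - pol b m v)) /
        (pol b m v * pol b m w) := by
    field_simp
    ring
  rw [e1, norm_div, norm_mul (pol b m v)]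
  have l1 := pol_lip (D := m) h.ha hv1 hw1
  have l2 := pol_lip (D := m) h.hb hw1 hv1
  have b1 := pol_bound (D := m) h.hb hw1
  have b2 := pol_bound (D := m) h.ha hw1
  rw [norm_sub_rev w v] at l2
  have hnum : ‖(pol a m v - pol a m w) * pol b m w + pol a m w * (pol b m w - pol b m v)‖ ≤
      2 * ((m + 1) * m * M * ((m + 1) * M)) * ‖v - w‖ := by
    refine (norm_add_le _ _).trans ?_
    rw [norm_mul, norm_mul]
    have c1 : ‖pol a m v - pol a m w‖ * ‖pol b m w‖ ≤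
        ((m + 1) * m * M * ‖v - w‖) * ((m + 1) * M) :=
      mul_le_mul l1 b1 (norm_nonneg _) (by positivity)
    have c2 : ‖pol a m w‖ * ‖pol b m w - pol b m v‖ ≤
        ((m + 1) * M) * ((m + 1) * m * M * ‖v - w‖) :=
      mul_le_mul b2 l2 (norm_nonneg _) (by positivity)
    linarith
  rw [div_le_iff₀ (mul_pos (norm_pos_iff.2 nv) (norm_pos_iff.2 nw))]
  refine hnum.trans ?_
  have hden : 1 / (2 * M) * (1 / (2 * M)) ≤ ‖pol b m v‖ * ‖pol b m w‖ :=
    mul_le_mul dv dw h2M.le (norm_nonneg _)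
  calc 2 * (((m : ℝ) + 1) * m * M * ((m + 1) * M)) * ‖v - w‖
      ≤ Lam m M * ‖v - w‖ * (1 / (2 * M) * (1 / (2 * M))) := by
        have e2 : Lam m M * ‖v - w‖ * (1 / (2 * M) * (1 / (2 * M))) =
            (2 * (m + 1) * ((m + 1) * (m + 1)) * M ^ 2) * ‖v - w‖ := by
          unfold Lam; field_simp; ring
        rw [e2]
        apply mul_le_mul_of_nonneg_right _ (norm_nonneg _)
        have e3 : 2 * (((m : ℝ) + 1) * m * M * ((m + 1) * M)) =
            (2 * (m + 1) * ((m + 1) * m)) * M ^ 2 := by ring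
        rw [e3]
        apply mul_le_mul_of_nonneg_right _ (by positivity)
        apply mul_le_mul_of_nonneg_left _ (by positivity)
        nlinarith
    _ ≤ Lam m M * ‖v - w‖ * (‖pol b m v‖ * ‖pol b m w‖) := by
        apply mul_le_mul_of_nonneg_left hden
        positivity

end Pool.Agent.H113R3.DH.Rat
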