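import Mathlib
import Pool.Agent.H113R3.DH.RatA

/-!
# Rational maps `Φ (z ^ n * A z / B z) + t`: the functions `z ^ n * A / B` and `B / (z ^ n * A)`
-/

set_option autoImplicit false

open Polynomial Filter Topology

namespace Pool.Agent.H113R3.DH.Rat

open Pool.Agent.H762R2.Rt Pool.Agent.H113R3.DH

variable {k k₁ k₂ K m : ℕ} {M : ℝ} {A B : ℂ[X]}

lemma upper_out (_hM : 1 ≤ M) (h : Cls k M A) {z : ℂ} (hz : 1 ≤ ‖z‖) :
    ‖A.eval z‖ ≤ (k + 1) * M * ‖z‖ ^ k := by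
  rw [eval_eq_sum_range, h.deg]
  refine (norm_sum_le _ _).trans ?_
  have : ∀ i ∈ Finset.range (k + 1), ‖A.coeff i * z ^ i‖ ≤ M * ‖z‖ ^ k := by
    intro i hi
    rw [norm_mul, norm_pow]
    have h1 : ‖z‖ ^ i ≤ ‖z‖ ^ k := pow_le_pow_right₀ hz (Nat.lt_succ_iff.1 (Finset.mem_range.1 hi))
    have h2 := h.coeff i
    exact mul_le_mul h2 h1 (by positivity) (by linarith)
  refine (Finset.sum_le_card_nsmul _ _ _ this).trans ?_
  simp [mul_assoc]

lemma upper_out_deriv (hM : 1 ≤ M) (h : Cls k M A) {z : ℂ} (hz : 1 ≤ ‖z‖) :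
    ‖(derivative A).eval z‖ ≤ (k + 1) * (k * M) * ‖z‖ ^ k := by
  have hd : (derivative A).natDegree ≤ k := by
    rw [← h.deg]; exact (natDegree_derivative_le A).trans (Nat.sub_le _ _)
  have hc : ∀ i, i ≤ k → ‖(derivative A).coeff i‖ ≤ k * M := by
    intro i hi
    rw [coeff_derivative, norm_mul]
    rcases lt_or_eq_of_le hi with h1 | h1
    · have h2 : ‖((i : ℂ) + 1)‖ ≤ k := by
        have : ‖((i : ℂ) + 1)‖ = (i : ℝ) + 1 := by
          rw [← Nat.cast_succ, Complex.norm_natCast]; push_cast; ring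
        rw [this]
        exact_mod_cast h1
      have h3 := h.coeff (i + 1)
      calc _ ≤ M * k := mul_le_mul h3 h2 (norm_nonneg _) (by linarith)
        _ = k * M := mul_comm _ _
    · have h2 : A.coeff (i + 1) = 0 := coeff_eq_zero_of_natDegree_lt (by rw [h.deg]; omega)
      rw [h2, norm_zero, zero_mul]; positivity
  rw [eval_eq_sum_range' (Nat.lt_succ_of_le hd)]
  refine (norm_sum_le _ _).trans ?_
  have : ∀ i ∈ Finset.range (k + 1), ‖(derivative A).coeff i * z ^ i‖ ≤ k * M * ‖z‖ ^ k := by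
    intro i hi
    rw [norm_mul, norm_pow]
    have h1 : ‖z‖ ^ i ≤ ‖z‖ ^ k := pow_le_pow_right₀ hz (Nat.lt_succ_iff.1 (Finset.mem_range.1 hi))
    have h2 := hc i (Nat.lt_succ_iff.1 (Finset.mem_range.1 hi))
    exact mul_le_mul h2 h1 (by positivity) (by positivity)
  refine (Finset.sum_le_card_nsmul _ _ _ this).trans ?_
  simp [mul_assoc]

/-- the index of the bad set -/
def kk (K : ℕ) : ℕ := 8 * K + 14

/-- `n` is large -/
structure Lrg (k₁ k₂ m : ℕ) (M : ℝ) (n : ℕ) : Prop where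
  three : 3 ≤ n
  eps_le : eps (kk (k₁ + k₂)) n ≤ 1 / 2
  cA : (k₁ + 1) * M ≤ n
  cB : (k₂ + 1) * M ≤ n
  K4 : 4 * (k₁ + k₂) ≤ n
  lam : Lam m M ≤ n

lemma pow_small' {n : ℕ} (hn : 3 ≤ n) (he : eps k n ≤ 1 / 2) :
    (1 - eps k n / 2) ^ n ≤ ((n : ℝ) ^ (4 * (k + 2)))⁻¹ := by
  have h0 : (0 : ℝ) < n := by positivity
  have h1 : 1 - eps k n / 2 ≤ Real.exp (-(eps k n / 2)) := Real.one_sub_le_exp_neg _
  have h2 : 0 ≤ 1 - eps k n / 2 := by linarith
  calc (1 - eps k n / 2) ^ n ≤ Real.exp (-(eps k n / 2)) ^ n := pow_le_pow_left₀ h2 h1 n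
    _ = (Real.exp (Real.log n) ^ (4 * (k + 2)))⁻¹ := by
        rw [← Real.exp_nat_mul, ← Real.exp_nat_mul, ← Real.exp_neg]
        congr 1
        unfold eps
        field_simp
        push_cast
        ring
    _ = _ := by rw [Real.exp_log h0]

/-- lower bound away from the zeros -/
lemma low_n (hM : 1 ≤ M) (h : Cls k M A) {n : ℕ} (hn : 3 ≤ n) (hMn : M ≤ n) (hk : k ≤ K) {z : ℂ}
    (hz : ∀ a ∈ A.roots, 1 / (2 * n : ℝ) ≤ ‖z - a‖) : 1 / (n : ℝ) ^ (2 * K + 1) ≤ ‖A.eval z‖ := by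
  have h0 : (0 : ℝ) < n := by positivity
  have h3 : (3 : ℝ) ≤ n := by exact_mod_cast hn
  refine le_trans ?_ (h.lower hM (by positivity) hz)
  have h1 : (1 / (n : ℝ) ^ 2) ^ k ≤ (1 / (2 * n : ℝ)) ^ k := by
    apply pow_le_pow_left₀ (by positivity)
    apply one_div_le_one_div_of_le (by positivity)
    nlinarith
  have h2 : 1 / (n : ℝ) ^ (2 * K + 1) ≤ (1 / (n : ℝ) ^ 2) ^ k / n := by
    rw [div_pow, one_pow, ← pow_mul, div_div, ← pow_succ]
    apply one_div_le_one_div_of_le (by positivity)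
    apply pow_le_pow_right₀ (by linarith)
    omega
  refine h2.trans ?_
  apply div_le_div₀ (by positivity) h1 (by linarith) hMn

/-- `z ^ n * A z / B z` -/
noncomputable def U (n : ℕ) (A B : ℂ[X]) (z : ℂ) : ℂ := z ^ n * A.eval z / B.eval z

/-- `B z / (z ^ n * A z)` -/
noncomputable def V (n : ℕ) (A B : ℂ[X]) (z : ℂ) : ℂ := B.eval z / (z ^ n * A.eval z)

lemma hasDerivAt_U {n : ℕ} {z : ℂ} (hB : B.eval z ≠ 0) :
    HasDerivAt (U n A B) (((n * z ^ (n - 1) * A.eval z + z ^ n * (derivative A).eval z) *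
      B.eval z - z ^ n * A.eval z * (derivative B).eval z) / B.eval z ^ 2) z := by
  have h1 : HasDerivAt (fun z : ℂ => z ^ n * A.eval z)
      (n * z ^ (n - 1) * A.eval z + z ^ n * (derivative A).eval z) z :=
    (hasDerivAt_pow n z).mul (A.hasDerivAt z)
  exact h1.fun_div (B.hasDerivAt z) hB

lemma hasDerivAt_V {n : ℕ} {z : ℂ} (hA : z ^ n * A.eval z ≠ 0) :
    HasDerivAt (V n A B) (((derivative B).eval z * (z ^ n * A.eval z) -
      B.eval z * (n * z ^ (n - 1) * A.eval z + z ^ n * (derivative A).eval z)) /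
        (z ^ n * A.eval z) ^ 2) z := by
  have h1 : HasDerivAt (fun z : ℂ => z ^ n * A.eval z)
      (n * z ^ (n - 1) * A.eval z + z ^ n * (derivative A).eval z) z :=
    (hasDerivAt_pow n z).mul (A.hasDerivAt z)
  exact (B.hasDerivAt z).fun_div h1 hA

lemma inner_U (hM : 1 ≤ M) (hA : Cls k₁ M A) (hB : Cls k₂ M B) {n : ℕ} (hL : Lrg k₁ k₂ m M n)
    {z : ℂ} (hz : ‖z‖ ≤ 1 - eps (kk (k₁ + k₂)) n / 2)
    (hzB : ∀ a ∈ B.roots, 1 / (2 * n : ℝ) ≤ ‖z - a‖) :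
    B.eval z ≠ 0 ∧ ‖U n A B z‖ ≤ 1 / n ^ 4 ∧ ‖deriv (U n A B) z‖ ≤ 1 / n ^ 4 := by
  have hn := hL.three
  have he := hL.eps_le
  have h0 : (0 : ℝ) < n := by positivity
  have h3 : (3 : ℝ) ≤ n := by exact_mod_cast hn
  have hn1 : (1 : ℝ) ≤ n := by linarith
  set K := k₁ + k₂ with hK
  have he0 : 0 ≤ eps (kk K) n := le_trans (by positivity) (eps_ge (k := kk K) hn)
  set ρ := 1 - eps (kk K) n / 2 with hρ
  have hρ0 : 1 / 2 ≤ ρ := by rw [hρ]; linarith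
  have hz1 : ‖z‖ ≤ 1 := by rw [hρ] at hz; linarith
  have hcA := hL.cA
  have hcB := hL.cB
  have hk1 : (0 : ℝ) ≤ k₁ := Nat.cast_nonneg _
  have hk2 : (0 : ℝ) ≤ k₂ := Nat.cast_nonneg _
  have hMn : M ≤ n := by nlinarith
  have hk1n : (k₁ : ℝ) ≤ n := by nlinarith
  have hk2n : (k₂ : ℝ) ≤ n := by nlinarith
  have hlow := low_n hM hB hn hMn (show k₂ ≤ K by omega) hzB
  have hlow0 : (0 : ℝ) < 1 / (n : ℝ) ^ (2 * K + 1) := by positivity
  have hB0 : 0 < ‖B.eval z‖ := lt_of_lt_of_le hlow0 hlow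
  have hBne : B.eval z ≠ 0 := norm_pos_iff.1 hB0
  have uA : ‖A.eval z‖ ≤ n := (hA.upper hM hz1).trans hcA
  have uA' : ‖(derivative A).eval z‖ ≤ n * n := by
    refine (hA.upper_deriv hM hz1).trans ?_
    calc ((k₁ : ℝ) + 1) * (k₁ * M) = k₁ * ((k₁ + 1) * M) := by ring
      _ ≤ n * n := mul_le_mul hk1n hcA (by positivity) h0.le
  have uB : ‖B.eval z‖ ≤ n := (hB.upper hM hz1).trans hcB
  have uB' : ‖(derivative B).eval z‖ ≤ n * n := by
    refine (hB.upper_deriv hM hz1).trans ?_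
    calc ((k₂ : ℝ) + 1) * (k₂ * M) = k₂ * ((k₂ + 1) * M) := by ring
      _ ≤ n * n := mul_le_mul hk2n hcB (by positivity) h0.le
  set lam := ((n : ℝ) ^ (4 * K + 16))⁻¹ with hlam
  have hl0 : 0 < lam := by rw [hlam]; positivity
  have hs : ρ ^ n ≤ lam := by
    refine (pow_small' hn he).trans ?_
    rw [hlam]
    apply inv_anti₀ (by positivity)
    apply pow_le_pow_right₀ hn1
    unfold kk; omega
  have hzn : ‖z‖ ^ n ≤ lam := (pow_le_pow_left₀ (norm_nonneg _) hz n).trans hs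
  have hzn1 : ‖z‖ ^ (n - 1) ≤ 2 * lam := by
    have h4 : ‖z‖ ^ (n - 1) ≤ ρ ^ (n - 1) := pow_le_pow_left₀ (norm_nonneg _) hz _
    have h5 : ρ ^ n = ρ * ρ ^ (n - 1) := by
      rw [← pow_succ']; congr 1; omega
    have h6 : 0 ≤ ρ ^ (n - 1) := by positivity
    nlinarith
  have hn4 : (n : ℝ) ^ (4 * K + 16) = n ^ (4 * K + 2) * n ^ 14 := by rw [← pow_add]
  have hn2 : (n : ℝ) ^ (4 * K + 2) = n ^ (2 * K + 1) * n ^ (2 * K + 1) := by
    rw [← pow_add]; congr 1; ring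
  have hp1 : (1 : ℝ) ≤ n ^ (2 * K + 1) := one_le_pow₀ hn1
  refine ⟨hBne, ?_, ?_⟩
  · unfold U
    rw [norm_div, norm_mul, norm_pow, div_le_iff₀ hB0]
    have h7 : ‖z‖ ^ n * ‖A.eval z‖ ≤ lam * n := mul_le_mul hzn uA (norm_nonneg _) hl0.le
    have h8 : 1 / (n : ℝ) ^ 4 * (1 / (n : ℝ) ^ (2 * K + 1)) ≤ 1 / (n : ℝ) ^ 4 * ‖B.eval z‖ := by
      gcongr
    refine h7.trans (le_trans ?_ h8)
    rw [hlam, hn4, hn2]
    rw [inv_mul_le_iff₀ (by positivity)]
    have : (n : ℝ) ^ (2 * K + 1) * n ^ (2 * K + 1) * n ^ 14 * (1 / n ^ 4 * (1 / n ^ (2 * K + 1))) =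
        n ^ (2 * K + 1) * n ^ 10 := by
      field_simp
    rw [this]
    calc (n : ℝ) = n ^ 1 := (pow_one _).symm
      _ ≤ n ^ 10 := pow_le_pow_right₀ hn1 (by norm_num)
      _ ≤ n ^ (2 * K + 1) * n ^ 10 := le_mul_of_one_le_left (by positivity) hp1
  · rw [(hasDerivAt_U hBne).deriv, norm_div, norm_pow, div_le_iff₀ (by positivity)]
    have t1 : ‖(n : ℂ) * z ^ (n - 1) * A.eval z + z ^ n * (derivative A).eval z‖ ≤
        3 * lam * (n * n) := by
      refine (norm_add_le _ _).trans ?_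
      have h1 : ‖(n : ℂ) * z ^ (n - 1) * A.eval z‖ ≤ n * (2 * lam) * n := by
        rw [norm_mul, norm_mul, norm_pow, Complex.norm_natCast]
        gcongr
      have h2 : ‖z ^ n * (derivative A).eval z‖ ≤ lam * (n * n) := by
        rw [norm_mul, norm_pow]
        gcongr
      linarith
    have t2 : ‖z ^ n * A.eval z * (derivative B).eval z‖ ≤ lam * n * (n * n) := by
      rw [norm_mul, norm_mul, norm_pow]
      gcongr
    have t3 : ‖(↑n * z ^ (n - 1) * A.eval z + z ^ n * (derivative A).eval z) * B.eval z -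
        z ^ n * A.eval z * (derivative B).eval z‖ ≤ 4 * lam * n ^ 3 := by
      refine (norm_sub_le _ _).trans ?_
      rw [norm_mul]
      have := mul_le_mul t1 uB (norm_nonneg _) (by positivity)
      calc _ ≤ 3 * lam * (n * n) * n + lam * n * (n * n) := add_le_add this t2
        _ = 4 * lam * n ^ 3 := by ring
    refine t3.trans ?_
    have h8 : 1 / (n : ℝ) ^ 4 * (1 / (n : ℝ) ^ (2 * K + 1)) ^ 2 ≤ 1 / (n : ℝ) ^ 4 * ‖B.eval z‖ ^ 2 := by
      gcongr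
    refine le_trans ?_ h8
    rw [hlam, hn4, hn2]
    have e1 : 1 / (n : ℝ) ^ 4 * (1 / (n : ℝ) ^ (2 * K + 1)) ^ 2 =
        ((n : ℝ) ^ (2 * K + 1) * n ^ (2 * K + 1) * n ^ 14)⁻¹ * n ^ 10 := by
      field_simp
    rw [e1]
    have e2 : 4 * ((n : ℝ) ^ (2 * K + 1) * n ^ (2 * K + 1) * n ^ 14)⁻¹ * n ^ 3 =
        ((n : ℝ) ^ (2 * K + 1) * n ^ (2 * K + 1) * n ^ 14)⁻¹ * (4 * n ^ 3) := by ring
    rw [e2]
    apply mul_le_mul_of_nonneg_left _ (by positivity)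
    have e3 : (n : ℝ) ^ 10 = n ^ 7 * n ^ 3 := by rw [← pow_add]
    rw [e3]
    apply mul_le_mul_of_nonneg_right _ (by positivity)
    calc (4 : ℝ) ≤ 3 ^ 7 := by norm_num
      _ ≤ n ^ 7 := pow_le_pow_left₀ (by norm_num) h3 7

lemma pow_out {n : ℕ} (hL : Lrg k₁ k₂ m M n) {z : ℂ}
    (hz : 1 + eps (kk (k₁ + k₂)) n / 2 ≤ ‖z‖) :
    (n : ℝ) ^ (8 * (k₁ + k₂) + 16) ≤ ‖z‖ ^ (n - 2 * (k₁ + k₂)) := by
  have hn := hL.three
  have h3 : (3 : ℝ) ≤ n := by exact_mod_cast hn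
  have hn1 : (1 : ℝ) ≤ n := by linarith
  have he0 : 0 ≤ eps (kk (k₁ + k₂)) n := le_trans (by positivity) (eps_ge (k := kk (k₁ + k₂)) hn)
  have hz1 : 1 ≤ ‖z‖ := by linarith
  have h4 := hL.K4
  have h1 := pow_big (k := kk (k₁ + k₂)) hn hL.eps_le
  have h2 : (1 + eps (kk (k₁ + k₂)) n / 2) ^ n ≤ ‖z‖ ^ n := pow_le_pow_left₀ (by linarith) hz n
  have h5 : ((n : ℝ) ^ (8 * (k₁ + k₂) + 16)) ^ 2 ≤ (‖z‖ ^ (n - 2 * (k₁ + k₂))) ^ 2 := by
    rw [← pow_mul, ← pow_mul]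
    have e1 : (8 * (k₁ + k₂) + 16) * 2 = 2 * (kk (k₁ + k₂) + 2) := by unfold kk; ring
    rw [e1]
    calc (n : ℝ) ^ (2 * (kk (k₁ + k₂) + 2)) ≤ ‖z‖ ^ n := h1.trans h2
      _ ≤ ‖z‖ ^ ((n - 2 * (k₁ + k₂)) * 2) := pow_le_pow_right₀ hz1 (by omega)
  exact le_of_sq_le_sq h5 (by positivity)

lemma outer_V (hM : 1 ≤ M) (hA : Cls k₁ M A) (hB : Cls k₂ M B) {n : ℕ} (hL : Lrg k₁ k₂ m M n)
    {z : ℂ} (hz : 1 + eps (kk (k₁ + k₂)) n / 2 ≤ ‖z‖)
    (hzA : ∀ a ∈ A.roots, 1 / (2 * n : ℝ) ≤ ‖z - a‖) :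
    z ^ n * A.eval z ≠ 0 ∧ ‖V n A B z‖ ≤ 1 / n ^ 4 ∧ ‖deriv (V n A B) z‖ ≤ 1 / n ^ 4 := by
  have hpo := pow_out hL hz
  have hn := hL.three
  have he := hL.eps_le
  have h0 : (0 : ℝ) < n := by positivity
  have h3 : (3 : ℝ) ≤ n := by exact_mod_cast hn
  have hn1 : (1 : ℝ) ≤ n := by linarith
  have hK4 := hL.K4
  set K := k₁ + k₂ with hK
  have he0 : 0 ≤ eps (kk K) n := le_trans (by positivity) (eps_ge (k := kk K) hn)
  have hz1 : 1 ≤ ‖z‖ := by linarith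
  have hzpos : 0 < ‖z‖ := by linarith
  have hcA := hL.cA
  have hcB := hL.cB
  have hk1 : (0 : ℝ) ≤ k₁ := Nat.cast_nonneg _
  have hk2 : (0 : ℝ) ≤ k₂ := Nat.cast_nonneg _
  have hMn : M ≤ n := by nlinarith
  have hk1n : (k₁ : ℝ) ≤ n := by nlinarith
  have hk2n : (k₂ : ℝ) ≤ n := by nlinarith
  have hlow := low_n hM hA hn hMn (show k₁ ≤ K by omega) hzA
  have hlow0 : (0 : ℝ) < 1 / (n : ℝ) ^ (2 * K + 1) := by positivity
  have hA0 : 0 < ‖A.eval z‖ := lt_of_lt_of_le hlow0 hlow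
  have hzk1 : ‖z‖ ^ k₁ ≤ ‖z‖ ^ K := pow_le_pow_right₀ hz1 (by omega)
  have hzk2 : ‖z‖ ^ k₂ ≤ ‖z‖ ^ K := pow_le_pow_right₀ hz1 (by omega)
  set s := ‖z‖ ^ K with hs
  have hs1 : 1 ≤ s := one_le_pow₀ hz1
  have uA : ‖A.eval z‖ ≤ n * s :=
    (upper_out hM hA hz1).trans (mul_le_mul hcA hzk1 (by positivity) h0.le)
  have uA' : ‖(derivative A).eval z‖ ≤ n * n * s := by
    refine (upper_out_deriv hM hA hz1).trans ?_
    refine mul_le_mul ?_ hzk1 (by positivity) (by positivity)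
    calc ((k₁ : ℝ) + 1) * (k₁ * M) = k₁ * ((k₁ + 1) * M) := by ring
      _ ≤ n * n := mul_le_mul hk1n hcA (by positivity) h0.le
  have uB : ‖B.eval z‖ ≤ n * s :=
    (upper_out hM hB hz1).trans (mul_le_mul hcB hzk2 (by positivity) h0.le)
  have uB' : ‖(derivative B).eval z‖ ≤ n * n * s := by
    refine (upper_out_deriv hM hB hz1).trans ?_
    refine mul_le_mul ?_ hzk2 (by positivity) (by positivity)
    calc ((k₂ : ℝ) + 1) * (k₂ * M) = k₂ * ((k₂ + 1) * M) := by ring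
      _ ≤ n * n := mul_le_mul hk2n hcB (by positivity) h0.le
  -- the size of `z ^ n`
  set q := ‖z‖ ^ (n - 2 * K) with hq
  have hzn : ‖z‖ ^ n = s * s * q := by
    rw [hs, hq, ← pow_add, ← pow_add]; congr 1; omega
  have hzn1 : ‖z‖ ^ (n - 1) ≤ s * s * q := by
    rw [← hzn]; exact pow_le_pow_right₀ hz1 (by omega)
  have hq0 : 0 < q := by rw [hq]; positivity
  have hs0 : 0 < s := by linarith
  set d := (n : ℝ) ^ (2 * K + 1) with hd
  have hd1 : 1 ≤ d := one_le_pow₀ hn1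
  have hqd : d * d * n ^ 14 ≤ q := by
    refine le_trans ?_ hpo
    rw [hd, ← pow_add, ← pow_add]
    apply pow_le_pow_right₀ hn1
    omega
  have hprod : ‖z ^ n * A.eval z‖ = s * s * q * ‖A.eval z‖ := by
    rw [norm_mul, norm_pow, hzn]
  have hlowP : s * s * q * (1 / d) ≤ ‖z ^ n * A.eval z‖ := by
    rw [hprod]; gcongr
  have hPpos : 0 < ‖z ^ n * A.eval z‖ := lt_of_lt_of_le (by positivity) hlowP
  have hPne : z ^ n * A.eval z ≠ 0 := norm_pos_iff.1 hPpos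
  refine ⟨hPne, ?_, ?_⟩
  · unfold V
    rw [norm_div, div_le_iff₀ hPpos]
    refine uB.trans (le_trans ?_ (mul_le_mul_of_nonneg_left hlowP (by positivity)))
    have e1 : 1 / (n : ℝ) ^ 4 * (s * s * q * (1 / d)) = s * (s * (q / (n ^ 4 * d))) := by
      field_simp
    rw [e1, mul_comm (n : ℝ) s]
    apply mul_le_mul_of_nonneg_left _ hs0.le
    have e2 : (n : ℝ) ≤ q / (n ^ 4 * d) := by
      rw [le_div_iff₀ (by positivity)]
      refine le_trans ?_ hqd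
      have : (n : ℝ) * (n ^ 4 * d) = d * n ^ 5 := by ring
      rw [this, mul_assoc]
      apply mul_le_mul_of_nonneg_left _ (by positivity)
      calc (n : ℝ) ^ 5 ≤ n ^ 14 := pow_le_pow_right₀ hn1 (by norm_num)
        _ ≤ d * n ^ 14 := le_mul_of_one_le_left (by positivity) hd1
    exact e2.trans (le_mul_of_one_le_left (by positivity) hs1)
  · rw [(hasDerivAt_V hPne).deriv, norm_div, norm_pow, div_le_iff₀ (by positivity)]
    have t1 : ‖(n : ℂ) * z ^ (n - 1) * A.eval z + z ^ n * (derivative A).eval z‖ ≤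
        2 * (n * n) * (s * s * q) * s := by
      refine (norm_add_le _ _).trans ?_
      have h1 : ‖(n : ℂ) * z ^ (n - 1) * A.eval z‖ ≤ n * (s * s * q) * (n * s) := by
        rw [norm_mul, norm_mul, norm_pow, Complex.norm_natCast]
        gcongr
      have h2 : ‖z ^ n * (derivative A).eval z‖ ≤ (s * s * q) * (n * n * s) := by
        rw [norm_mul, norm_pow, hzn]
        gcongr
      calc _ ≤ n * (s * s * q) * (n * s) + (s * s * q) * (n * n * s) := add_le_add h1 h2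
        _ = _ := by ring
    have t2 : ‖(derivative B).eval z * (z ^ n * A.eval z)‖ ≤ n * n * s * (s * s * q * (n * s)) := by
      rw [norm_mul, hprod]
      gcongr
    have t3 : ‖(derivative B).eval z * (z ^ n * A.eval z) -
      B.eval z * (↑n * z ^ (n - 1) * A.eval z + z ^ n * (derivative A).eval z)‖ ≤
        3 * n ^ 3 * (s * s * (s * s * q)) := by
      refine (norm_sub_le _ _).trans ?_
      rw [norm_mul (B.eval z)]
      have := mul_le_mul uB t1 (norm_nonneg _) (by positivity)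
      calc _ ≤ n * n * s * (s * s * q * (n * s)) + n * s * (2 * (n * n) * (s * s * q) * s) :=
            add_le_add t2 this
        _ = _ := by ring
    refine t3.trans ?_
    have h8 : 1 / (n : ℝ) ^ 4 * (s * s * q * (1 / d)) ^ 2 ≤
        1 / (n : ℝ) ^ 4 * ‖z ^ n * A.eval z‖ ^ 2 := by
      gcongr
    refine le_trans ?_ h8
    have e1 : 1 / (n : ℝ) ^ 4 * (s * s * q * (1 / d)) ^ 2 =
        (s * s * (s * s * q)) * (q / (n ^ 4 * (d * d))) := by
      field_simp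
    rw [e1, mul_comm]
    apply mul_le_mul_of_nonneg_left _ (by positivity)
    rw [le_div_iff₀ (by positivity)]
    refine le_trans ?_ hqd
    have : 3 * (n : ℝ) ^ 3 * (n ^ 4 * (d * d)) = d * d * (3 * n ^ 7) := by ring
    rw [this]
    apply mul_le_mul_of_nonneg_left _ (by positivity)
    have e3 : (n : ℝ) ^ 14 = n ^ 7 * n ^ 7 := by rw [← pow_add]
    rw [e3]
    apply mul_le_mul_of_nonneg_right _ (by positivity)
    calc (3 : ℝ) ≤ 3 ^ 7 := by norm_num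
      _ ≤ n ^ 7 := pow_le_pow_left₀ (by norm_num) h3 7

end Pool.Agent.H113R3.DH.Rat
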