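import Mathlib
import Pool.Agent.H113R3.DH.Vol

/-!
# Translates that avoid the bad set: area and a grid of translates
-/

set_option autoImplicit false

open Polynomial Filter Topology MeasureTheory

namespace Pool.Agent.H113R3.DH.Rat

open Pool.Agent.H113R3.DH

variable {k n N₀ : ℕ} {E : ℂ[X]}

lemma vol_Bad_gen (hE : E.natDegree ≤ k) (hn : 3 ≤ n) (he : eps k n ≤ 1 / 2) :
    volume (Bad k n E) ≤ ENNReal.ofReal (4 * Real.pi * eps k n + k * (Real.pi / n ^ 2)) := by
  have he0 : 0 < eps k n := lt_of_lt_of_le (by positivity) (eps_ge (k := k) hn)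
  unfold Bad
  refine (measure_union_le _ _).trans ?_
  rw [ENNReal.ofReal_add (by positivity) (by positivity)]
  refine add_le_add (vol_annulus he0 he) ?_
  refine (measure_biUnion_finset_le _ _).trans ?_
  have hb : ∀ a ∈ E.roots.toFinset, volume (Metric.ball a (1 / (n : ℝ))) ≤
      ENNReal.ofReal (Real.pi / n ^ 2) := by
    intro a _
    rw [Complex.volume_ball]
    have hpi : (NNReal.pi : ENNReal) = ENNReal.ofReal Real.pi := by
      rw [← NNReal.coe_real_pi, ENNReal.ofReal_coe_nnreal]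
    rw [hpi, ← ENNReal.ofReal_pow (by positivity), ← ENNReal.ofReal_mul (by positivity)]
    apply ENNReal.ofReal_le_ofReal
    apply le_of_eq
    field_simp
  refine (Finset.sum_le_card_nsmul _ _ _ hb).trans ?_
  have hcard : E.roots.toFinset.card ≤ k :=
    (Multiset.toFinset_card_le _).trans ((card_roots' _).trans hE)
  rw [nsmul_eq_mul, ENNReal.ofReal_mul (by positivity), ENNReal.ofReal_natCast]
  gcongr

theorem vol_gen (hE : E.natDegree ≤ k) (hn : 3 ≤ n) (he : eps k n ≤ 1 / 2) (W : Finset ℂ)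
    (hW : W.card ≤ N₀) :
    volume {c : ℂ | ∃ w ∈ W, c + w ∈ Bad k n E} ≤
      ENNReal.ofReal (N₀ * (4 * Real.pi * eps k n + k * (Real.pi / n ^ 2))) := by
  have he0 : 0 ≤ eps k n := le_trans (by positivity) (eps_ge (k := k) hn)
  have hsub : {c : ℂ | ∃ w ∈ W, c + w ∈ Bad k n E} ⊆
      ⋃ w ∈ W, (fun c => c + w) ⁻¹' Bad k n E := by
    rintro c ⟨w, hw, hw'⟩
    simp only [Set.mem_iUnion]
    exact ⟨w, hw, hw'⟩
  refine (measure_mono hsub).trans ((measure_biUnion_finset_le _ _).trans ?_)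
  have hb : ∀ w ∈ W, volume ((fun c : ℂ => c + w) ⁻¹' Bad k n E) ≤
      ENNReal.ofReal (4 * Real.pi * eps k n + k * (Real.pi / n ^ 2)) := by
    intro w _
    rw [measure_preimage_add_right]
    exact vol_Bad_gen hE hn he
  refine (Finset.sum_le_card_nsmul _ _ _ hb).trans ?_
  rw [nsmul_eq_mul, ENNReal.ofReal_mul (by positivity), ENNReal.ofReal_natCast]
  gcongr

theorem exists_good_gen (hE : E.natDegree ≤ k) (hn : 3 ≤ n) (W : Finset ℂ) (hN0 : 1 ≤ N₀)
    (hW : W.card ≤ N₀) (he : 2 * (2 * (k + N₀)) * (20 * eps k n) ≤ 1 / 16) (c : ℂ) :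
    ∃ c' : ℂ, ‖c' - c‖ ≤ 80 * (k + N₀) * eps k n ∧ ∀ w ∈ W, c' + w ∉ Bad k n E := by
  classical
  have he0 : 0 < eps k n := lt_of_lt_of_le (by positivity) (eps_ge (k := k) hn)
  have heg := eps_ge (k := k) hn
  have hk0 : (0 : ℝ) ≤ k := Nat.cast_nonneg k
  have hm1 : (1 : ℝ) ≤ N₀ := by exact_mod_cast hN0
  set e := eps k n with hee
  set d := 20 * e with hd
  set N := 2 * (k + N₀) with hN
  have hd0 : 0 < d := by rw [hd]; linarith
  have hNd : 2 * (N : ℝ) * d ≤ 1 / 16 := by rw [hN]; push_cast; exact he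
  have he1 : e ≤ 1 / 16 := by
    have : e ≤ 2 * (2 * (k + N₀)) * (20 * e) := by nlinarith [mul_nonneg hk0 he0.le]
    linarith
  set S := Finset.range N ×ˢ Finset.range N with hS
  set BA : ℂ → Finset (ℕ × ℕ) := fun w => S.filter
      fun p => 1 - e < ‖gp (c + w) d p‖ ∧ ‖gp (c + w) d p‖ < 1 + e with hBA
  set BB : ℂ → Finset (ℕ × ℕ) := fun w => E.roots.toFinset.biUnion fun a =>
      S.filter fun p => ‖gp (c + w) d p - a‖ < 1 / n with hBB
  have hA : ∀ w, (BA w).card ≤ N := fun w => grid_annulus he0 hd hNd he1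
  have hB : ∀ w, (BB w).card ≤ k := by
    intro w
    refine (Finset.card_biUnion_le_card_mul _ _ 1 fun a _ => grid_ball hd0 ?_).trans ?_
    · have h17 : 16 / (n : ℝ) = 16 * (1 / n) := by ring
      have : (0 : ℝ) < 1 / n := by positivity
      rw [hd]; linarith
    · rw [mul_one]
      exact (Multiset.toFinset_card_le _).trans ((card_roots' _).trans hE)
  have hU : (W.biUnion fun w => BA w ∪ BB w).card ≤ N₀ * (N + k) := by
    refine (Finset.card_biUnion_le_card_mul _ _ (N + k) fun w _ => ?_).trans ?_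
    · exact (Finset.card_union_le _ _).trans (add_le_add (hA w) (hB w))
    · exact Nat.mul_le_mul_right _ hW
  have hlt : (W.biUnion fun w => BA w ∪ BB w).card < S.card := by
    refine lt_of_le_of_lt hU ?_
    rw [hS, Finset.card_product, Finset.card_range, hN]
    have : 0 < N₀ * N₀ := by positivity
    nlinarith
  obtain ⟨p, hpS, hp⟩ := Finset.exists_mem_notMem_of_card_lt_card hlt
  refine ⟨gp c d p, ?_, ?_⟩
  · have h1 : gp c d p - c = ⟨d * p.1, d * p.2⟩ := by simp [gp]
    rw [h1]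
    have h2 := Complex.norm_le_abs_re_add_abs_im ⟨d * p.1, d * p.2⟩
    simp only at h2
    rw [hS, Finset.mem_product, Finset.mem_range, Finset.mem_range] at hpS
    have h3 : (p.1 : ℝ) ≤ N := by exact_mod_cast hpS.1.le
    have h4 : (p.2 : ℝ) ≤ N := by exact_mod_cast hpS.2.le
    rw [abs_of_nonneg (by positivity), abs_of_nonneg (by positivity)] at h2
    have h5 : d * p.1 ≤ d * N := by gcongr
    have h6 : d * p.2 ≤ d * N := by gcongr
    calc _ ≤ d * N + d * N := by linarith
      _ = 80 * (k + N₀) * e := by rw [hd, hN]; push_cast; ring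
  · intro w hw hbad
    apply hp
    rw [Finset.mem_biUnion]
    refine ⟨w, hw, ?_⟩
    have hg : gp c d p + w = gp (c + w) d p := by unfold gp; ring
    rw [hg] at hbad
    unfold Bad at hbad
    rw [Finset.mem_union]
    rcases hbad with hb | hb
    · left
      rw [hBA]
      simp only [Finset.mem_filter]
      exact ⟨hpS, hb⟩
    · right
      simp only [Set.mem_iUnion, Metric.mem_ball, dist_eq_norm] at hb
      obtain ⟨a, ha, hb⟩ := hb
      rw [hBB]
      simp only [Finset.mem_biUnion, Finset.mem_filter]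
      exact ⟨a, ha, hpS, hb⟩

end Pool.Agent.H113R3.DH.Rat
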