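import Mathlib
import Pool.Agent.H462R2.AP1
import Pool.Agent.H762R2.RtD
import Pool.Agent.H113R3.DH.RatB
import Pool.Agent.H113R3.DH.RatC

/-!
# Rational maps `Φ (z ^ n * A z / B z) + t`: the sphere
-/

set_option autoImplicit false

open Polynomial Filter Topology
open scoped OnePoint

namespace Pool.Agent.H113R3.DH.Rat

open Pool.Agent.H762R2.Rt Pool.Agent.H113R3.DH Pool.Agent.H462R2.AP
open Pool.Agent.Helper114.Herman Pool.Agent.Helper114.Konig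

variable {k₁ k₂ m n : ℕ} {M : ℝ} {A B P Q : ℂ[X]}

/-- `B ^ m * P (X ^ n * A / B)` -/
noncomputable def HC (m n : ℕ) (A B P : ℂ[X]) : ℂ[X] :=
  ∑ i ∈ Finset.range (m + 1), C (P.coeff i) * (X ^ n * A) ^ i * B ^ (m - i)

lemma HC_eval (m n : ℕ) (A B P : ℂ[X]) (z : ℂ) :
    (HC m n A B P).eval z = hom P m (z ^ n * A.eval z) (B.eval z) := by
  simp [HC, hom, eval_finsetSum]

lemma hom_inner (hP : P.natDegree ≤ m) {x y : ℂ} (hy : y ≠ 0) :
    hom P m x y = y ^ m * pol P.coeff m (x / y) := by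
  rw [hom_ne hP hy, eval_eq_sum_range' (Nat.lt_succ_of_le hP)]
  rfl

lemma hom_outer {x y : ℂ} (hx : x ≠ 0) :
    hom P m x y = x ^ m * pol (fun k => P.coeff (m - k)) m (y / x) := by
  rw [← hom_one_left]
  unfold hom
  rw [Finset.mul_sum]
  refine Finset.sum_congr rfl fun k hk => ?_
  have hk' : k ≤ m := Nat.lt_succ_iff.1 (Finset.mem_range.1 hk)
  have e : x ^ m = x ^ k * x ^ (m - k) := by rw [← pow_add]; congr 1; omega
  rw [one_pow, mul_one, div_pow, e]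
  field_simp

/-- The data: `A`, `B` of degrees `k₁`, `k₂`, and `P / Q` of degree `m`, finite at `0` and `∞`. -/
structure Dat (k₁ k₂ m : ℕ) (M : ℝ) (A B P Q : ℂ[X]) : Prop where
  hA : Cls k₁ M A
  hB : Cls k₂ M B
  cAB : IsCoprime (X * A) B
  cPQ : IsCoprime P Q
  dP : P.natDegree ≤ m
  dQ : Q.natDegree = m
  cP : ∀ i, ‖P.coeff i‖ ≤ M
  cQ : ∀ i, ‖Q.coeff i‖ ≤ M
  Q0 : 1 / M ≤ ‖Q.coeff 0‖
  Qm : 1 / M ≤ ‖Q.coeff m‖

lemma Dat.ne0 (hM : 1 ≤ M) (h : Dat k₁ k₂ m M A B P Q) : Q.coeff 0 ≠ 0 := by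
  have h1 : 0 < 1 / M := by positivity
  exact norm_pos_iff.1 (lt_of_lt_of_le h1 h.Q0)

lemma Dat.nem (hM : 1 ≤ M) (h : Dat k₁ k₂ m M A B P Q) : Q.coeff m ≠ 0 := by
  have h1 : 0 < 1 / M := by positivity
  exact norm_pos_iff.1 (lt_of_lt_of_le h1 h.Qm)

lemma Dat.no_common (h : Dat k₁ k₂ m M A B P Q) (z : ℂ) : z ^ n * A.eval z ≠ 0 ∨ B.eval z ≠ 0 := by
  by_contra hcon
  push Not at hcon
  obtain ⟨u, v, huv⟩ := h.cAB
  have h1 := congrArg (fun p => p.eval z) huv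
  simp only [eval_add, eval_mul, eval_X, eval_one, hcon.2, mul_zero, add_zero] at h1
  rcases mul_eq_zero.1 hcon.1 with h2 | h2
  · have hz : z = 0 := eq_zero_of_pow_eq_zero h2
    rw [hz] at h1; simp at h1
  · rw [h2] at h1; simp at h1

lemma Dat.B0 (h : Dat k₁ k₂ m M A B P Q) : B.eval 0 ≠ 0 := by
  have := h.no_common (n := 1) 0
  simpa using this

lemma hom_coprime (hM : 1 ≤ M) (h : Dat k₁ k₂ m M A B P Q) {x y : ℂ} (hxy : x ≠ 0 ∨ y ≠ 0) :
    hom P m x y ≠ 0 ∨ hom Q m x y ≠ 0 := by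
  by_cases hy : y = 0
  · right
    rw [hy, hom_zero]
    exact mul_ne_zero (h.nem hM) (pow_ne_zero _ (hxy.resolve_right (not_not.2 hy)))
  · rw [hom_ne h.dP hy, hom_ne h.dQ.le hy]
    by_contra hcon
    push Not at hcon
    have hym := pow_ne_zero m hy
    have h1 := (mul_eq_zero.1 hcon.1).resolve_left hym
    have h2 := (mul_eq_zero.1 hcon.2).resolve_left hym
    obtain ⟨u, v, huv⟩ := h.cPQ
    have h3 := congrArg (fun p => p.eval (x / y)) huv
    simp only [eval_add, eval_mul, eval_one, h1, h2, mul_zero, add_zero] at h3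
    exact zero_ne_one h3

/-- numerator of the family -/
noncomputable def Nu (m n : ℕ) (A B P Q : ℂ[X]) (t : ℂ) : ℂ[X] :=
  HC m n A B P + C t * HC m n A B Q

lemma coprime_Nu (hM : 1 ≤ M) (h : Dat k₁ k₂ m M A B P Q) (t : ℂ) :
    IsCoprime (Nu m n A B P Q t) (HC m n A B Q) := by
  refine (Polynomial.isCoprime_iff_aeval_ne_zero_of_isAlgClosed (k := ℂ) ℂ _ _).2 fun z => ?_
  rw [coe_aeval_eq_eval, Nu, eval_add, eval_mul, eval_C, HC_eval, HC_eval]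
  rcases hom_coprime hM h (h.no_common (n := n) z) with h1 | h1
  · by_cases h2 : hom Q m (z ^ n * A.eval z) (B.eval z) = 0
    · left; rw [h2, mul_zero, add_zero]; exact h1
    · exact Or.inr h2
  · exact Or.inr h1

lemma Q_ne_zero (hM : 1 ≤ M) (hn : 1 ≤ n) (h : Dat k₁ k₂ m M A B P Q) : HC m n A B Q ≠ 0 := by
  intro h0
  have h1 := HC_eval m n A B Q 0
  rw [h0, eval_zero, zero_pow (by omega), zero_mul, hom_inner h.dQ.le h.B0, zero_div, pol_zero] at h1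
  exact mul_ne_zero (pow_ne_zero _ h.B0) (h.ne0 hM) h1.symm

/-- inner and outer coordinate of `Φ` -/
noncomputable def ph0 (m : ℕ) (P Q : ℂ[X]) (v : ℂ) : ℂ := pol P.coeff m v / pol Q.coeff m v

noncomputable def ph1 (m : ℕ) (P Q : ℂ[X]) (v : ℂ) : ℂ :=
  pol (fun k => P.coeff (m - k)) m v / pol (fun k => Q.coeff (m - k)) m v

lemma ph0_zero : ph0 m P Q 0 = P.coeff 0 / Q.coeff 0 := by simp [ph0, pol_zero]

lemma ph1_zero : ph1 m P Q 0 = P.coeff m / Q.coeff m := by simp [ph1, pol_zero]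

lemma Dat.co0 (h : Dat k₁ k₂ m M A B P Q) : Co M P.coeff Q.coeff := ⟨h.cP, h.cQ, h.Q0⟩

lemma Dat.co1 (h : Dat k₁ k₂ m M A B P Q) :
    Co M (fun k => P.coeff (m - k)) (fun k => Q.coeff (m - k)) :=
  ⟨fun _ => h.cP _, fun _ => h.cQ _, by simpa using h.Qm⟩

/-- inner points -/
def Inn (k₁ k₂ n : ℕ) (B : ℂ[X]) (z : ℂ) : Prop :=
  ‖z‖ ≤ 1 - eps (kk (k₁ + k₂)) n / 2 ∧ ∀ a ∈ B.roots, 1 / (2 * n : ℝ) ≤ ‖z - a‖

/-- outer points -/
def Out (k₁ k₂ n : ℕ) (A : ℂ[X]) (z : ℂ) : Prop :=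
  1 + eps (kk (k₁ + k₂)) n / 2 ≤ ‖z‖ ∧ ∀ a ∈ A.roots, 1 / (2 * n : ℝ) ≤ ‖z - a‖

/-- a map of the sphere given by the family -/
structure Fam (m n : ℕ) (A B P Q : ℂ[X]) (t : ℂ) (f : OnePoint ℂ → OnePoint ℂ) : Prop where
  rat : IsRat f (Nu m n A B P Q t) (HC m n A B Q)

lemma Fam.eval_inn (hM : 1 ≤ M) (h : Dat k₁ k₂ m M A B P Q) (hL : Lrg k₁ k₂ m M n) {t : ℂ}
    {f : OnePoint ℂ → OnePoint ℂ} (hf : Fam m n A B P Q t f) {z : ℂ} (hz : Inn k₁ k₂ n B z) :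
    f (z : OnePoint ℂ) = ((ph0 m P Q (U n A B z) + t : ℂ) : OnePoint ℂ) ∧
      Lam m M * ‖U n A B z‖ ≤ 1 ∧ ‖ph0 m P Q (U n A B z) - ph0 m P Q 0‖ < 1 / (2 * n) := by
  obtain ⟨hB, hU, -⟩ := inner_U hM h.hA h.hB hL hz.1 hz.2
  have hn := hL.three
  have h0 : (0 : ℝ) < n := by positivity
  have h3 : (3 : ℝ) ≤ n := by exact_mod_cast hn
  have hlam := hL.lam
  have hL8 := Lam_ge (m := m) hM
  have hsm : Lam m M * ‖U n A B z‖ ≤ 1 / n ^ 3 := by
    calc Lam m M * ‖U n A B z‖ ≤ n * (1 / n ^ 4) := mul_le_mul hlam hU (norm_nonneg _) h0.le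
      _ = 1 / n ^ 3 := by field_simp
  have h4 : 1 / (n : ℝ) ^ 3 < 1 / (2 * n) := by
    apply one_div_lt_one_div_of_lt (by positivity)
    nlinarith [mul_pos h0 h0]
  have h5 : 1 / (2 * (n : ℝ)) ≤ 1 := by
    rw [div_le_one (by positivity)]; linarith
  have hsm1 : Lam m M * ‖U n A B z‖ ≤ 1 := by linarith
  have hden := den_low hM h.co0 hsm1
  have hden0 : pol Q.coeff m (U n A B z) ≠ 0 := by
    have : 0 < 1 / (2 * M) := by positivity
    exact norm_pos_iff.1 (lt_of_lt_of_le this hden)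
  refine ⟨?_, hsm1, ?_⟩
  · have hU' : z ^ n * A.eval z / B.eval z = U n A B z := rfl
    have hQe : (HC m n A B Q).eval z = B.eval z ^ m * pol Q.coeff m (U n A B z) := by
      rw [HC_eval, hom_inner h.dQ.le hB, hU']
    have hPe : (HC m n A B P).eval z = B.eval z ^ m * pol P.coeff m (U n A B z) := by
      rw [HC_eval, hom_inner h.dP hB, hU']
    have hQne : (HC m n A B Q).eval z ≠ 0 := by
      rw [hQe]; exact mul_ne_zero (pow_ne_zero _ hB) hden0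
    rw [hf.rat.eval z hQne, Nu, eval_add, eval_mul, eval_C, hQe, hPe]
    congr 1
    unfold ph0
    have hBm := pow_ne_zero m hB
    field_simp
  · have h6 := phi_lip hM h.co0 hsm1 (w := 0) (by simp)
    rw [sub_zero] at h6
    exact lt_of_le_of_lt h6 (lt_of_le_of_lt hsm h4)

lemma Fam.eval_out (hM : 1 ≤ M) (h : Dat k₁ k₂ m M A B P Q) (hL : Lrg k₁ k₂ m M n) {t : ℂ}
    {f : OnePoint ℂ → OnePoint ℂ} (hf : Fam m n A B P Q t f) {z : ℂ} (hz : Out k₁ k₂ n A z) :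
    f (z : OnePoint ℂ) = ((ph1 m P Q (V n A B z) + t : ℂ) : OnePoint ℂ) ∧
      Lam m M * ‖V n A B z‖ ≤ 1 ∧ ‖ph1 m P Q (V n A B z) - ph1 m P Q 0‖ < 1 / (2 * n) := by
  obtain ⟨hA, hU, -⟩ := outer_V hM h.hA h.hB hL hz.1 hz.2
  have hn := hL.three
  have h0 : (0 : ℝ) < n := by positivity
  have h3 : (3 : ℝ) ≤ n := by exact_mod_cast hn
  have hlam := hL.lam
  have hL8 := Lam_ge (m := m) hM
  have hsm : Lam m M * ‖V n A B z‖ ≤ 1 / n ^ 3 := by
    calc Lam m M * ‖V n A B z‖ ≤ n * (1 / n ^ 4) := mul_le_mul hlam hU (norm_nonneg _) h0.le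
      _ = 1 / n ^ 3 := by field_simp
  have h4 : 1 / (n : ℝ) ^ 3 < 1 / (2 * n) := by
    apply one_div_lt_one_div_of_lt (by positivity)
    nlinarith [mul_pos h0 h0]
  have h5 : 1 / (2 * (n : ℝ)) ≤ 1 := by
    rw [div_le_one (by positivity)]; linarith
  have hsm1 : Lam m M * ‖V n A B z‖ ≤ 1 := by linarith
  have hden := den_low hM h.co1 hsm1
  have hden0 : pol (fun k => Q.coeff (m - k)) m (V n A B z) ≠ 0 := by
    have : 0 < 1 / (2 * M) := by positivity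
    exact norm_pos_iff.1 (lt_of_lt_of_le this hden)
  refine ⟨?_, hsm1, ?_⟩
  · have hV' : B.eval z / (z ^ n * A.eval z) = V n A B z := rfl
    have hQe : (HC m n A B Q).eval z =
        (z ^ n * A.eval z) ^ m * pol (fun k => Q.coeff (m - k)) m (V n A B z) := by
      rw [HC_eval, hom_outer hA, hV']
    have hPe : (HC m n A B P).eval z =
        (z ^ n * A.eval z) ^ m * pol (fun k => P.coeff (m - k)) m (V n A B z) := by
      rw [HC_eval, hom_outer hA, hV']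
    have hQne : (HC m n A B Q).eval z ≠ 0 := by
      rw [hQe]; exact mul_ne_zero (pow_ne_zero _ hA) hden0
    rw [hf.rat.eval z hQne, Nu, eval_add, eval_mul, eval_C, hQe, hPe]
    congr 1
    unfold ph1
    have hAm := pow_ne_zero m hA
    field_simp
  · have h6 := phi_lip hM h.co1 hsm1 (w := 0) (by simp)
    rw [sub_zero] at h6
    exact lt_of_le_of_lt h6 (lt_of_le_of_lt hsm h4)

/-- the centres of the two charts -/
noncomputable def cen (m : ℕ) (P Q : ℂ[X]) (t : ℂ) (i : Bool) : ℂ :=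
  if i then P.coeff m / Q.coeff m + t else P.coeff 0 / Q.coeff 0 + t

/-- the two charts -/
noncomputable def psi (m : ℕ) (P Q : ℂ[X]) (t : ℂ) (i : Bool) (x : ℂ) : OnePoint ℂ :=
  ((cen m P Q t i + x : ℂ) : OnePoint ℂ)

lemma inn_or_out (hL : Lrg k₁ k₂ m M n) {c : ℂ} (hc : c ∉ Bad (kk (k₁ + k₂)) n (A * B))
    (hAB : A * B ≠ 0) :
    (∀ x : ℂ, ‖x‖ ≤ 1 / (2 * n) → Inn k₁ k₂ n B (c + x)) ∨
      (∀ x : ℂ, ‖x‖ ≤ 1 / (2 * n) → Out k₁ k₂ n A (c + x)) := by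
  obtain ⟨h1, h2⟩ := not_bad hc
  have hn := hL.three
  have h0 : (0 : ℝ) < n := by positivity
  have heg := eps_ge (k := kk (k₁ + k₂)) hn
  have h16 : (0 : ℝ) < 1 / n := by positivity
  have h17 : 16 / (n : ℝ) = 16 * (1 / n) := by ring
  have h18 : 1 / (2 * (n : ℝ)) = (1 / 2) * (1 / n) := by field_simp
  rw [roots_mul hAB] at h2
  have hroot : ∀ a : ℂ, 1 / (n : ℝ) ≤ ‖c - a‖ → ∀ x : ℂ, ‖x‖ ≤ 1 / (2 * n) →
      1 / (2 * n : ℝ) ≤ ‖c + x - a‖ := by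
    intro a ha x hx
    have h3 := norm_sub_norm_le (c - a) (-x)
    have h4 : c - a - -x = c + x - a := by ring
    rw [h4, norm_neg] at h3
    rw [h18] at hx ⊢
    linarith
  rcases h1 with h1 | h1
  · left
    intro x hx
    refine ⟨?_, fun a ha => hroot a (h2 a (Multiset.mem_add.2 (Or.inr ha))) x hx⟩
    have := norm_add_le c x
    rw [h18] at hx
    linarith
  · right
    intro x hx
    refine ⟨?_, fun a ha => hroot a (h2 a (Multiset.mem_add.2 (Or.inl ha))) x hx⟩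
    have := norm_sub_norm_le c (-x)
    rw [sub_neg_eq_add, norm_neg] at this
    rw [h18] at hx
    linarith

end Pool.Agent.H113R3.DH.Rat
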