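import Mathlib
import Pool.Agent.H113R3.DH.RatD

/-!
# Rational maps `Φ (z ^ n * A z / B z) + t`: dynamics on the sphere
-/

set_option autoImplicit false

open Polynomial Filter Topology
open scoped OnePoint

namespace Pool.Agent.H113R3.DH.Rat

open Pool.Agent.H762R2.Rt Pool.Agent.H113R3.DH Pool.Agent.H462R2.AP
open Pool.Agent.Helper114.Herman Pool.Agent.Helper114.Konig

variable {k₁ k₂ m n : ℕ} {M : ℝ} {A B P Q : ℂ[X]}

lemma small_of (hM : 1 ≤ M) (hL : Lrg k₁ k₂ m M n) {u : ℂ} (hu : ‖u‖ ≤ 1 / n ^ 4) :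
    Lam m M * ‖u‖ ≤ 1 := by
  have hn := hL.three
  have h0 : (0 : ℝ) < n := by positivity
  have h3 : (3 : ℝ) ≤ n := by exact_mod_cast hn
  have hL8 := Lam_ge (m := m) hM
  calc Lam m M * ‖u‖ ≤ n * (1 / n ^ 4) := mul_le_mul hL.lam hu (norm_nonneg _) h0.le
    _ = 1 / n ^ 3 := by field_simp
    _ ≤ 1 := by
        rw [div_le_one (by positivity)]
        exact one_le_pow₀ (by linarith)

lemma lip_inn (hM : 1 ≤ M) (h : Dat k₁ k₂ m M A B P Q) (hL : Lrg k₁ k₂ m M n) {c : ℂ}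
    (hc : ∀ x : ℂ, ‖x‖ ≤ 1 / (2 * n) → Inn k₁ k₂ n B (c + x)) {x y : ℂ}
    (hx : ‖x‖ ≤ 1 / (2 * n)) (hy : ‖y‖ ≤ 1 / (2 * n)) :
    ‖ph0 m P Q (U n A B (c + x)) - ph0 m P Q (U n A B (c + y))‖ ≤ 1 / 2 * ‖x - y‖ := by
  have hn := hL.three
  have h0 : (0 : ℝ) < n := by positivity
  have h3 : (3 : ℝ) ≤ n := by exact_mod_cast hn
  have hL8 := Lam_ge (m := m) hM
  have hS : ∀ z ∈ Metric.closedBall c (1 / (2 * n : ℝ)), Inn k₁ k₂ n B z := by
    intro z hz
    rw [mem_closedBall_iff_norm] at hz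
    have := hc (z - c) hz
    rwa [add_sub_cancel] at this
  have key := fun z (hz : Inn k₁ k₂ n B z) => inner_U hM h.hA h.hB hL hz.1 hz.2
  have h1 : ‖U n A B (c + x) - U n A B (c + y)‖ ≤ 1 / n ^ 4 * ‖(c + x) - (c + y)‖ := by
    refine Convex.norm_image_sub_le_of_norm_deriv_le (𝕜 := ℂ)
      (s := Metric.closedBall c (1 / (2 * n : ℝ))) (fun z hz => ?_) (fun z hz => ?_)
      (convex_closedBall _ _) ?_ ?_
    · exact (hasDerivAt_U (key z (hS z hz)).1).differentiableAt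
    · exact (key z (hS z hz)).2.2
    · rw [mem_closedBall_iff_norm, add_sub_cancel_left]; exact hy
    · rw [mem_closedBall_iff_norm, add_sub_cancel_left]; exact hx
  have h2 := phi_lip hM h.co0 (small_of hM hL (key _ (hc x hx)).2.1)
    (small_of hM hL (key _ (hc y hy)).2.1)
  rw [add_sub_add_left_eq_sub] at h1
  calc _ ≤ Lam m M * ‖U n A B (c + x) - U n A B (c + y)‖ := h2
    _ ≤ n * (1 / n ^ 4 * ‖x - y‖) := mul_le_mul hL.lam h1 (norm_nonneg _) h0.le
    _ = (1 / n ^ 3) * ‖x - y‖ := by field_simp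
    _ ≤ 1 / 2 * ‖x - y‖ := by
        apply mul_le_mul_of_nonneg_right _ (norm_nonneg _)
        apply one_div_le_one_div_of_le (by norm_num)
        calc (2 : ℝ) ≤ 3 ^ 3 := by norm_num
          _ ≤ n ^ 3 := pow_le_pow_left₀ (by norm_num) h3 3

lemma lip_out (hM : 1 ≤ M) (h : Dat k₁ k₂ m M A B P Q) (hL : Lrg k₁ k₂ m M n) {c : ℂ}
    (hc : ∀ x : ℂ, ‖x‖ ≤ 1 / (2 * n) → Out k₁ k₂ n A (c + x)) {x y : ℂ}
    (hx : ‖x‖ ≤ 1 / (2 * n)) (hy : ‖y‖ ≤ 1 / (2 * n)) :
    ‖ph1 m P Q (V n A B (c + x)) - ph1 m P Q (V n A B (c + y))‖ ≤ 1 / 2 * ‖x - y‖ := by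
  have hn := hL.three
  have h0 : (0 : ℝ) < n := by positivity
  have h3 : (3 : ℝ) ≤ n := by exact_mod_cast hn
  have hL8 := Lam_ge (m := m) hM
  have hS : ∀ z ∈ Metric.closedBall c (1 / (2 * n : ℝ)), Out k₁ k₂ n A z := by
    intro z hz
    rw [mem_closedBall_iff_norm] at hz
    have := hc (z - c) hz
    rwa [add_sub_cancel] at this
  have key := fun z (hz : Out k₁ k₂ n A z) => outer_V hM h.hA h.hB hL hz.1 hz.2
  have h1 : ‖V n A B (c + x) - V n A B (c + y)‖ ≤ 1 / n ^ 4 * ‖(c + x) - (c + y)‖ := by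
    refine Convex.norm_image_sub_le_of_norm_deriv_le (𝕜 := ℂ)
      (s := Metric.closedBall c (1 / (2 * n : ℝ))) (fun z hz => ?_) (fun z hz => ?_)
      (convex_closedBall _ _) ?_ ?_
    · exact (hasDerivAt_V (key z (hS z hz)).1).differentiableAt
    · exact (key z (hS z hz)).2.2
    · rw [mem_closedBall_iff_norm, add_sub_cancel_left]; exact hy
    · rw [mem_closedBall_iff_norm, add_sub_cancel_left]; exact hx
  have h2 := phi_lip hM h.co1 (small_of hM hL (key _ (hc x hx)).2.1)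
    (small_of hM hL (key _ (hc y hy)).2.1)
  rw [add_sub_add_left_eq_sub] at h1
  calc _ ≤ Lam m M * ‖V n A B (c + x) - V n A B (c + y)‖ := h2
    _ ≤ n * (1 / n ^ 4 * ‖x - y‖) := mul_le_mul hL.lam h1 (norm_nonneg _) h0.le
    _ = (1 / n ^ 3) * ‖x - y‖ := by field_simp
    _ ≤ 1 / 2 * ‖x - y‖ := by
        apply mul_le_mul_of_nonneg_right _ (norm_nonneg _)
        apply one_div_le_one_div_of_le (by norm_num)
        calc (2 : ℝ) ≤ 3 ^ 3 := by norm_num
          _ ≤ n ^ 3 := pow_le_pow_left₀ (by norm_num) h3 3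

lemma continuous_psi (t : ℂ) (i : Bool) : Continuous (psi m P Q t i) :=
  OnePoint.continuous_coe.comp (continuous_const.add continuous_id)

lemma isOpenMap_psi (t : ℂ) (i : Bool) : IsOpenMap (psi m P Q t i) :=
  (OnePoint.isOpenEmbedding_coe (X := ℂ)).isOpenMap.comp
    (Homeomorph.addLeft (cen m P Q t i)).isOpenMap

lemma Dat.AB_ne (hM : 1 ≤ M) (h : Dat k₁ k₂ m M A B P Q) : A * B ≠ 0 :=
  mul_ne_zero (h.hA.ne_zero hM) (h.hB.ne_zero hM)

theorem sinks_discs (hM : 1 ≤ M) (h : Dat k₁ k₂ m M A B P Q) (hL : Lrg k₁ k₂ m M n) {t : ℂ}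
    {f : OnePoint ℂ → OnePoint ℂ} (hf : Fam m n A B P Q t f)
    (hcen : ∀ i, cen m P Q t i ∉ Bad (kk (k₁ + k₂)) n (A * B)) (i : Bool) {x : ℂ}
    (hx : ‖x‖ ≤ 1 / (2 * n)) : Sinks f (psi m P Q t i x) := by
  classical
  have hn := hL.three
  have h0 : (0 : ℝ) < n := by positivity
  have hr : (0 : ℝ) < 1 / (2 * n) := by positivity
  set I : Bool → Prop := fun i => ∀ x : ℂ, ‖x‖ ≤ 1 / (2 * n) → Inn k₁ k₂ n B (cen m P Q t i + x)
    with hI
  have hO : ∀ i, ¬ I i → ∀ x : ℂ, ‖x‖ ≤ 1 / (2 * n) → Out k₁ k₂ n A (cen m P Q t i + x) :=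
    fun i hi => (inn_or_out hL (hcen i) (h.AB_ne hM)).resolve_left hi
  refine two_charts' hf.rat.cont (σ := fun i => if I i then false else true)
    (τ := fun _ => 1)
    (h := fun i x => if I i then ph0 m P Q (U n A B (cen m P Q t i + x)) - ph0 m P Q 0
      else ph1 m P Q (V n A B (cen m P Q t i + x)) - ph1 m P Q 0)
    hr (fun _ => one_pos) (continuous_psi t) (isOpenMap_psi t) ?_ ?_ ?_ hx
  · intro i x hx
    rw [Function.iterate_one]
    by_cases hi : I i
    · simp only [if_pos hi]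
      have h1 := (hf.eval_inn hM h hL (hi x hx)).1
      unfold psi
      rw [h1, ph0_zero]
      congr 1
      simp only [cen]
      simp
      ring
    · simp only [if_neg hi]
      have h1 := (hf.eval_out hM h hL (hO i hi x hx)).1
      unfold psi
      rw [h1, ph1_zero]
      congr 1
      simp only [cen]
      simp
      ring
  · intro i x hx
    by_cases hi : I i
    · simp only [if_pos hi]
      exact (hf.eval_inn hM h hL (hi x hx)).2.2
    · simp only [if_neg hi]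
      exact (hf.eval_out hM h hL (hO i hi x hx)).2.2
  · intro i x y hx hy
    by_cases hi : I i
    · simp only [if_pos hi]
      rw [sub_sub_sub_cancel_right]
      exact lip_inn hM h hL hi hx hy
    · simp only [if_neg hi]
      rw [sub_sub_sub_cancel_right]
      exact lip_out hM h hL (hO i hi) hx hy

theorem sinks_good (hM : 1 ≤ M) (h : Dat k₁ k₂ m M A B P Q) (hL : Lrg k₁ k₂ m M n) {t : ℂ}
    {f : OnePoint ℂ → OnePoint ℂ} (hf : Fam m n A B P Q t f)
    (hcen : ∀ i, cen m P Q t i ∉ Bad (kk (k₁ + k₂)) n (A * B)) {z : ℂ}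
    (hz : z ∉ Bad (kk (k₁ + k₂)) n (A * B)) : Sinks f (z : OnePoint ℂ) := by
  have hn := hL.three
  have h0 : (0 : ℝ) < n := by positivity
  have hr : (0 : ℝ) < 1 / (2 * n) := by positivity
  apply sinks_of_image hf.rat.cont
  rcases inn_or_out hL hz (h.AB_ne hM) with h1 | h1
  · have h2 := h1 0 (by simp)
    rw [add_zero] at h2
    obtain ⟨e1, -, e2⟩ := hf.eval_inn hM h hL h2
    have h3 := sinks_discs hM h hL hf hcen false e2.le
    have h4 : psi m P Q t false (ph0 m P Q (U n A B z) - ph0 m P Q 0) = f (z : OnePoint ℂ) := by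
      unfold psi
      rw [e1, ph0_zero]
      congr 1
      simp only [cen]
      simp
      ring
    rwa [h4] at h3
  · have h2 := h1 0 (by simp)
    rw [add_zero] at h2
    obtain ⟨e1, -, e2⟩ := hf.eval_out hM h hL h2
    have h3 := sinks_discs hM h hL hf hcen true e2.le
    have h4 : psi m P Q t true (ph1 m P Q (V n A B z) - ph1 m P Q 0) = f (z : OnePoint ℂ) := by
      unfold psi
      rw [e1, ph1_zero]
      congr 1
      simp only [cen]
      simp
      ring
    rwa [h4] at h3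

theorem sinks_infty (hM : 1 ≤ M) (h : Dat k₁ k₂ m M A B P Q) (hL : Lrg k₁ k₂ m M n) {t : ℂ}
    {f : OnePoint ℂ → OnePoint ℂ} (hf : Fam m n A B P Q t f)
    (hcen : ∀ i, cen m P Q t i ∉ Bad (kk (k₁ + k₂)) n (A * B)) : Sinks f ∞ := by
  have hn := hL.three
  have h0 : (0 : ℝ) < n := by positivity
  have h3 : (3 : ℝ) ≤ n := by exact_mod_cast hn
  have hr : (0 : ℝ) < 1 / (2 * n) := by positivity
  apply sinks_of_image hf.rat.cont
  set S : Set (OnePoint ℂ) := psi m P Q t true '' Metric.closedBall 0 (1 / (2 * n)) with hS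
  have hclosed : IsClosed S :=
    ((isCompact_closedBall _ _).image (continuous_psi t true)).isClosed
  have htend : Tendsto (fun z : ℂ => f (z : OnePoint ℂ)) (cocompact ℂ) (𝓝 (f ∞)) := by
    have h1 := OnePoint.tendsto_coe_infty (X := ℂ)
    rw [coclosedCompact_eq_cocompact] at h1
    exact (hf.rat.cont.tendsto ∞).comp h1
  have hev : ∀ᶠ z : ℂ in cocompact ℂ, f (z : OnePoint ℂ) ∈ S := by
    filter_upwards [(tendsto_norm_cocompact_atTop (E := ℂ)).eventually_ge_atTop (M ^ 2 + 3)] with z hz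
    have hout : Out k₁ k₂ n A z := by
      constructor
      · have := hL.eps_le
        nlinarith
      · intro a ha
        have h4 := h.hA.root_lt hM ha
        have h5 := norm_sub_norm_le z a
        have h6 : 1 / (2 * (n : ℝ)) ≤ 1 := by
          rw [div_le_one (by positivity)]; linarith
        linarith
    obtain ⟨e1, -, e2⟩ := hf.eval_out hM h hL hout
    refine ⟨ph1 m P Q (V n A B z) - ph1 m P Q 0, mem_closedBall_zero_iff.2 e2.le, ?_⟩
    unfold psi
    rw [e1, ph1_zero]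
    congr 1
    simp only [cen]
    simp
    ring
  obtain ⟨x, hx, hx'⟩ := hclosed.mem_of_tendsto htend hev
  rw [← hx']
  exact sinks_discs hM h hL hf hcen true (mem_closedBall_zero_iff.1 hx)

end Pool.Agent.H113R3.DH.Rat
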