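import Mathlib
import Pool.Agent.H113R3.DH.RatE

/-!
# Rational maps `Φ (z ^ n * A z / B z) + t`: critical points
-/

set_option autoImplicit false

open Polynomial Filter Topology
open scoped OnePoint

namespace Pool.Agent.H113R3.DH.Rat

open Pool.Agent.H762R2.Rt Pool.Agent.H113R3.DH Pool.Agent.H462R2.AP
open Pool.Agent.Helper114.Herman Pool.Agent.Helper114.Konig

variable {k₁ k₂ m n : ℕ} {M : ℝ} {A B P Q : ℂ[X]}

/-- the critical points of `z ^ n * A / B` different from `0` are zeros of this polynomial -/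
noncomputable def GG (n : ℕ) (A B : ℂ[X]) : ℂ[X] :=
  C (n : ℂ) * (A * B) + ((X * derivative A) * B - A * (X * derivative B))

lemma X_GG (hn : 1 ≤ n) : X ^ (n - 1) * GG n A B = wro (X ^ n * A) B := by
  unfold GG wro
  rw [derivative_mul, derivative_X_pow]
  have : (X : ℂ[X]) ^ n = X ^ (n - 1) * X := by rw [← pow_succ]; congr 1; omega
  rw [this]; ring

lemma GG_ne_zero (hM : 1 ≤ M) (hn : 1 ≤ n) (h : Dat k₁ k₂ m M A B P Q) : GG n A B ≠ 0 := by
  intro h0
  have h1 := X_GG (A := A) (B := B) hn
  rw [h0, mul_zero] at h1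
  have hc : IsCoprime (X ^ n * A) B := by
    have hX : IsCoprime (X : ℂ[X]) B := IsCoprime.of_mul_left_left h.cAB
    have hA : IsCoprime A B := IsCoprime.of_mul_left_right h.cAB
    exact IsCoprime.mul_left (hX.pow_left) hA
  refine wro_ne_zero hc ?_ h1.symm
  have h2 : (X ^ n * A).natDegree = n + A.natDegree := by
    rw [natDegree_mul (pow_ne_zero _ X_ne_zero) (h.hA.ne_zero hM), natDegree_X_pow]
  rw [h2]
  exact le_max_of_le_left (by omega)

lemma natDegree_X_deriv {A : ℂ[X]} {k : ℕ} (hA : A.natDegree ≤ k) :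
    (X * derivative A).natDegree ≤ k := by
  rw [natDegree_le_iff_coeff_eq_zero]
  intro i hi
  rcases i with _ | i
  · simp
  · rw [coeff_X_mul, coeff_derivative, coeff_eq_zero_of_natDegree_lt (lt_of_le_of_lt hA hi), zero_mul]

lemma GG_natDegree (h : Dat k₁ k₂ m M A B P Q) : (GG n A B).natDegree ≤ k₁ + k₂ := by
  unfold GG
  have hA := h.hA.deg.le
  have hB := h.hB.deg.le
  refine natDegree_add_le_of_degree_le ?_ ((natDegree_sub_le _ _).trans (max_le ?_ ?_))
  · exact (natDegree_C_mul_le _ _).trans (natDegree_mul_le_of_le hA hB)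
  · exact natDegree_mul_le_of_le (natDegree_X_deriv hA) hB
  · exact natDegree_mul_le_of_le hA (natDegree_X_deriv hB)

/-- the critical values of the family for `t = 0` -/
noncomputable def WW (m n : ℕ) (A B P Q : ℂ[X]) : Finset ℂ :=
  insert (P.coeff 0 / Q.coeff 0) (insert (P.coeff m / Q.coeff m)
    (((wro P Q).roots.toFinset.image fun u => P.eval u / Q.eval u) ∪
      ((GG n A B).roots.toFinset.image fun y => P.eval (U n A B y) / Q.eval (U n A B y))))

lemma max_deg (h : Dat k₁ k₂ m M A B P Q) : max P.natDegree Q.natDegree = m := by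
  rw [h.dQ]; exact max_eq_right h.dP

lemma card_WW (hm : 1 ≤ m) (h : Dat k₁ k₂ m M A B P Q) :
    (WW m n A B P Q).card ≤ k₁ + k₂ + 2 * m + 1 := by
  unfold WW
  have h1 : ((wro P Q).roots.toFinset.image fun u => P.eval u / Q.eval u).card ≤ 2 * m - 1 := by
    refine Finset.card_image_le.trans ((Multiset.toFinset_card_le _).trans
      ((card_roots' _).trans ?_))
    have := wro_natDegree h.cPQ (by rw [max_deg h]; exact hm)
    rw [max_deg h] at this
    omega
  have h2 : ((GG n A B).roots.toFinset.image fun y =>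
      P.eval (U n A B y) / Q.eval (U n A B y)).card ≤ k₁ + k₂ :=
    Finset.card_image_le.trans ((Multiset.toFinset_card_le _).trans
      ((card_roots' _).trans (GG_natDegree h)))
  refine (Finset.card_insert_le _ _).trans ?_
  have h3 := (Finset.card_insert_le (P.coeff m / Q.coeff m)
    (((wro P Q).roots.toFinset.image fun u => P.eval u / Q.eval u) ∪
      ((GG n A B).roots.toFinset.image fun y => P.eval (U n A B y) / Q.eval (U n A B y))))
  have h4 := Finset.card_union_le ((wro P Q).roots.toFinset.image fun u => P.eval u / Q.eval u)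
      ((GG n A B).roots.toFinset.image fun y => P.eval (U n A B y) / Q.eval (U n A B y))
  omega

lemma strict_U (hn : 1 ≤ n) {z : ℂ} (hB : B.eval z ≠ 0) :
    HasStrictDerivAt (U n A B) (z ^ (n - 1) * (GG n A B).eval z / B.eval z ^ 2) z := by
  have h1 : HasStrictDerivAt (fun z : ℂ => z ^ n * A.eval z)
      (n * z ^ (n - 1) * A.eval z + z ^ n * (derivative A).eval z) z :=
    (hasStrictDerivAt_pow n z).mul (A.hasStrictDerivAt z)
  have h2 := h1.fun_div (B.hasStrictDerivAt z) hB
  have e : (n * z ^ (n - 1) * A.eval z + z ^ n * (derivative A).eval z) * B.eval z -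
      z ^ n * A.eval z * (derivative B).eval z = z ^ (n - 1) * (GG n A B).eval z := by
    have h3 : z ^ n = z ^ (n - 1) * z := by rw [← pow_succ]; congr 1; omega
    unfold GG
    simp only [eval_add, eval_mul, eval_C, eval_sub, eval_X]
    rw [h3]; ring
  rw [e] at h2
  exact h2

lemma strict_map (hn : 1 ≤ n) (t : ℂ) {z : ℂ} (hB : B.eval z ≠ 0) (hQ : Q.eval (U n A B z) ≠ 0) :
    HasStrictDerivAt (fun x => P.eval (U n A B x) / Q.eval (U n A B x) + t)
      ((wro P Q).eval (U n A B z) / Q.eval (U n A B z) ^ 2 *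
        (z ^ (n - 1) * (GG n A B).eval z / B.eval z ^ 2)) z := by
  have h1 : HasStrictDerivAt (fun u : ℂ => P.eval u / Q.eval u + t)
      (((derivative P).eval (U n A B z) * Q.eval (U n A B z) -
        P.eval (U n A B z) * (derivative Q).eval (U n A B z)) / Q.eval (U n A B z) ^ 2)
        (U n A B z) :=
    ((P.hasStrictDerivAt _).fun_div (Q.hasStrictDerivAt _) hQ).add_const t
  have h2 := h1.comp z (strict_U hn hB)
  have e : (derivative P).eval (U n A B z) * Q.eval (U n A B z) -
        P.eval (U n A B z) * (derivative Q).eval (U n A B z) = (wro P Q).eval (U n A B z) := by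
    unfold wro; simp
  rw [e] at h2
  exact h2

/-- the family is given by `Φ ∘ U + t` off the poles -/
lemma eval_gen (h : Dat k₁ k₂ m M A B P Q) {t : ℂ} {z : ℂ} (hB : B.eval z ≠ 0)
    (hQ : (HC m n A B Q).eval z ≠ 0) : Q.eval (U n A B z) ≠ 0 ∧
      (Nu m n A B P Q t).eval z / (HC m n A B Q).eval z =
        P.eval (U n A B z) / Q.eval (U n A B z) + t := by
  have hU' : z ^ n * A.eval z / B.eval z = U n A B z := rfl
  have hQe : (HC m n A B Q).eval z = B.eval z ^ m * Q.eval (U n A B z) := by
    rw [HC_eval, hom_ne h.dQ.le hB, hU']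
  have hPe : (HC m n A B P).eval z = B.eval z ^ m * P.eval (U n A B z) := by
    rw [HC_eval, hom_ne h.dP hB, hU']
  have h1 : Q.eval (U n A B z) ≠ 0 := by
    intro h0; rw [h0, mul_zero] at hQe; exact hQ hQe
  refine ⟨h1, ?_⟩
  rw [Nu, eval_add, eval_mul, eval_C, hQe, hPe]
  have hBm := pow_ne_zero m hB
  field_simp

theorem hyp_fam (hM : 1 ≤ M) (hm : 1 ≤ m) (h : Dat k₁ k₂ m M A B P Q) (hL : Lrg k₁ k₂ m M n) {t : ℂ}
    (hW : ∀ w ∈ WW m n A B P Q, t + w ∉ Bad (kk (k₁ + k₂)) n (A * B)) :
    Pool.Agent.H762R2.Rt.Hyp (Nu m n A B P Q t) (HC m n A B Q) := by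
  have hn3 := hL.three
  have hn1 : 1 ≤ n := by omega
  have hcop := coprime_Nu (n := n) hM h t
  obtain ⟨f, hf, -⟩ := exists_isRat hcop (Q_ne_zero hM hn1 h)
  have hF : Fam m n A B P Q t f := ⟨hf⟩
  refine ⟨hcop, f, hf.cont, hf.eval, ?_⟩
  have hcen : ∀ i, cen m P Q t i ∉ Bad (kk (k₁ + k₂)) n (A * B) := by
    intro i
    cases i
    · have := hW _ (Finset.mem_insert_self _ _)
      simpa [cen, add_comm] using this
    · have := hW (P.coeff m / Q.coeff m)
        (Finset.mem_insert_of_mem (Finset.mem_insert_self _ _))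
      simpa [cen, add_comm] using this
  have hinf := sinks_infty hM h hL hF hcen
  have hr : (0 : ℝ) ≤ 1 / (2 * n) := by positivity
  intro c hnot
  induction c using OnePoint.rec with
  | infty => exact hinf
  | coe z =>
    by_cases hB : B.eval z = 0
    · -- a zero of `B`
      have hx : z ^ n * A.eval z ≠ 0 := (h.no_common (n := n) z).resolve_right (not_not.2 hB)
      have hQe : (HC m n A B Q).eval z = Q.coeff m * (z ^ n * A.eval z) ^ m := by
        rw [HC_eval, hB, hom_zero]
      have hPe : (HC m n A B P).eval z = P.coeff m * (z ^ n * A.eval z) ^ m := by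
        rw [HC_eval, hB, hom_zero]
      have hxm := pow_ne_zero m hx
      have hqm := h.nem hM
      have hQne : (HC m n A B Q).eval z ≠ 0 := by rw [hQe]; exact mul_ne_zero hqm hxm
      have e1 : f (z : OnePoint ℂ) = psi m P Q t true 0 := by
        rw [hf.eval z hQne, Nu, eval_add, eval_mul, eval_C, hQe, hPe]
        unfold psi cen
        congr 1
        simp only [if_true, add_zero]
        field_simp
      apply sinks_of_image hf.cont
      rw [e1]
      exact sinks_discs hM h hL hF hcen true (by simp)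
    by_cases hQ : (HC m n A B Q).eval z = 0
    · -- a pole
      have hdeg : 0 < max (Nu m n A B P Q t).natDegree (HC m n A B Q).natDegree := by
        apply lt_max_of_lt_right
        rw [natDegree_pos_iff_degree_pos]
        exact degree_pos_of_root (Q_ne_zero hM hn1 h) hQ
      have e1 := rat_formula hf rfl hdeg (u := z) (v := 1) (Or.inr one_ne_zero)
      rw [pr_one, hom_ne (P := HC m n A B Q) (le_max_right _ _) one_ne_zero, div_one, hQ,
        mul_zero, pr_zero] at e1
      apply sinks_of_image hf.cont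
      rw [e1]
      exact hinf
    obtain ⟨hQU, hev⟩ := eval_gen (t := t) h hB hQ
    have hfz : f (z : OnePoint ℂ) =
        ((P.eval (U n A B z) / Q.eval (U n A B z) + t : ℂ) : OnePoint ℂ) := by
      rw [hf.eval z hQ, hev]
    have hgood : P.eval (U n A B z) / Q.eval (U n A B z) ∈ WW m n A B P Q →
        Sinks f (z : OnePoint ℂ) := by
      intro hmem
      apply sinks_of_image hf.cont
      rw [hfz]
      apply sinks_good hM h hL hF hcen
      have := hW _ hmem
      rwa [add_comm t] at this
    by_cases hw : (wro P Q).eval (U n A B z) = 0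
    · apply hgood
      unfold WW
      refine Finset.mem_insert_of_mem (Finset.mem_insert_of_mem (Finset.mem_union_left _ ?_))
      refine Finset.mem_image.2 ⟨U n A B z, ?_, rfl⟩
      rw [Multiset.mem_toFinset, mem_roots]
      · exact hw
      · exact wro_ne_zero h.cPQ (by rw [max_deg h]; exact hm)
    by_cases hg : (GG n A B).eval z = 0
    · apply hgood
      unfold WW
      refine Finset.mem_insert_of_mem (Finset.mem_insert_of_mem (Finset.mem_union_right _ ?_))
      refine Finset.mem_image.2 ⟨z, ?_, rfl⟩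
      rw [Multiset.mem_toFinset, mem_roots (GG_ne_zero hM hn1 h)]
      exact hg
    by_cases hz : z = 0
    · apply hgood
      have hU0 : U n A B z = 0 := by
        unfold U; rw [hz, zero_pow (by omega)]; simp
      rw [hU0, ← coeff_zero_eq_eval_zero, ← coeff_zero_eq_eval_zero]
      exact Finset.mem_insert_self _ _
    exfalso
    apply hnot
    have hder := strict_map (P := P) (Q := Q) hn1 t hB hQU
    have hne : (wro P Q).eval (U n A B z) / Q.eval (U n A B z) ^ 2 *
        (z ^ (n - 1) * (GG n A B).eval z / B.eval z ^ 2) ≠ 0 :=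
      mul_ne_zero (div_ne_zero hw (pow_ne_zero _ hQU))
        (div_ne_zero (mul_ne_zero (pow_ne_zero _ hz) hg) (pow_ne_zero _ hB))
    obtain ⟨V', hV', hinj⟩ := injOn_of_deriv hder hne
    have hO1 : {x : ℂ | B.eval x ≠ 0} ∈ 𝓝 z :=
      (isOpen_ne_fun B.continuous continuous_const).mem_nhds hB
    have hO2 : {x : ℂ | (HC m n A B Q).eval x ≠ 0} ∈ 𝓝 z :=
      (isOpen_ne_fun (HC m n A B Q).continuous continuous_const).mem_nhds hQ
    refine ⟨(fun x : ℂ => (x : OnePoint ℂ)) '' (V' ∩ ({x : ℂ | B.eval x ≠ 0} ∩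
      {x : ℂ | (HC m n A B Q).eval x ≠ 0})), ?_, ?_⟩
    · exact (OnePoint.isOpenEmbedding_coe (X := ℂ)).isOpenMap.image_mem_nhds
        (Filter.inter_mem hV' (Filter.inter_mem hO1 hO2))
    · rintro _ ⟨x, ⟨hx, hxB, hxQ⟩, rfl⟩ _ ⟨y, ⟨hy, hyB, hyQ⟩, rfl⟩ hxy
      simp only at hxy
      rw [hf.eval x hxQ, hf.eval y hyQ, OnePoint.coe_eq_coe, (eval_gen h hxB hxQ).2,
        (eval_gen h hyB hyQ).2] at hxy
      rw [hinj hx hy hxy]

end Pool.Agent.H113R3.DH.Rat
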