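import Mathlib
import Pool.Agent.H113R3.DH.RatF
import Pool.Agent.H113R3.DH.Final

/-!
# Rational maps `Φ (z ^ n * A z / B z) + t`: the uniform theorem
-/

set_option autoImplicit false

open Polynomial Filter Topology MeasureTheory
open scoped OnePoint

namespace Pool.Agent.H113R3.DH.Rat

open Pool.Agent.H113R3.DH

variable {k₁ k₂ m n : ℕ} {M : ℝ} {A B P Q : ℂ[X]}

lemma eventually_Lrg (k₁ k₂ m N₀ : ℕ) (M : ℝ) : ∀ᶠ n : ℕ in atTop,
    Lrg k₁ k₂ m M n ∧ 2 * (2 * ((kk (k₁ + k₂) : ℕ) + N₀)) * (20 * eps (kk (k₁ + k₂)) n) ≤ 1 / 16 := by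
  have h1 : ∀ᶠ n : ℕ in atTop, eps (kk (k₁ + k₂)) n < 1 / 2 :=
    (tendsto_eps _).eventually_lt_const (by norm_num)
  have h2 : ∀ᶠ n : ℕ in atTop,
      2 * (2 * (((kk (k₁ + k₂) : ℕ) : ℝ) + N₀)) * (20 * eps (kk (k₁ + k₂)) n) < 1 / 16 := by
    have h3 : Tendsto (fun n : ℕ =>
        2 * (2 * (((kk (k₁ + k₂) : ℕ) : ℝ) + N₀)) * (20 * eps (kk (k₁ + k₂)) n)) atTop (𝓝 0) := by
      have := ((tendsto_eps (kk (k₁ + k₂))).const_mul 20).const_mul
        (2 * (2 * (((kk (k₁ + k₂) : ℕ) : ℝ) + N₀)))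
      simpa using this
    exact h3.eventually_lt_const (by norm_num)
  have h3 : ∀ B : ℝ, ∀ᶠ n : ℕ in atTop, B ≤ n := fun B =>
    tendsto_natCast_atTop_atTop.eventually_ge_atTop B
  filter_upwards [h1, h2, eventually_ge_atTop 3, h3 ((k₁ + 1) * M), h3 ((k₂ + 1) * M),
    eventually_ge_atTop (4 * (k₁ + k₂)), h3 (Lam m M)] with n g1 g2 g3 g4 g5 g6 g7
  exact ⟨⟨g3, g1.le, g4, g5, g6, g7⟩, g2.le⟩

lemma eps_kk (K n : ℕ) : eps (kk K) n = 64 * (K + 2) * (Real.log n / n) := by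
  unfold eps kk; push_cast; ring

theorem main_rat (k₁ k₂ m : ℕ) (hm : 1 ≤ m) (M : ℝ) (hM : 1 ≤ M) : ∃ n₀ : ℕ, ∀ n : ℕ, n₀ ≤ n →
    ∀ A B P Q : ℂ[X], Dat k₁ k₂ m M A B P Q →
      volume {t : ℂ | ¬ Pool.Agent.H762R2.Rt.Hyp (Nu m n A B P Q t) (HC m n A B Q)} ≤
        ENNReal.ofReal (46080 * (k₁ + k₂ + m + 2) * (k₁ + k₂ + 2) * (Real.log n / n)) ∧
      ∃ t : ℂ, ‖t‖ ≤ 46080 * (k₁ + k₂ + m + 2) * (k₁ + k₂ + 2) * (Real.log n / n) ∧
        Pool.Agent.H762R2.Rt.Hyp (Nu m n A B P Q t) (HC m n A B Q) := by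
  obtain ⟨n₀, hn₀⟩ := eventually_atTop.1 (eventually_Lrg k₁ k₂ m (k₁ + k₂ + 2 * m + 1) M)
  refine ⟨n₀, fun n hn A B P Q h => ?_⟩
  obtain ⟨hL, he⟩ := hn₀ n hn
  have hn3 := hL.three
  have h0 : (0 : ℝ) < n := by positivity
  have hn1 : (1 : ℝ) ≤ n := by exact_mod_cast (by omega : 1 ≤ n)
  have hcard := card_WW (n := n) hm h
  have hE : (A * B).natDegree ≤ kk (k₁ + k₂) := by
    refine (natDegree_mul_le_of_le h.hA.deg.le h.hB.deg.le).trans ?_
    unfold kk; omega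
  have hlog := log_ge hn3
  set L := Real.log n / n with hLdef
  have hL0 : 0 ≤ L := by rw [hLdef]; positivity
  have hK0 : (0 : ℝ) ≤ (k₁ : ℝ) + k₂ := by positivity
  have hm1 : (1 : ℝ) ≤ m := by exact_mod_cast hm
  constructor
  · have h1 := vol_gen hE hn3 hL.eps_le (WW m n A B P Q) hcard
    have hsub : {t : ℂ | ¬ Pool.Agent.H762R2.Rt.Hyp (Nu m n A B P Q t) (HC m n A B Q)} ⊆
        {c : ℂ | ∃ w ∈ WW m n A B P Q, c + w ∈ Bad (kk (k₁ + k₂)) n (A * B)} := by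
      intro t ht
      by_contra hcon
      apply ht
      apply hyp_fam hM hm h hL
      intro w hw hw'
      exact hcon ⟨w, hw, hw'⟩
    refine (measure_mono hsub).trans (h1.trans (ENNReal.ofReal_le_ofReal ?_))
    have h2 : Real.pi / (n : ℝ) ^ 2 ≤ Real.pi * L := by
      have h3 : 1 / (n : ℝ) ^ 2 ≤ L := by
        rw [hLdef, div_le_div_iff₀ (by positivity) h0]
        nlinarith
      calc Real.pi / (n : ℝ) ^ 2 = Real.pi * (1 / n ^ 2) := by ring
        _ ≤ Real.pi * L := by gcongr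
    have hkk : ((kk (k₁ + k₂) : ℕ) : ℝ) = 8 * (k₁ + k₂) + 14 := by unfold kk; push_cast; ring
    rw [eps_kk, hkk, ← hLdef]
    push_cast
    have hpi := Real.pi_lt_d2
    have hpi0 := Real.pi_pos
    calc ((k₁ : ℝ) + k₂ + 2 * m + 1) * (4 * Real.pi * (64 * (k₁ + k₂ + 2) * L) +
          (8 * (k₁ + k₂) + 14) * (Real.pi / n ^ 2))
        ≤ (k₁ + k₂ + 2 * m + 1) * (4 * Real.pi * (64 * (k₁ + k₂ + 2) * L) +
          (8 * (k₁ + k₂) + 14) * (Real.pi * L)) := by gcongr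
      _ = (k₁ + k₂ + 2 * m + 1) * L * (Real.pi * (264 * (k₁ + k₂) + 526)) := by ring
      _ ≤ (2 * (k₁ + k₂ + m + 2)) * L * (23040 * (k₁ + k₂ + 2)) := by
          apply mul_le_mul
          · apply mul_le_mul_of_nonneg_right _ hL0
            linarith
          · nlinarith
          · positivity
          · positivity
      _ = _ := by ring
  · obtain ⟨t, ht, hgood⟩ := exists_good_gen hE hn3 (WW m n A B P Q)
      (N₀ := k₁ + k₂ + 2 * m + 1) (by omega) hcard he 0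
    refine ⟨t, ?_, hyp_fam hM hm h hL hgood⟩
    rw [sub_zero] at ht
    refine ht.trans ?_
    have hkk : ((kk (k₁ + k₂) : ℕ) : ℝ) = 8 * (k₁ + k₂) + 14 := by unfold kk; push_cast; ring
    rw [eps_kk, hkk, ← hLdef]
    push_cast
    calc 80 * (8 * ((k₁ : ℝ) + k₂) + 14 + (k₁ + k₂ + 2 * m + 1)) * (64 * (k₁ + k₂ + 2) * L)
        ≤ 80 * (9 * (k₁ + k₂ + m + 2)) * (64 * (k₁ + k₂ + 2) * L) := by
          apply mul_le_mul_of_nonneg_right _ (by positivity)
          linarith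
      _ = _ := by ring

lemma HC_natDegree_le (h1 : A.natDegree = k₁) (h2 : B.natDegree = k₂) (hk : k₂ ≤ n + k₁) :
    (HC m n A B P).natDegree ≤ m * (n + k₁) := by
  unfold HC
  apply natDegree_sum_le_of_forall_le
  intro i hi
  have hi' : i ≤ m := Nat.lt_succ_iff.1 (Finset.mem_range.1 hi)
  have e1 : (X ^ n * A).natDegree ≤ n + k₁ := by
    refine natDegree_mul_le_of_le (natDegree_X_pow_le n) h1.le
  have e2 : ((X ^ n * A) ^ i).natDegree ≤ i * (n + k₁) := natDegree_pow_le_of_le i e1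
  have e3 : (B ^ (m - i)).natDegree ≤ (m - i) * k₂ := natDegree_pow_le_of_le _ h2.le
  have e4 := natDegree_mul_le_of_le (natDegree_mul_le_of_le (natDegree_C (P.coeff i)).le e2) e3
  refine e4.trans ?_
  have e5 : (m - i) * k₂ ≤ (m - i) * (n + k₁) := Nat.mul_le_mul_left _ hk
  calc 0 + i * (n + k₁) + (m - i) * k₂ ≤ i * (n + k₁) + (m - i) * (n + k₁) := by omega
    _ = m * (n + k₁) := by rw [← add_mul]; congr 1; omega

lemma HC_coeff_top (h1 : A.natDegree = k₁) (h2 : B.natDegree = k₂) (hk : k₂ < n + k₁) :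
    (HC m n A B P).coeff (m * (n + k₁)) = P.coeff m * A.leadingCoeff ^ m := by
  unfold HC
  rw [finsetSum_coeff, Finset.sum_range_succ, Finset.sum_eq_zero, zero_add]
  · rw [Nat.sub_self, pow_zero, mul_one, coeff_C_mul, mul_pow, ← pow_mul]
    congr 1
    have e1 : m * (n + k₁) = k₁ * m + n * m := by ring
    rw [e1, mul_comm (X ^ (n * m)) (A ^ m), coeff_mul_X_pow]
    rw [← h1, mul_comm A.natDegree m]
    exact coeff_pow_mul_natDegree A m
  · intro i hi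
    have hi' : i < m := Finset.mem_range.1 hi
    apply coeff_eq_zero_of_natDegree_lt
    have e1 : (X ^ n * A).natDegree ≤ n + k₁ := by
      refine natDegree_mul_le_of_le (natDegree_X_pow_le n) h1.le
    have e2 : ((X ^ n * A) ^ i).natDegree ≤ i * (n + k₁) := natDegree_pow_le_of_le i e1
    have e3 : (B ^ (m - i)).natDegree ≤ (m - i) * k₂ := natDegree_pow_le_of_le _ h2.le
    have e4 := natDegree_mul_le_of_le (natDegree_mul_le_of_le (natDegree_C (P.coeff i)).le e2) e3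
    refine lt_of_le_of_lt e4 ?_
    have e5 : (m - i) * k₂ < (m - i) * (n + k₁) := Nat.mul_lt_mul_of_pos_left hk (by omega)
    calc 0 + i * (n + k₁) + (m - i) * k₂ < i * (n + k₁) + (m - i) * (n + k₁) := by omega
      _ = m * (n + k₁) := by rw [← add_mul]; congr 1; omega

theorem degree_fam (hM : 1 ≤ M) (h : Dat k₁ k₂ m M A B P Q) (hk : k₂ < n + k₁) (t : ℂ) :
    max (Nu m n A B P Q t).natDegree (HC m n A B Q).natDegree = m * (n + k₁) := by
  have hA0 : A.leadingCoeff ≠ 0 := leadingCoeff_ne_zero.2 (h.hA.ne_zero hM)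
  have h1 := HC_natDegree_le (m := m) (P := P) h.hA.deg h.hB.deg hk.le
  have h2 := HC_natDegree_le (m := m) (P := Q) h.hA.deg h.hB.deg hk.le
  have h3 : (HC m n A B Q).natDegree = m * (n + k₁) := by
    apply le_antisymm h2
    apply le_natDegree_of_ne_zero
    rw [HC_coeff_top h.hA.deg h.hB.deg hk]
    exact mul_ne_zero (h.nem hM) (pow_ne_zero _ hA0)
  rw [h3]
  apply max_eq_right
  unfold Nu
  exact natDegree_add_le_of_degree_le h1 ((natDegree_C_mul_le _ _).trans h2)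

end Pool.Agent.H113R3.DH.Rat
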